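import Mathlib
import Pool.Agent.SWT49.Perm

/-!
# Based graphs: uni-trivalent graphs with linearly ordered legs

A graph is given by its set `V` of half-edges, the involution `e` whose orbits are the edges and the
permutation `r` whose orbits are the vertices, with their cyclic orders. The univalent vertices are
the fixed points of `r`; they are ordered by `leg`. The graph need not be connected, and a component
may have no leg.
-/

set_option autoImplicit false

namespace Pool.Agent.SWT80

open Pool.Agent.SWT49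

/-- Graphs with vertices of valency one and three, and with `n` linearly ordered legs. -/
@[ext]
structure Gr (V : Type) (n : ℕ) where
  /-- the other half of the edge -/
  e : Equiv.Perm V
  /-- the cyclic orders at the vertices -/
  r : Equiv.Perm V
  /-- the legs (univalent vertices), in their order -/
  leg : Fin n → V
  e2 : ∀ v, e (e v) = v
  e1 : ∀ v, e v ≠ v
  r3 : ∀ v, r (r (r v)) = v
  inj : Function.Injective leg
  fix : ∀ v, r v = v ↔ ∃ i, leg i = v

namespace Gr

variable {V W : Type} {n : ℕ}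

theorem r_inj (G : Gr V n) {u v : V} (h : G.r u = G.r v) : u = v := G.r.injective h

theorem e_inj (G : Gr V n) {u v : V} (h : G.e u = G.e v) : u = v := G.e.injective h

theorem r_leg (G : Gr V n) (i : Fin n) : G.r (G.leg i) = G.leg i := (G.fix _).2 ⟨i, rfl⟩

theorem leg_ne (G : Gr V n) {i j : Fin n} (h : i ≠ j) : G.leg i ≠ G.leg j := fun h' =>
  h (G.inj h')

/-- A fixed point of `r r` is a fixed point of `r`. -/
theorem r2 (G : Gr V n) {v : V} (h : G.r (G.r v) = v) : G.r v = v := by
  have h1 := G.r3 v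
  rw [h] at h1
  exact h1

/-- The same graph with other cyclic orders at the vertices; the legs are the same. -/
def withR (G : Gr V n) (f : Equiv.Perm V) (h3 : ∀ v, f (f (f v)) = v)
    (hf : ∀ v, f v = v ↔ G.r v = v) : Gr V n where
  e := G.e
  r := f
  leg := G.leg
  e2 := G.e2
  e1 := G.e1
  r3 := h3
  inj := G.inj
  fix v := (hf v).trans (G.fix v)

/-! ### The action of the permutations of the positions -/

instance : MulAction (Equiv.Perm (Fin n)) (Gr V n) where
  smul g G :=
    { e := G.e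
      r := G.r
      leg := fun i => G.leg (g⁻¹ i)
      e2 := G.e2
      e1 := G.e1
      r3 := G.r3
      inj := G.inj.comp (Equiv.injective _)
      fix := fun v => (G.fix v).trans
        ⟨fun ⟨i, h⟩ => ⟨g i, by simpa using h⟩, fun ⟨i, h⟩ => ⟨g⁻¹ i, h⟩⟩ }
  one_smul G := by
    refine Gr.ext rfl rfl ?_
    funext i
    show G.leg ((1 : Equiv.Perm (Fin n))⁻¹ i) = G.leg i
    rw [inv_one, Equiv.Perm.one_apply]
  mul_smul g h G := by
    refine Gr.ext rfl rfl ?_
    funext i
    show G.leg ((g * h)⁻¹ i) = G.leg (h⁻¹ (g⁻¹ i))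
    rw [mul_inv_rev, Equiv.Perm.mul_apply]

theorem smul_e (g : Equiv.Perm (Fin n)) (G : Gr V n) : (g • G).e = G.e := rfl

theorem smul_r (g : Equiv.Perm (Fin n)) (G : Gr V n) : (g • G).r = G.r := rfl

theorem smul_leg (g : Equiv.Perm (Fin n)) (G : Gr V n) (i : Fin n) :
    (g • G).leg i = G.leg (g⁻¹ i) := rfl

theorem s_smul_leg (j : Fin n) (G : Gr V (n + 1)) (i : Fin (n + 1)) :
    (s j • G).leg i = G.leg (s j i) := by
  rw [smul_leg, s_inv]

theorem s_smul_castSucc (j : Fin n) (G : Gr V (n + 1)) :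
    (s j • G).leg j.castSucc = G.leg j.succ := by
  rw [s_smul_leg, s_castSucc]

theorem s_smul_succ (j : Fin n) (G : Gr V (n + 1)) :
    (s j • G).leg j.succ = G.leg j.castSucc := by
  rw [s_smul_leg, s_succ]

/-- Two based graphs with the same graph differ by a permutation of the positions. -/
theorem exists_smul (G G' : Gr V n) (he : G'.e = G.e) (hr : G'.r = G.r) :
    ∃ g : Equiv.Perm (Fin n), g • G = G' := by
  have key : ∀ i, ∃ j, G.leg j = G'.leg i := fun i => by
    have h1 : G.r (G'.leg i) = G'.leg i := by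
      rw [← hr]
      exact G'.r_leg i
    exact (G.fix _).1 h1
  choose f hf using key
  have hinj : Function.Injective f := by
    intro i j h
    apply G'.inj
    rw [← hf i, ← hf j, h]
  have hbij : Function.Bijective f := Finite.injective_iff_bijective.1 hinj
  refine ⟨(Equiv.ofBijective f hbij)⁻¹, Gr.ext he.symm hr.symm ?_⟩
  funext i
  rw [smul_leg, inv_inv]
  exact hf i

/-! ### Isomorphisms -/

/-- Renaming of the half-edges. -/
def map (φ : V ≃ W) (G : Gr V n) : Gr W n where
  e := (φ.symm.trans G.e).trans φ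
  r := (φ.symm.trans G.r).trans φ
  leg := fun i => φ (G.leg i)
  e2 v := by simp [G.e2]
  e1 v h := by
    apply G.e1 (φ.symm v)
    apply φ.injective
    simpa using h
  r3 v := by simp [G.r3]
  inj := φ.injective.comp G.inj
  fix v := by
    have h1 : ((φ.symm.trans G.r).trans φ) v = v ↔ G.r (φ.symm v) = φ.symm v := by
      rw [Equiv.eq_symm_apply]
      rfl
    rw [h1, G.fix]
    exact ⟨fun ⟨i, h⟩ => ⟨i, by rw [h, Equiv.apply_symm_apply]⟩,
      fun ⟨i, h⟩ => ⟨i, by rw [← h, Equiv.symm_apply_apply]⟩⟩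

theorem map_e (φ : V ≃ W) (G : Gr V n) (v : V) : (G.map φ).e (φ v) = φ (G.e v) := by
  simp [map]

theorem map_r (φ : V ≃ W) (G : Gr V n) (v : V) : (G.map φ).r (φ v) = φ (G.r v) := by
  simp [map]

theorem map_leg (φ : V ≃ W) (G : Gr V n) (i : Fin n) : (G.map φ).leg i = φ (G.leg i) := rfl

theorem smul_map (φ : V ≃ W) (g : Equiv.Perm (Fin n)) (G : Gr V n) :
    g • G.map φ = (g • G).map φ := rfl

/-- A graph which agrees with the image of another one. -/
theorem map_eq {φ : V ≃ W} {G : Gr V n} {G' : Gr W n} (he : ∀ v, G'.e (φ v) = φ (G.e v))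
    (hr : ∀ v, G'.r (φ v) = φ (G.r v)) (hl : ∀ i, G'.leg i = φ (G.leg i)) : G.map φ = G' := by
  refine Gr.ext (Equiv.ext fun w => ?_) (Equiv.ext fun w => ?_) (funext fun i => (hl i).symm)
  · obtain ⟨v, rfl⟩ := φ.surjective w
    rw [map_e, he]
  · obtain ⟨v, rfl⟩ := φ.surjective w
    rw [map_r, hr]

/-! ### Reversal of a vertex -/

/-- `v` is a half-edge at the vertex of `x`. -/
def vt (G : Gr V n) (x v : V) : Prop := v = x ∨ v = G.r x ∨ v = G.r (G.r x)

theorem vt_r (G : Gr V n) {x v : V} : G.vt x (G.r v) ↔ G.vt x v := by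
  have h1 : G.r (G.r (G.r x)) = x := G.r3 x
  constructor
  · rintro (h2 | h2 | h2)
    · right; right
      exact G.r_inj (h2.trans h1.symm)
    · left
      exact G.r_inj h2
    · right; left
      exact G.r_inj h2
  · rintro (h2 | h2 | h2)
    · right; left
      rw [h2]
    · right; right
      rw [h2]
    · left
      rw [h2, h1]

open Classical in
/-- The cyclic orders after the reversal at `x`. -/
noncomputable def fr (G : Gr V n) (x v : V) : V := if G.vt x v then G.r (G.r v) else G.r v

theorem fr_pos {G : Gr V n} {x v : V} (h : G.vt x v) : G.fr x v = G.r (G.r v) := if_pos h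

theorem fr_neg {G : Gr V n} {x v : V} (h : ¬ G.vt x v) : G.fr x v = G.r v := if_neg h

theorem fr3 (G : Gr V n) (x v : V) : G.fr x (G.fr x (G.fr x v)) = v := by
  by_cases hx : G.vt x v
  · have h1 : G.vt x (G.r v) := G.vt_r.2 hx
    have h2 : G.vt x (G.r (G.r v)) := G.vt_r.2 h1
    rw [fr_pos hx, fr_pos h2, G.r3, fr_pos h1, G.r3]
  · have h1 : ¬ G.vt x (G.r v) := fun h' => hx (G.vt_r.1 h')
    have h2 : ¬ G.vt x (G.r (G.r v)) := fun h' => h1 (G.vt_r.1 h')
    rw [fr_neg hx, fr_neg h1, fr_neg h2, G.r3]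

/-- Permutations of order three. -/
def perm3 {α : Type} (f : α → α) (h3 : ∀ h, f (f (f h)) = h) : Equiv.Perm α where
  toFun := f
  invFun h := f (f h)
  left_inv h := h3 h
  right_inv h := h3 h

theorem perm3_apply {α : Type} (f : α → α) (h3 : ∀ h, f (f (f h)) = h) (v : α) :
    perm3 f h3 v = f v := rfl

/-- Reversal of the cyclic order at the vertex of `x` (nothing happens if `x` is a leg). -/
noncomputable def flip (G : Gr V n) (x : V) : Gr V n :=
  G.withR (perm3 (G.fr x) (G.fr3 x)) (G.fr3 x) fun v => by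
    rw [perm3_apply]
    by_cases hx : G.vt x v
    · rw [fr_pos hx]
      constructor
      · exact G.r2
      · intro h
        rw [h, h]
    · rw [fr_neg hx]

theorem flip_e (G : Gr V n) (x : V) : (G.flip x).e = G.e := rfl

theorem flip_leg (G : Gr V n) (x : V) : (G.flip x).leg = G.leg := rfl

theorem flip_r (G : Gr V n) (x v : V) : (G.flip x).r v = G.fr x v := rfl

theorem smul_flip (g : Equiv.Perm (Fin n)) (G : Gr V n) (x : V) :
    g • G.flip x = (g • G).flip x := rfl

/-! ### The relation IHX -/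

/-- The edge of `x` joins two different trivalent vertices. -/
structure Ok (G : Gr V n) (x : V) : Prop where
  ix : G.r x ≠ x
  iy : G.r (G.e x) ≠ G.e x
  ya : G.e x ≠ G.r x
  yb : G.e x ≠ G.r (G.r x)

/-- The three diagrams of IHX: with the cyclic orders `(x, a, b)`, `(y, c, d)` at the two ends of
the edge `{x, y}` in `I`, the cyclic orders are `(x, b, c)`, `(y, d, a)` in `J` and `(x, a, c)`,
`(y, d, b)` in `X`; everything else is the same. -/
structure Loc (I J X : Gr V n) (x : V) : Prop where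
  ok : Ok I x
  j1 : J.r x = I.r (I.r x)
  j2 : J.r (I.r (I.r x)) = I.r (I.e x)
  j3 : J.r (I.r (I.e x)) = x
  j4 : J.r (I.e x) = I.r (I.r (I.e x))
  j5 : J.r (I.r (I.r (I.e x))) = I.r x
  j6 : J.r (I.r x) = I.e x
  x1 : X.r x = I.r x
  x2 : X.r (I.r x) = I.r (I.e x)
  x3 : X.r (I.r (I.e x)) = x
  x4 : X.r (I.e x) = I.r (I.r (I.e x))
  x5 : X.r (I.r (I.r (I.e x))) = I.r (I.r x)
  x6 : X.r (I.r (I.r x)) = I.e x
  oth : ∀ v, ¬ I.vt x v → ¬ I.vt (I.e x) v → J.r v = I.r v ∧ X.r v = I.r v
  eJ : J.e = I.e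
  eX : X.e = I.e
  lJ : J.leg = I.leg
  lX : X.leg = I.leg

theorem Loc.smul {I J X : Gr V n} {x : V} (h : Loc I J X x) (g : Equiv.Perm (Fin n)) :
    Loc (g • I) (g • J) (g • X) x where
  ok := ⟨h.ok.ix, h.ok.iy, h.ok.ya, h.ok.yb⟩
  j1 := h.j1
  j2 := h.j2
  j3 := h.j3
  j4 := h.j4
  j5 := h.j5
  j6 := h.j6
  x1 := h.x1
  x2 := h.x2
  x3 := h.x3
  x4 := h.x4
  x5 := h.x5
  x6 := h.x6
  oth := h.oth
  eJ := h.eJ
  eX := h.eX
  lJ := by
    funext i
    rw [smul_leg, smul_leg, h.lJ]
  lX := by
    funext i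
    rw [smul_leg, smul_leg, h.lX]

end Gr

end Pool.Agent.SWT80
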