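import Mathlib
import Pool.Agent.SWT80.Gr

/-!
# Merging two adjacent legs, and attaching the end of a leg to an edge
-/

set_option autoImplicit false

namespace Pool.Agent.SWT80

open Pool.Agent.SWT49

namespace Gr

variable {V W : Type} {n : ℕ}

/-! ### The new half-edges: `x = inr false` at the new vertex, `y = inr true` the new leg -/

/-- The edges with one new edge `{inr false, inr true}`. -/
def mgE (G : Gr V n) : V ⊕ Bool → V ⊕ Bool
  | Sum.inl v => Sum.inl (G.e v)
  | Sum.inr t => Sum.inr (!t)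

open Classical in
/-- The vertices after the merging of the legs `p`, `q`: the new vertex is `(x, q, p)`. -/
noncomputable def mgR (G : Gr V n) (p q : V) : V ⊕ Bool → V ⊕ Bool
  | Sum.inl v => if v = p then Sum.inr false else if v = q then Sum.inl p else Sum.inl (G.r v)
  | Sum.inr false => Sum.inl q
  | Sum.inr true => Sum.inr true

section

variable (G : Gr V n) {p q v : V}

theorem mgR_p : G.mgR p q (Sum.inl p) = Sum.inr false := if_pos rfl

theorem mgR_q (h : p ≠ q) : G.mgR p q (Sum.inl q) = Sum.inl p :=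
  (if_neg h.symm).trans (if_pos rfl)

theorem mgR_o (hp : v ≠ p) (hq : v ≠ q) : G.mgR p q (Sum.inl v) = Sum.inl (G.r v) :=
  (if_neg hp).trans (if_neg hq)

theorem mgR_x : G.mgR p q (Sum.inr false) = Sum.inl q := rfl

theorem mgR_y : G.mgR p q (Sum.inr true) = Sum.inr true := rfl

theorem r_ne (hp : G.r p = p) (h : v ≠ p) : G.r v ≠ p := fun h' =>
  h (G.r_inj (h'.trans hp.symm))

theorem mgR3 (h : p ≠ q) (hp : G.r p = p) (hq : G.r q = q) (w : V ⊕ Bool) :
    G.mgR p q (G.mgR p q (G.mgR p q w)) = w := by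
  rcases w with v | t
  · by_cases h1 : v = p
    · subst h1
      rw [mgR_p, mgR_x, mgR_q G h]
    by_cases h2 : v = q
    · subst h2
      rw [mgR_q G h, mgR_p, mgR_x]
    rw [mgR_o G h1 h2, mgR_o G (G.r_ne hp h1) (G.r_ne hq h2),
      mgR_o G (G.r_ne hp (G.r_ne hp h1)) (G.r_ne hq (G.r_ne hq h2)), G.r3]
  · cases t
    · rw [mgR_x, mgR_q G h, mgR_p]
    · rfl

theorem mgR_fix (h : p ≠ q) (w : V ⊕ Bool) :
    G.mgR p q w = w ↔ w = Sum.inr true ∨ ∃ v, w = Sum.inl v ∧ v ≠ p ∧ v ≠ q ∧ G.r v = v := by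
  rcases w with v | t
  · by_cases h1 : v = p
    · subst h1
      rw [mgR_p]
      constructor
      · intro h2
        cases h2
      · rintro (h2 | ⟨u, h2, h3, _⟩)
        · cases h2
        · exact absurd (Sum.inl.inj h2).symm h3
    by_cases h2 : v = q
    · subst h2
      rw [mgR_q G h]
      constructor
      · intro h3
        exact absurd (Sum.inl.inj h3) h
      · rintro (h3 | ⟨u, h3, _, h4, _⟩)
        · cases h3
        · exact absurd (Sum.inl.inj h3).symm h4
    rw [mgR_o G h1 h2]
    constructor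
    · intro h3
      exact Or.inr ⟨v, rfl, h1, h2, Sum.inl.inj h3⟩
    · rintro (h3 | ⟨u, h3, _, _, h4⟩)
      · cases h3
      · rw [Sum.inl.inj h3, h4]
  · cases t
    · rw [mgR_x]
      constructor
      · intro h3
        cases h3
      · rintro (h3 | ⟨u, h3, _⟩)
        · cases h3
        · cases h3
    · exact ⟨fun _ => Or.inl rfl, fun _ => rfl⟩

end

/-- The legs after the merging of the legs `i` and `i + 1`. -/
def mgL (G : Gr V (n + 1)) (i k : Fin n) : V ⊕ Bool :=
  if k < i then Sum.inl (G.leg k.castSucc) else if k = i then Sum.inr true else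
    Sum.inl (G.leg k.succ)

theorem mgL_lt (G : Gr V (n + 1)) {i k : Fin n} (h : k < i) :
    G.mgL i k = Sum.inl (G.leg k.castSucc) := if_pos h

theorem mgL_self (G : Gr V (n + 1)) (i : Fin n) : G.mgL i i = Sum.inr true := by
  unfold mgL
  rw [if_neg (lt_irrefl i), if_pos rfl]

theorem mgL_gt (G : Gr V (n + 1)) {i k : Fin n} (h : i < k) :
    G.mgL i k = Sum.inl (G.leg k.succ) := by
  unfold mgL
  rw [if_neg (not_lt.2 h.le), if_neg h.ne']

theorem cs_ne (i : Fin n) : i.castSucc ≠ i.succ := by
  intro h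
  have := congrArg Fin.val h
  simp at this

theorem mgL_inj (G : Gr V (n + 1)) (i : Fin n) : Function.Injective (G.mgL i) := by
  intro k l h
  rcases lt_trichotomy k i with h1 | h1 | h1 <;> rcases lt_trichotomy l i with h2 | h2 | h2
  · rw [G.mgL_lt h1, G.mgL_lt h2] at h
    exact Fin.castSucc_injective _ (G.inj (Sum.inl.inj h))
  · rw [G.mgL_lt h1, h2, G.mgL_self] at h
    cases h
  · rw [G.mgL_lt h1, G.mgL_gt h2] at h
    have h3 := congrArg Fin.val (G.inj (Sum.inl.inj h))
    simp only [Fin.val_castSucc, Fin.val_succ] at h3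
    rw [Fin.lt_def] at h1 h2
    omega
  · rw [h1, G.mgL_self, G.mgL_lt h2] at h
    cases h
  · rw [h1, h2]
  · rw [h1, G.mgL_self, G.mgL_gt h2] at h
    cases h
  · rw [G.mgL_gt h1, G.mgL_lt h2] at h
    have h3 := congrArg Fin.val (G.inj (Sum.inl.inj h))
    simp only [Fin.val_castSucc, Fin.val_succ] at h3
    rw [Fin.lt_def] at h1 h2
    omega
  · rw [G.mgL_gt h1, h2, G.mgL_self] at h
    cases h
  · rw [G.mgL_gt h1, G.mgL_gt h2] at h
    exact Fin.succ_injective _ (G.inj (Sum.inl.inj h))

theorem mgL_range (G : Gr V (n + 1)) (i : Fin n) (w : V ⊕ Bool) :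
    (∃ k, G.mgL i k = w) ↔ w = Sum.inr true ∨ ∃ j, j ≠ i.castSucc ∧ j ≠ i.succ ∧
      Sum.inl (G.leg j) = w := by
  constructor
  · rintro ⟨k, rfl⟩
    rcases lt_trichotomy k i with h | h | h
    · rw [G.mgL_lt h]
      refine Or.inr ⟨k.castSucc, ?_, ?_, rfl⟩ <;> intro h' <;>
        simp only [Fin.ext_iff, Fin.val_castSucc, Fin.val_succ, Fin.lt_def] at h h' <;> omega
    · rw [h, G.mgL_self]
      exact Or.inl rfl
    · rw [G.mgL_gt h]
      refine Or.inr ⟨k.succ, ?_, ?_, rfl⟩ <;> intro h' <;>
        simp only [Fin.ext_iff, Fin.val_castSucc, Fin.val_succ, Fin.lt_def] at h h' <;> omega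
  · rintro (rfl | ⟨j, h1, h2, rfl⟩)
    · exact ⟨i, G.mgL_self i⟩
    · rcases lt_trichotomy j i.castSucc with h | h | h
      · have hj : j.val < n := by
          have := i.2
          rw [Fin.lt_def, Fin.val_castSucc] at h
          omega
        refine ⟨⟨j.val, hj⟩, ?_⟩
        rw [G.mgL_lt (by rw [Fin.lt_def] at h ⊢; simpa using h)]
        rfl
      · exact absurd h h1
      · have hj : j.val - 1 < n := by
          have := j.2
          rw [Fin.lt_def, Fin.val_castSucc] at h
          omega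
        have hj2 : i.val + 1 < j.val := by
          rw [Fin.lt_def, Fin.val_castSucc] at h
          have h3 : j.val ≠ i.val + 1 := fun h4 => h2 (Fin.ext (by simpa using h4))
          omega
        refine ⟨⟨j.val - 1, hj⟩, ?_⟩
        rw [G.mgL_gt (by rw [Fin.lt_def]; show i.val < j.val - 1; omega)]
        congr 2
        apply Fin.ext
        rw [Fin.val_succ]
        show j.val - 1 + 1 = j.val
        omega

/-- Merging of the legs `p = leg i` and `q = leg (i + 1)`: they end at the new vertex `(x, q, p)`,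
and the new leg `y`, at the position `i`, is joined to `x`. -/
noncomputable def mg (G : Gr V (n + 1)) (i : Fin n) : Gr (V ⊕ Bool) n where
  e := ⟨G.mgE, G.mgE, fun w => by rcases w with v | t <;> simp [mgE, G.e2],
    fun w => by rcases w with v | t <;> simp [mgE, G.e2]⟩
  r := perm3 (G.mgR (G.leg i.castSucc) (G.leg i.succ))
    (G.mgR3 (G.leg_ne (cs_ne i)) (G.r_leg _) (G.r_leg _))
  leg := G.mgL i
  e2 w := by rcases w with v | t <;> simp [mgE, G.e2]
  e1 w := by rcases w with v | t <;> simp [mgE, G.e1]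
  r3 := G.mgR3 (G.leg_ne (cs_ne i)) (G.r_leg _) (G.r_leg _)
  inj := G.mgL_inj i
  fix w := by
    rw [perm3_apply, G.mgR_fix (G.leg_ne (cs_ne i)), G.mgL_range]
    constructor
    · rintro (h | ⟨v, rfl, h1, h2, h3⟩)
      · exact Or.inl h
      · obtain ⟨j, rfl⟩ := (G.fix v).1 h3
        exact Or.inr ⟨j, fun h => h1 (h ▸ rfl), fun h => h2 (h ▸ rfl), rfl⟩
    · rintro (h | ⟨j, h1, h2, rfl⟩)
      · exact Or.inl h
      · exact Or.inr ⟨_, rfl, G.leg_ne h1, G.leg_ne h2, G.r_leg j⟩

section

variable (G : Gr V (n + 1)) (i : Fin n)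

theorem mg_e_inl (v : V) : (G.mg i).e (Sum.inl v) = Sum.inl (G.e v) := rfl

theorem mg_e_inr (t : Bool) : (G.mg i).e (Sum.inr t) = Sum.inr (!t) := rfl

theorem mg_r (w : V ⊕ Bool) :
    (G.mg i).r w = G.mgR (G.leg i.castSucc) (G.leg i.succ) w := rfl

theorem mg_r_p : (G.mg i).r (Sum.inl (G.leg i.castSucc)) = Sum.inr false := G.mgR_p

theorem mg_r_q : (G.mg i).r (Sum.inl (G.leg i.succ)) = Sum.inl (G.leg i.castSucc) :=
  G.mgR_q (G.leg_ne (cs_ne i))

theorem mg_r_o {v : V} (hp : v ≠ G.leg i.castSucc) (hq : v ≠ G.leg i.succ) :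
    (G.mg i).r (Sum.inl v) = Sum.inl (G.r v) := G.mgR_o hp hq

theorem mg_r_x : (G.mg i).r (Sum.inr false) = Sum.inl (G.leg i.succ) := rfl

theorem mg_r_y : (G.mg i).r (Sum.inr true) = Sum.inr true := rfl

theorem mg_leg (k : Fin n) : (G.mg i).leg k = G.mgL i k := rfl

end

/-! ### Attaching the end of a leg to an arbitrary edge -/

open Classical in
/-- The edges after the subdivision of the edge of `h`: `h` is joined to `x = inr false` and `e h`
to `y = inr true`. -/
noncomputable def insE (G : Gr V n) (h : V) : V ⊕ Bool → V ⊕ Bool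
  | Sum.inl v => if v = h then Sum.inr false else if v = G.e h then Sum.inr true else
      Sum.inl (G.e v)
  | Sum.inr false => Sum.inl h
  | Sum.inr true => Sum.inl (G.e h)

open Classical in
/-- The vertices: the end `p` of a leg is put between `x` and `y`: the new vertex is `(x, y, p)`. -/
noncomputable def insR (G : Gr V n) (p : V) : V ⊕ Bool → V ⊕ Bool
  | Sum.inl v => if v = p then Sum.inr false else Sum.inl (G.r v)
  | Sum.inr false => Sum.inr true
  | Sum.inr true => Sum.inl p

section

variable (G : Gr V n) {p h v : V}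

theorem insE_h : G.insE h (Sum.inl h) = Sum.inr false := if_pos rfl

theorem insE_eh : G.insE h (Sum.inl (G.e h)) = Sum.inr true :=
  (if_neg (G.e1 h)).trans (if_pos rfl)

theorem insE_o (h1 : v ≠ h) (h2 : v ≠ G.e h) : G.insE h (Sum.inl v) = Sum.inl (G.e v) :=
  (if_neg h1).trans (if_neg h2)

theorem insE_x : G.insE h (Sum.inr false) = Sum.inl h := rfl

theorem insE_y : G.insE h (Sum.inr true) = Sum.inl (G.e h) := rfl

theorem insE2 (w : V ⊕ Bool) : G.insE h (G.insE h w) = w := by
  rcases w with v | t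
  · by_cases h1 : v = h
    · subst h1
      rw [insE_h, insE_x]
    by_cases h2 : v = G.e h
    · subst h2
      rw [insE_eh, insE_y]
    rw [insE_o G h1 h2, insE_o G, G.e2]
    · intro h3
      apply h2
      rw [← h3, G.e2]
    · intro h3
      exact h1 (G.e_inj h3)
  · cases t
    · rw [insE_x, insE_h]
    · rw [insE_y, insE_eh]

theorem insE1 (w : V ⊕ Bool) : G.insE h w ≠ w := by
  rcases w with v | t
  · by_cases h1 : v = h
    · subst h1
      rw [insE_h]
      exact Sum.inr_ne_inl
    by_cases h2 : v = G.e h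
    · subst h2
      rw [insE_eh]
      exact Sum.inr_ne_inl
    rw [insE_o G h1 h2]
    intro h3
    exact G.e1 v (Sum.inl.inj h3)
  · cases t
    · rw [insE_x]
      exact Sum.inl_ne_inr
    · rw [insE_y]
      exact Sum.inl_ne_inr

theorem insR_p : G.insR p (Sum.inl p) = Sum.inr false := if_pos rfl

theorem insR_o (h1 : v ≠ p) : G.insR p (Sum.inl v) = Sum.inl (G.r v) := if_neg h1

theorem insR_x : G.insR p (Sum.inr false) = Sum.inr true := rfl

theorem insR_y : G.insR p (Sum.inr true) = Sum.inl p := rfl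

theorem insR3 (hp : G.r p = p) (w : V ⊕ Bool) : G.insR p (G.insR p (G.insR p w)) = w := by
  rcases w with v | t
  · by_cases h1 : v = p
    · subst h1
      rw [insR_p, insR_x, insR_y]
    rw [insR_o G h1, insR_o G (G.r_ne hp h1), insR_o G (G.r_ne hp (G.r_ne hp h1)), G.r3]
  · cases t
    · rw [insR_x, insR_y, insR_p]
    · rw [insR_y, insR_p, insR_x]

theorem insR_fix (w : V ⊕ Bool) :
    G.insR p w = w ↔ ∃ v, w = Sum.inl v ∧ v ≠ p ∧ G.r v = v := by
  rcases w with v | t
  · by_cases h1 : v = p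
    · subst h1
      rw [insR_p]
      constructor
      · intro h2
        cases h2
      · rintro ⟨u, h2, h3, _⟩
        exact absurd (Sum.inl.inj h2).symm h3
    rw [insR_o G h1]
    constructor
    · intro h3
      exact ⟨v, rfl, h1, Sum.inl.inj h3⟩
    · rintro ⟨u, h3, _, h4⟩
      rw [Sum.inl.inj h3, h4]
  · cases t
    · rw [insR_x]
      constructor
      · intro h3
        cases h3
      · rintro ⟨u, h3, _⟩
        cases h3
    · rw [insR_y]
      constructor
      · intro h3
        cases h3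
      · rintro ⟨u, h3, _⟩
        cases h3

end

/-- The end of the leg `i` is put on the edge of the half-edge `h`; the other legs keep their
order. -/
noncomputable def ins (G : Gr V (n + 1)) (i : Fin (n + 1)) (h : V) : Gr (V ⊕ Bool) n where
  e := ⟨G.insE h, G.insE h, G.insE2, G.insE2⟩
  r := perm3 (G.insR (G.leg i)) (G.insR3 (G.r_leg i))
  leg := fun k => Sum.inl (G.leg (i.succAbove k))
  e2 := G.insE2
  e1 := G.insE1
  r3 := G.insR3 (G.r_leg i)
  inj := fun k l h => Fin.succAbove_right_injective (G.inj (Sum.inl.inj h))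
  fix w := by
    rw [perm3_apply, insR_fix]
    constructor
    · rintro ⟨v, rfl, h1, h2⟩
      obtain ⟨j, rfl⟩ := (G.fix v).1 h2
      have h3 : j ≠ i := fun h => h1 (h ▸ rfl)
      obtain ⟨k, rfl⟩ := Fin.exists_succAbove_eq h3
      exact ⟨k, rfl⟩
    · rintro ⟨k, rfl⟩
      exact ⟨_, rfl, G.leg_ne (Fin.succAbove_ne i k), G.r_leg _⟩

section

variable (G : Gr V (n + 1)) (i : Fin (n + 1)) (h : V)

theorem ins_e (w : V ⊕ Bool) : (G.ins i h).e w = G.insE h w := rfl

theorem ins_r (w : V ⊕ Bool) : (G.ins i h).r w = G.insR (G.leg i) w := rfl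

theorem ins_leg (k : Fin n) : (G.ins i h).leg k = Sum.inl (G.leg (i.succAbove k)) := rfl

end

end Gr

/-! ### Functionals -/

/-- Functionals on the based graphs with `n` legs which satisfy AS and IHX and are invariant under
isomorphisms. -/
structure Rel {M : Type} [AddCommGroup M] {n : ℕ} (F : (V : Type) → Gr V n → M) : Prop where
  iso : ∀ (V W : Type) [Finite V] (φ : V ≃ W) (G : Gr V n), F W (G.map φ) = F V G
  as : ∀ (V : Type) [Finite V] (G : Gr V n) (x : V), G.r x ≠ x → F V (G.flip x) = - F V G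
  ihx : ∀ (V : Type) [Finite V] (I J X : Gr V n) (x : V), Gr.Loc I J X x →
    F V I = F V J - F V X

/-- The relation STU between the functional `F` on the graphs with `n + 1` legs and the functional
`F'` on the graphs with `n` legs. -/
def Stu {M : Type} [AddCommGroup M] {n : ℕ} (F : (V : Type) → Gr V (n + 1) → M)
    (F' : (V : Type) → Gr V n → M) : Prop :=
  ∀ (V : Type) [Finite V] (G : Gr V (n + 1)) (i : Fin n),
    F V G - F V (s i • G) = F' (V ⊕ Bool) (G.mg i)

end Pool.Agent.SWT80
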