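import Mathlib
import Pool.Agent.Jac70.Basic
import Pool.Agent.SWT80.Gr

/-!
# The based graph of a Jacobi diagram on the circle with a base point
-/

set_option autoImplicit false

namespace Pool.Agent.SWT80

open Pool.Agent.Jac70 (JD)

variable {H : Type} [DecidableEq H]

instance decOnC (D : JD H) (h : H) : Decidable (D.onC h) := by
  unfold JD.onC
  infer_instance

instance decInner (D : JD H) (h : H) : Decidable (D.inner h) := by
  unfold JD.inner
  infer_instance

theorem onC_e (D : JD H) {h : H} : D.onC (D.e h) ↔ D.onC h := by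
  unfold JD.onC
  rw [D.e2, or_comm]

/-! ### The walk along the circle -/

/-- The next incoming half-arc. -/
def nx (D : JD H) (u : H) : H := D.e (D.r u)

/-- The incoming half-arc after `k` steps. -/
def it (D : JD H) (u : H) (k : ℕ) : H := (nx D)^[k] u

theorem it_zero (D : JD H) (u : H) : it D u 0 = u := rfl

theorem it_succ (D : JD H) (u : H) (k : ℕ) : it D u (k + 1) = nx D (it D u k) :=
  Function.iterate_succ_apply' _ _ _

theorem it_succ' (D : JD H) (u : H) (k : ℕ) : it D u (k + 1) = it D (nx D u) k :=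
  Function.iterate_succ_apply _ _ _

theorem nx_inj (D : JD H) : Function.Injective (nx D) := fun _ _ h => D.r_inj (D.e_inj h)

theorem nx_mem (D : JD H) {u : H} (hu : u ∈ D.K) : nx D u ∈ D.K := D.out u hu

theorem it_mem (D : JD H) {u : H} (hu : u ∈ D.K) (k : ℕ) : it D u k ∈ D.K := by
  induction k with
  | zero => exact hu
  | succ k ih =>
    rw [it_succ]
    exact nx_mem D ih

theorem period (D : JD H) {u : H} (hu : u ∈ D.K) :
    Function.minimalPeriod (nx D) u = D.K.card ∧ 0 < D.K.card ∧
      ∀ v ∈ D.K, ∃ k < D.K.card, it D u k = v := by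
  have h0 : 0 < D.K.card := Finset.card_pos.2 ⟨u, hu⟩
  have hper : u ∈ Function.periodicPts (nx D) := by
    obtain ⟨k, l, hkl, h⟩ : ∃ k l : Fin (D.K.card + 1), k ≠ l ∧
        (⟨it D u k, it_mem D hu k⟩ : D.K) = ⟨it D u l, it_mem D hu l⟩ :=
      Fintype.exists_ne_map_eq_of_card_lt
        (fun k : Fin (D.K.card + 1) => (⟨it D u k, it_mem D hu k⟩ : D.K)) (by simp)
    have h' : it D u k = it D u l := congrArg Subtype.val h
    have key : ∀ a b : ℕ, a < b → it D u a = it D u b → u ∈ Function.periodicPts (nx D) := by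
      intro a b hab hh
      refine Function.mk_mem_periodicPts (n := b - a) (by omega) ?_
      have h1 : b = a + (b - a) := by omega
      have h2 : (nx D)^[b] u = (nx D)^[a] ((nx D)^[b - a] u) := by
        rw [← Function.iterate_add_apply, ← h1]
      unfold it at hh
      rw [h2] at hh
      exact ((nx_inj D).iterate a hh).symm
    rcases lt_or_gt_of_ne (fun h => hkl (Fin.ext h) : k.val ≠ l.val) with h1 | h1
    · exact key _ _ h1 h'
    · exact key _ _ h1 h'.symm
  have hp := Function.minimalPeriod_pos_of_mem_periodicPts hper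
  have hcov : ∀ v ∈ D.K, ∃ k < Function.minimalPeriod (nx D) u, it D u k = v := by
    refine D.cyc {v | ∃ k < Function.minimalPeriod (nx D) u, it D u k = v} ?_ ?_
    · exact ⟨u, hu, 0, hp, rfl⟩
    · rintro v hv ⟨k, hk, rfl⟩
      show ∃ l < Function.minimalPeriod (nx D) u, it D u l = nx D (it D u k)
      rcases lt_or_eq_of_le (Nat.succ_le_of_lt hk) with h1 | h1
      · exact ⟨k + 1, h1, it_succ D u k⟩
      · refine ⟨0, hp, ?_⟩
        rw [← it_succ]
        have h2 : k + 1 = Function.minimalPeriod (nx D) u := h1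
        rw [h2]
        exact Function.iterate_minimalPeriod.symm
  have himg : D.K = (Finset.range (Function.minimalPeriod (nx D) u)).image (it D u) := by
    ext v
    rw [Finset.mem_image]
    constructor
    · intro hv
      obtain ⟨k, hk, h⟩ := hcov v hv
      exact ⟨k, Finset.mem_range.2 hk, h⟩
    · rintro ⟨k, _, rfl⟩
      exact it_mem D hu k
  have hcard : Function.minimalPeriod (nx D) u = D.K.card := by
    conv_rhs => rw [himg]
    rw [Finset.card_image_of_injOn, Finset.card_range]
    intro k hk l hl h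
    exact Function.iterate_injOn_Iio_minimalPeriod
      (Set.mem_Iio.2 (Finset.mem_range.1 (Finset.mem_coe.1 hk)))
      (Set.mem_Iio.2 (Finset.mem_range.1 (Finset.mem_coe.1 hl))) h
  refine ⟨hcard, h0, ?_⟩
  rw [← hcard]
  exact hcov

variable {n : ℕ}

theorem it_inj (D : JD H) {u : H} (hu : u ∈ D.K) {k l : ℕ} (hk : k < D.K.card)
    (hl : l < D.K.card) (h : it D u k = it D u l) : k = l := by
  rw [← (period D hu).1] at hk hl
  exact Function.iterate_injOn_Iio_minimalPeriod (Set.mem_Iio.2 hk) (Set.mem_Iio.2 hl) h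

theorem it_card (D : JD H) {u : H} (hu : u ∈ D.K) : it D u D.K.card = u := by
  rw [← (period D hu).1]
  exact Function.iterate_minimalPeriod

/-! ### The graph -/

/-- The leg at the vertex which is entered through `u`. -/
def slot (D : JD H) (u : H) : H := D.r (D.r u)

theorem slot_onC (D : JD H) {u : H} (hu : u ∈ D.K) : ¬ D.onC (slot D u) := fun h =>
  h.elim (D.leg u hu).1 (D.leg u hu).2

theorem slot_not_inner (D : JD H) {u : H} (hu : u ∈ D.K) : ¬ D.inner (slot D u) :=
  D.not_inner_iff.2 ⟨u, hu, Or.inr (Or.inr rfl)⟩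

theorem slot_inj (D : JD H) {u v : H} (h : slot D u = slot D v) : u = v := D.r_inj (D.r_inj h)

theorem exists_slot (D : JD H) {h : H} (h1 : ¬ D.onC h) (h2 : ¬ D.inner h) :
    ∃ u ∈ D.K, h = slot D u := by
  obtain ⟨u, hu, h3 | h3 | h3⟩ := D.not_inner_iff.1 h2
  · exact absurd (Or.inl (h3 ▸ hu)) h1
  · exact absurd (Or.inr (h3 ▸ D.out u hu)) h1
  · exact ⟨u, hu, h3⟩

/-- The half-edges of the graph without the circle. -/
abbrev Vt (D : JD H) : Type := {h : H // ¬ D.onC h}

/-- The cyclic orders at the vertices of the graph without the circle. -/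
def rdR (D : JD H) (v : Vt D) : Vt D := if h : D.inner v.1 then ⟨D.r v.1, h.2.1⟩ else v

theorem rdR_pos (D : JD H) {v : Vt D} (h : D.inner v.1) : rdR D v = ⟨D.r v.1, h.2.1⟩ := dif_pos h

theorem rdR_neg (D : JD H) {v : Vt D} (h : ¬ D.inner v.1) : rdR D v = v := dif_neg h

theorem rdR3 (D : JD H) (v : Vt D) : rdR D (rdR D (rdR D v)) = v := by
  by_cases h : D.inner v.1
  · have h1 : D.inner (⟨D.r v.1, h.2.1⟩ : Vt D).1 := D.inner_r h
    have h2 : D.inner (⟨D.r (D.r v.1), h1.2.1⟩ : Vt D).1 := D.inner_r h1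
    rw [rdR_pos D h, rdR_pos D h1, rdR_pos D h2]
    exact Subtype.ext (D.r3 v.1)
  · rw [rdR_neg D h, rdR_neg D h, rdR_neg D h]

/-- The based graph of the diagram `D` with the base point `u`: the legs are ordered along the
circle, starting at the vertex which is entered through `u`. -/
def rd (D : JD H) (u : H) (n : ℕ) (hu : u ∈ D.K) (hn : D.K.card = n) : Gr (Vt D) n where
  e := ⟨fun v => ⟨D.e v.1, fun h => v.2 ((onC_e D).1 h)⟩,
    fun v => ⟨D.e v.1, fun h => v.2 ((onC_e D).1 h)⟩,
    fun v => Subtype.ext (D.e2 v.1), fun v => Subtype.ext (D.e2 v.1)⟩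
  r := Gr.perm3 (rdR D) (rdR3 D)
  leg := fun k => ⟨slot D (it D u k), slot_onC D (it_mem D hu k)⟩
  e2 v := Subtype.ext (D.e2 v.1)
  e1 v h := D.e1 v.1 (congrArg Subtype.val h)
  r3 := rdR3 D
  inj k l h := by
    have h1 := slot_inj D (congrArg Subtype.val h)
    have hk := k.2
    have hl := l.2
    exact Fin.ext (it_inj D hu (by omega) (by omega) h1)
  fix v := by
    show rdR D v = v ↔ _
    constructor
    · intro h
      have h1 : ¬ D.inner v.1 := fun h' => by
        rw [rdR_pos D h'] at h
        exact D.r1 v.1 (congrArg Subtype.val h)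
      obtain ⟨w, hw, h2⟩ := exists_slot D v.2 h1
      obtain ⟨k, hk, h3⟩ := (period D hu).2.2 w hw
      refine ⟨⟨k, by omega⟩, Subtype.ext ?_⟩
      show slot D (it D u k) = v.1
      rw [h3, h2]
    · rintro ⟨k, rfl⟩
      exact rdR_neg D (slot_not_inner D (it_mem D hu k))

section

variable (D : JD H) {u : H} (hu : u ∈ D.K) (hn : D.K.card = n)

theorem rd_e (v : Vt D) : ((rd D u n hu hn).e v).1 = D.e v.1 := rfl

theorem rd_r (v : Vt D) : (rd D u n hu hn).r v = rdR D v := rfl

theorem rd_r_in {v : Vt D} (h : D.inner v.1) : ((rd D u n hu hn).r v).1 = D.r v.1 :=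
  congrArg Subtype.val (rdR_pos D h)

theorem rd_r_out {v : Vt D} (h : ¬ D.inner v.1) : (rd D u n hu hn).r v = v := rdR_neg D h

theorem rd_leg (k : Fin n) : ((rd D u n hu hn).leg k).1 = slot D (it D u k) := rfl

end

/-! ### Another base point -/

theorem rd_nx (D : JD H) {u : H} (hu : u ∈ D.K) {m : ℕ} (hn : D.K.card = m + 1) :
    finRotate (m + 1) • rd D (nx D u) (m + 1) (nx_mem D hu) hn = rd D u (m + 1) hu hn := by
  refine Gr.ext rfl rfl (funext fun k => ?_)
  obtain ⟨l, rfl⟩ := (finRotate (m + 1)).surjective k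
  rw [Gr.smul_leg, show (finRotate (m + 1))⁻¹ (finRotate (m + 1) l) = l from
    Equiv.symm_apply_apply _ _]
  apply Subtype.ext
  show slot D (it D (nx D u) l) = slot D (it D u (finRotate (m + 1) l))
  rw [← it_succ']
  congr 1
  by_cases h : l = Fin.last m
  · rw [h, finRotate_last]
    show it D u (m + 1) = u
    rw [← hn]
    exact it_card D hu
  · rw [coe_finRotate_of_ne_last h]

end Pool.Agent.SWT80
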