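import Mathlib
import Pool.Agent.SWT80.Walk

/-!
# Isomorphisms, reversals and the relation IHX for the based graph of a Jacobi diagram
-/

set_option autoImplicit false

namespace Pool.Agent.SWT80

open Pool.Agent.Jac70 (JD)

variable {H : Type} [DecidableEq H] {n : ℕ}

theorem it_congr {D D' : JD H} {u : H} (hu : u ∈ D.K) (h : ∀ v ∈ D.K, nx D' v = nx D v) (k : ℕ) :
    it D' u k = it D u k := by
  induction k with
  | zero => rfl
  | succ k ih => rw [it_succ, it_succ, ih, h _ (it_mem D hu k)]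

/-! ### Isomorphisms -/

section Iso

variable {D D' : JD H} {g : Equiv.Perm H} (he : ∀ h, D'.e (g h) = g (D.e h))
  (hr : ∀ h, D'.r (g h) = g (D.r h)) (hK : ∀ h, g h ∈ D'.K ↔ h ∈ D.K)

include he hK in
theorem iso_onC (h : H) : D'.onC (g h) ↔ D.onC h := by
  unfold JD.onC
  rw [he, hK, hK]

include he hr hK in
theorem iso_inner (h : H) : D'.inner (g h) ↔ D.inner h := by
  unfold JD.inner
  rw [hr, hr, iso_onC he hK, iso_onC he hK, iso_onC he hK]

include he hr in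
theorem iso_it (u : H) (k : ℕ) : it D' (g u) k = g (it D u k) := by
  induction k with
  | zero => rfl
  | succ k ih =>
    rw [it_succ, it_succ, ih]
    unfold nx
    rw [hr, he]

include hK in
theorem iso_card : D'.K.card = D.K.card := by
  have : D'.K = D.K.map g.toEmbedding := by
    ext v
    obtain ⟨u, rfl⟩ := g.surjective v
    rw [hK]
    simp
  rw [this, Finset.card_map]

/-- The renaming of the half-edges of the graph. -/
def isoV (he : ∀ h, D'.e (g h) = g (D.e h)) (hK : ∀ h, g h ∈ D'.K ↔ h ∈ D.K) : Vt D ≃ Vt D' :=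
  g.subtypeEquiv fun h => not_congr (iso_onC he hK h).symm

include hr in
theorem rd_iso {u : H} (hu : u ∈ D.K) (hn : D.K.card = n) (hu' : g u ∈ D'.K)
    (hn' : D'.K.card = n) :
    (rd D u n hu hn).map (isoV he hK) = rd D' (g u) n hu' hn' := by
  refine Gr.map_eq (fun v => Subtype.ext (he v.1)) (fun v => ?_) (fun k => Subtype.ext ?_)
  · show rdR D' _ = isoV he hK (rdR D v)
    by_cases h : D.inner v.1
    · have h' : D'.inner (isoV he hK v).1 := (iso_inner he hr hK v.1).2 h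
      rw [rdR_pos D h, rdR_pos D' h']
      exact Subtype.ext (hr v.1)
    · have h' : ¬ D'.inner (isoV he hK v).1 := fun h1 => h ((iso_inner he hr hK v.1).1 h1)
      rw [rdR_neg D h, rdR_neg D' h']
  · show slot D' (it D' (g u) k) = g (slot D (it D u k))
    rw [iso_it he hr]
    unfold slot
    rw [hr, hr]

end Iso

/-! ### A change of the cyclic orders outside the circle -/

/-- `D'` is obtained from `D` by a change of the cyclic orders in a set `Z` of inner half-edges. -/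
structure Chg (D D' : JD H) (Z : Set H) : Prop where
  e : D'.e = D.e
  K : D'.K = D.K
  inn : ∀ v ∈ Z, D.inner v
  cl : ∀ v, D.r v ∈ Z → v ∈ Z
  cl' : ∀ v ∈ Z, D'.r v ∈ Z
  oth : ∀ v, v ∉ Z → D'.r v = D.r v

namespace Chg

variable {D D' : JD H} {Z : Set H} (h : Chg D D' Z)

include h

theorem onC (v : H) : D'.onC v ↔ D.onC v := by
  unfold JD.onC
  rw [h.e, h.K]

theorem inner (v : H) : D'.inner v ↔ D.inner v := by
  by_cases hv : v ∈ Z
  · refine ⟨fun _ => h.inn v hv, fun _ => ⟨?_, ?_, ?_⟩⟩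
    · rw [h.onC]
      exact (h.inn v hv).1
    · rw [h.onC]
      exact (h.inn _ (h.cl' v hv)).1
    · rw [h.onC]
      exact (h.inn _ (h.cl' _ (h.cl' v hv))).1
  · have h1 : D.r v ∉ Z := fun h' => hv (h.cl v h')
    unfold JD.inner
    rw [h.oth v hv, h.oth _ h1, h.onC, h.onC, h.onC]

theorem not_mem {u : H} (hu : u ∈ D.K) : u ∉ Z := fun h' => (h.inn u h').1 (Or.inl hu)

theorem not_mem_r {u : H} (hu : u ∈ D.K) : D.r u ∉ Z := fun h' => h.not_mem hu (h.cl u h')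

theorem nx_eq {u : H} (hu : u ∈ D.K) : nx D' u = nx D u := by
  unfold nx
  rw [h.e, h.oth u (h.not_mem hu)]

theorem slot_eq {u : H} (hu : u ∈ D.K) : slot D' u = slot D u := by
  unfold slot
  rw [h.oth u (h.not_mem hu), h.oth _ (h.not_mem_r hu)]

theorem it_eq {u : H} (hu : u ∈ D.K) (k : ℕ) : it D' u k = it D u k :=
  it_congr hu (fun _ hv => h.nx_eq hv) k

/-- The half-edges of the two graphs. -/
def eqv : Vt D' ≃ Vt D := Equiv.subtypeEquivRight fun v => not_congr (h.onC v)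

omit h in
theorem eqv_val (h : Chg D D' Z) (v : Vt D') : (h.eqv v).1 = v.1 := rfl

section

variable {u : H} (hu : u ∈ D.K) (hn : D.K.card = n) (hu' : u ∈ D'.K) (hn' : D'.K.card = n)

theorem map_e : ((rd D' u n hu' hn').map h.eqv).e = (rd D u n hu hn).e := by
  refine Equiv.ext fun v => ?_
  obtain ⟨w, rfl⟩ := h.eqv.surjective v
  rw [Gr.map_e]
  apply Subtype.ext
  show D'.e w.1 = D.e w.1
  rw [h.e]

theorem map_leg : ((rd D' u n hu' hn').map h.eqv).leg = (rd D u n hu hn).leg := by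
  funext k
  apply Subtype.ext
  show slot D' (it D' u k) = slot D (it D u k)
  rw [h.it_eq hu, h.slot_eq (it_mem D hu k)]

omit hn in
theorem map_r_in {v : Vt D} (hv : D.inner v.1) :
    (((rd D' u n hu' hn').map h.eqv).r v).1 = D'.r v.1 := by
  obtain ⟨w, rfl⟩ := h.eqv.surjective v
  rw [Gr.map_r, eqv_val]
  exact rd_r_in D' hu' hn' ((h.inner w.1).2 hv)

theorem map_r_oth {v : Vt D} (hv : v.1 ∉ Z) :
    ((rd D' u n hu' hn').map h.eqv).r v = (rd D u n hu hn).r v := by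
  by_cases hi : D.inner v.1
  · apply Subtype.ext
    rw [h.map_r_in hu' hn' hi, rd_r_in D hu hn hi, h.oth _ hv]
  · rw [rd_r_out D hu hn hi]
    obtain ⟨w, rfl⟩ := h.eqv.surjective v
    rw [Gr.map_r, rd_r_out D' hu' hn' (fun h' => hi ((h.inner w.1).1 h'))]

end

end Chg

/-! ### Reversals -/

section Flip

variable {D D' : JD H} {x : H} (hx : D.inner x) (he : D'.e = D.e) (hK : D'.K = D.K)
  (hr : ∀ h, D'.r h = if h = x ∨ h = D.r x ∨ h = D.r (D.r x) then D.r (D.r h) else D.r h)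

include hx he hK hr in
theorem chg_AS : Chg D D' {h | D.vt x h} where
  e := he
  K := hK
  inn v hv := D.inner_of_vt hx hv
  cl v hv := D.vt_r.1 hv
  cl' v hv := by
    show D.vt x (D'.r v)
    have h1 : D'.r v = D.r (D.r v) := (hr v).trans (if_pos hv)
    rw [h1]
    exact D.vt_r.2 (D.vt_r.2 hv)
  oth v hv := by
    rw [hr]
    exact if_neg hv

theorem rd_AS {u : H} (hu : u ∈ D.K) (hn : D.K.card = n) (hu' : u ∈ D'.K) (hn' : D'.K.card = n) :
    (rd D' u n hu' hn').map (chg_AS hx he hK hr).eqv = (rd D u n hu hn).flip ⟨x, hx.1⟩ := by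
  have hc := chg_AS hx he hK hr
  have hvt : ∀ v : Vt D, (rd D u n hu hn).vt ⟨x, hx.1⟩ v ↔ D.vt x v.1 := by
    intro v
    have e1 := rd_r_in D hu hn (v := ⟨x, hx.1⟩) hx
    have e2 := rd_r_in D hu hn (v := (rd D u n hu hn).r ⟨x, hx.1⟩)
      (by rw [e1]; exact D.inner_r hx)
    unfold Gr.vt JD.vt
    rw [Subtype.ext_iff, Subtype.ext_iff, Subtype.ext_iff, e2, e1]
  refine Gr.ext (hc.map_e hu hn hu' hn') (Equiv.ext fun v => ?_) (hc.map_leg hu hn hu' hn')
  rw [Gr.flip_r]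
  by_cases hv : (rd D u n hu hn).vt ⟨x, hx.1⟩ v
  · have hv' := (hvt v).1 hv
    have hi := D.inner_of_vt hx hv'
    have e1 := rd_r_in D hu hn hi
    have e2 := rd_r_in D hu hn (v := (rd D u n hu hn).r v) (by rw [e1]; exact D.inner_r hi)
    rw [Gr.fr_pos hv]
    apply Subtype.ext
    rw [hc.map_r_in hu' hn' hi, e2, e1, hr]
    exact if_pos hv'
  · rw [Gr.fr_neg hv]
    exact hc.map_r_oth hu hn hu' hn' fun h' => hv ((hvt v).2 h')

end Flip

/-! ### The relation IHX -/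

section IHX

variable {I J X : JD H} {x a b y c d : H}

theorem chg_J (h : Jac70.Loc I J X x a b y c d) (hy : I.inner y) (hK : J.K = I.K) :
    Chg I J {h | h = x ∨ h = a ∨ h = b ∨ h = y ∨ h = c ∨ h = d} where
  e := h.eJ
  K := hK
  inn v hv := by
    obtain ⟨i1, i2, i3, i4, i5, i6⟩ := h.i1
    have ia := I.inner_r h.inn
    rw [i1] at ia
    have ib := I.inner_r ia
    rw [i2] at ib
    have ic := I.inner_r hy
    rw [i4] at ic
    have id := I.inner_r ic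
    rw [i5] at id
    rcases hv with rfl | rfl | rfl | rfl | rfl | rfl
    · exact h.inn
    · exact ia
    · exact ib
    · exact hy
    · exact ic
    · exact id
  cl v hv := by
    obtain ⟨i1, i2, i3, i4, i5, i6⟩ := h.i1
    show v = x ∨ v = a ∨ v = b ∨ v = y ∨ v = c ∨ v = d
    rcases hv with hv | hv | hv | hv | hv | hv
    · exact Or.inr (Or.inr (Or.inl (I.r_inj (hv.trans i3.symm))))
    · exact Or.inl (I.r_inj (hv.trans i1.symm))
    · exact Or.inr (Or.inl (I.r_inj (hv.trans i2.symm)))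
    · exact Or.inr (Or.inr (Or.inr (Or.inr (Or.inr (I.r_inj (hv.trans i6.symm))))))
    · exact Or.inr (Or.inr (Or.inr (Or.inl (I.r_inj (hv.trans i4.symm)))))
    · exact Or.inr (Or.inr (Or.inr (Or.inr (Or.inl (I.r_inj (hv.trans i5.symm))))))
  cl' v hv := by
    obtain ⟨j1, j2, j3, j4, j5, j6⟩ := h.j1
    show J.r v = x ∨ J.r v = a ∨ J.r v = b ∨ J.r v = y ∨ J.r v = c ∨ J.r v = d
    rcases hv with rfl | rfl | rfl | rfl | rfl | rfl
    · exact Or.inr (Or.inr (Or.inl j1))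
    · exact Or.inr (Or.inr (Or.inr (Or.inl j6)))
    · exact Or.inr (Or.inr (Or.inr (Or.inr (Or.inl j2))))
    · exact Or.inr (Or.inr (Or.inr (Or.inr (Or.inr j4))))
    · exact Or.inl j3
    · exact Or.inr (Or.inl j5)
  oth v hv := by
    simp only [Set.mem_ofPred_eq, not_or] at hv
    exact (h.oth v hv.1 hv.2.1 hv.2.2.1 hv.2.2.2.1 hv.2.2.2.2.1 hv.2.2.2.2.2).1

theorem chg_X (h : Jac70.Loc I J X x a b y c d) (hy : I.inner y) (hK : X.K = I.K) :
    Chg I X {h | h = x ∨ h = a ∨ h = b ∨ h = y ∨ h = c ∨ h = d} where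
  e := h.eX
  K := hK
  inn v hv := by
    obtain ⟨i1, i2, i3, i4, i5, i6⟩ := h.i1
    have ia := I.inner_r h.inn
    rw [i1] at ia
    have ib := I.inner_r ia
    rw [i2] at ib
    have ic := I.inner_r hy
    rw [i4] at ic
    have id := I.inner_r ic
    rw [i5] at id
    rcases hv with rfl | rfl | rfl | rfl | rfl | rfl
    · exact h.inn
    · exact ia
    · exact ib
    · exact hy
    · exact ic
    · exact id
  cl v hv := by
    obtain ⟨i1, i2, i3, i4, i5, i6⟩ := h.i1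
    show v = x ∨ v = a ∨ v = b ∨ v = y ∨ v = c ∨ v = d
    rcases hv with hv | hv | hv | hv | hv | hv
    · exact Or.inr (Or.inr (Or.inl (I.r_inj (hv.trans i3.symm))))
    · exact Or.inl (I.r_inj (hv.trans i1.symm))
    · exact Or.inr (Or.inl (I.r_inj (hv.trans i2.symm)))
    · exact Or.inr (Or.inr (Or.inr (Or.inr (Or.inr (I.r_inj (hv.trans i6.symm))))))
    · exact Or.inr (Or.inr (Or.inr (Or.inl (I.r_inj (hv.trans i4.symm)))))
    · exact Or.inr (Or.inr (Or.inr (Or.inr (Or.inl (I.r_inj (hv.trans i5.symm))))))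
  cl' v hv := by
    obtain ⟨x1, x2, x3, x4, x5, x6⟩ := h.x1
    show X.r v = x ∨ X.r v = a ∨ X.r v = b ∨ X.r v = y ∨ X.r v = c ∨ X.r v = d
    rcases hv with rfl | rfl | rfl | rfl | rfl | rfl
    · exact Or.inr (Or.inl x1)
    · exact Or.inr (Or.inr (Or.inr (Or.inr (Or.inl x2))))
    · exact Or.inr (Or.inr (Or.inr (Or.inl x6)))
    · exact Or.inr (Or.inr (Or.inr (Or.inr (Or.inr x4))))
    · exact Or.inl x3
    · exact Or.inr (Or.inr (Or.inl x5))
  oth v hv := by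
    simp only [Set.mem_ofPred_eq, not_or] at hv
    exact (h.oth v hv.1 hv.2.1 hv.2.2.1 hv.2.2.2.1 hv.2.2.2.2.1 hv.2.2.2.2.2).2

theorem rd_IHX (h : Jac70.Loc I J X x a b y c d) (hy : I.inner y) (hJ : J.K = I.K)
    (hX : X.K = I.K) {u : H} (hu : u ∈ I.K) (hn : I.K.card = n) (huJ : u ∈ J.K)
    (hnJ : J.K.card = n) (huX : u ∈ X.K) (hnX : X.K.card = n) :
    Gr.Loc (rd I u n hu hn) ((rd J u n huJ hnJ).map (chg_J h hy hJ).eqv)
      ((rd X u n huX hnX).map (chg_X h hy hX).eqv) ⟨x, h.inn.1⟩ := by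
  have cJ := chg_J h hy hJ
  have cX := chg_X h hy hX
  obtain ⟨i1, i2, i3, i4, i5, i6⟩ := h.i1
  obtain ⟨j1, j2, j3, j4, j5, j6⟩ := h.j1
  obtain ⟨x1, x2, x3, x4, x5, x6⟩ := h.x1
  have ix := h.inn
  have ia := I.inner_r ix
  rw [i1] at ia
  have ib := I.inner_r ia
  rw [i2] at ib
  have ic := I.inner_r hy
  rw [i4] at ic
  have id := I.inner_r ic
  rw [i5] at id
  have e1 : (rd I u n hu hn).r ⟨x, ix.1⟩ = ⟨a, ia.1⟩ :=
    Subtype.ext ((rd_r_in I hu hn (v := ⟨x, ix.1⟩) ix).trans i1)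
  have e2 : (rd I u n hu hn).r ⟨a, ia.1⟩ = ⟨b, ib.1⟩ :=
    Subtype.ext ((rd_r_in I hu hn (v := ⟨a, ia.1⟩) ia).trans i2)
  have e3 : (rd I u n hu hn).e ⟨x, ix.1⟩ = ⟨y, hy.1⟩ := Subtype.ext h.exy
  have e4 : (rd I u n hu hn).r ⟨y, hy.1⟩ = ⟨c, ic.1⟩ :=
    Subtype.ext ((rd_r_in I hu hn (v := ⟨y, hy.1⟩) hy).trans i4)
  have e5 : (rd I u n hu hn).r ⟨c, ic.1⟩ = ⟨d, id.1⟩ :=
    Subtype.ext ((rd_r_in I hu hn (v := ⟨c, ic.1⟩) ic).trans i5)
  have vx : ∀ v : Vt I, ¬ (rd I u n hu hn).vt ⟨x, ix.1⟩ v → v.1 ≠ x ∧ v.1 ≠ a ∧ v.1 ≠ b := by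
    intro v hv
    unfold Gr.vt at hv
    rw [e1, e2] at hv
    refine ⟨fun h' => hv (Or.inl (Subtype.ext h')), fun h' => hv (Or.inr (Or.inl (Subtype.ext h'))),
      fun h' => hv (Or.inr (Or.inr (Subtype.ext h')))⟩
  have vy : ∀ v : Vt I, ¬ (rd I u n hu hn).vt ((rd I u n hu hn).e ⟨x, ix.1⟩) v →
      v.1 ≠ y ∧ v.1 ≠ c ∧ v.1 ≠ d := by
    intro v hv
    unfold Gr.vt at hv
    rw [e3, e4, e5] at hv
    refine ⟨fun h' => hv (Or.inl (Subtype.ext h')), fun h' => hv (Or.inr (Or.inl (Subtype.ext h'))),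
      fun h' => hv (Or.inr (Or.inr (Subtype.ext h')))⟩
  have rj : ∀ (p q : H) (hp : I.inner p) (hq : ¬ I.onC q), J.r p = q →
      ((rd J u n huJ hnJ).map cJ.eqv).r ⟨p, hp.1⟩ = ⟨q, hq⟩ := fun p q hp hq hh =>
    Subtype.ext ((cJ.map_r_in huJ hnJ (v := ⟨p, hp.1⟩) hp).trans hh)
  have rx : ∀ (p q : H) (hp : I.inner p) (hq : ¬ I.onC q), X.r p = q →
      ((rd X u n huX hnX).map cX.eqv).r ⟨p, hp.1⟩ = ⟨q, hq⟩ := fun p q hp hq hh =>
    Subtype.ext ((cX.map_r_in huX hnX (v := ⟨p, hp.1⟩) hp).trans hh)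
  refine ⟨⟨?_, ?_, ?_, ?_⟩, ?_, ?_, ?_, ?_, ?_, ?_, ?_, ?_, ?_, ?_, ?_, ?_, ?_, ?_, ?_, ?_, ?_⟩
  · rw [e1]
    exact fun h' => I.r1 x (i1.trans (congrArg Subtype.val h'))
  · rw [e3, e4]
    exact fun h' => I.r1 y (i4.trans (congrArg Subtype.val h'))
  · rw [e3, e1]
    exact fun h' => h.nya (congrArg Subtype.val h')
  · rw [e3, e1, e2]
    exact fun h' => h.nyb (congrArg Subtype.val h')
  · rw [e1, e2]
    exact rj _ _ ix ib.1 j1
  · rw [e1, e2, e3, e4]
    exact rj _ _ ib ic.1 j2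
  · rw [e3, e4]
    exact rj _ _ ic ix.1 j3
  · rw [e3, e4, e5]
    exact rj _ _ hy id.1 j4
  · rw [e3, e4, e5, e1]
    exact rj _ _ id ia.1 j5
  · rw [e1, e3]
    exact rj _ _ ia hy.1 j6
  · rw [e1]
    exact rx _ _ ix ia.1 x1
  · rw [e1, e3, e4]
    exact rx _ _ ia ic.1 x2
  · rw [e3, e4]
    exact rx _ _ ic ix.1 x3
  · rw [e3, e4, e5]
    exact rx _ _ hy id.1 x4
  · rw [e3, e4, e5, e1, e2]
    exact rx _ _ id ib.1 x5
  · rw [e1, e2, e3]
    exact rx _ _ ib hy.1 x6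
  · intro v h1 h2
    obtain ⟨k1, k2, k3⟩ := vx v h1
    obtain ⟨k4, k5, k6⟩ := vy v h2
    have hz : v.1 ∉ {h | h = x ∨ h = a ∨ h = b ∨ h = y ∨ h = c ∨ h = d} := by
      simp only [Set.mem_ofPred_eq, not_or]
      exact ⟨k1, k2, k3, k4, k5, k6⟩
    exact ⟨cJ.map_r_oth hu hn huJ hnJ hz, cX.map_r_oth hu hn huX hnX hz⟩
  · exact cJ.map_e hu hn huJ hnJ
  · exact cX.map_e hu hn huX hnX
  · exact cJ.map_leg hu hn huJ hnJ
  · exact cX.map_leg hu hn huX hnX

end IHX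

end Pool.Agent.SWT80
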