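import Mathlib
import Pool.Agent.SWT80.Chg
import Pool.Agent.SWT80.Mg

/-!
# The relation STU for the based graph of a Jacobi diagram
-/

set_option autoImplicit false

namespace Pool.Agent.SWT80

open Pool.Agent.Jac70 (JD)
open Pool.Agent.SWT49

variable {H : Type} [DecidableEq H]

/-- `W` is one of the two diagrams with one vertex less in the relation STU; `p` is the first and
`q` is the second one of the two new legs. -/
structure Res (S W : JD H) (Z : Set H) (x p q y c d : H) : Prop where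
  e : W.e = S.e
  K : W.K = insert y S.K
  exy : S.e x = y
  mem : c ∈ S.K
  ix : S.inner x
  ip : S.inner p
  iq : S.inner q
  npq : p ≠ q
  sy : S.r y = c
  sc : S.r c = d
  sd : S.r d = y
  wx : W.r x = p
  wp : W.r p = c
  wc : W.r c = x
  wy : W.r y = d
  wd : W.r d = q
  wq : W.r q = y
  z1 : ∀ v ∈ Z, v = x ∨ v = p ∨ v = q ∨ v = y ∨ v = c ∨ v = d
  z2 : ∀ v, v ∉ Z → S.r v ∉ Z
  oth : ∀ v, v ∉ Z → W.r v = S.r v
  xZ : x ∈ Z
  yZ : y ∈ Z

namespace Res

variable {S W : JD H} {Z : Set H} {x p q y c d : H} (h : Res S W Z x p q y c d)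

include h

theorem slot_c : slot S c = y := by
  unfold slot
  rw [h.sc, h.sd]

theorem ny : ¬ S.onC y := by
  rw [← h.slot_c]
  exact slot_onC S h.mem

theorem yK : y ∉ S.K := fun h' => h.ny (Or.inl h')

theorem dK : d ∉ S.K := by
  rw [← h.sc]
  exact S.out_notMem h.mem

theorem onC (v : H) : W.onC v ↔ S.onC v ∨ v = y ∨ v = x := by
  have h1 : S.e v = y ↔ v = x := by
    rw [← h.exy]
    exact ⟨fun h' => S.e_inj h', fun h' => by rw [h']⟩
  unfold JD.onC
  rw [h.e, h.K, Finset.mem_insert, Finset.mem_insert, h1]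
  tauto

theorem xy : x ≠ y := by
  rw [← h.exy]
  exact (S.e1 x).symm

theorem eyx : S.e y = x := by
  rw [← h.exy, S.e2]

/-- The incoming half-arcs which are different from `c` are far away. -/
theorem far {u : H} (hu : u ∈ S.K) (hc : u ≠ c) : u ∉ Z := by
  intro hz
  rcases h.z1 u hz with rfl | rfl | rfl | rfl | rfl | rfl
  · exact h.ix.1 (Or.inl hu)
  · exact h.ip.1 (Or.inl hu)
  · exact h.iq.1 (Or.inl hu)
  · exact h.yK hu
  · exact hc rfl
  · exact h.dK hu

theorem nx_c : nx W c = y := by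
  unfold nx
  rw [h.wc, h.e, h.exy]

theorem nx_y : nx W y = nx S c := by
  unfold nx
  rw [h.wy, h.e, h.sc]

theorem nx_o {u : H} (hu : u ∈ S.K) (hc : u ≠ c) : nx W u = nx S u := by
  unfold nx
  rw [h.oth u (h.far hu hc), h.e]

theorem it_far {k : ℕ} (h1 : 1 ≤ k) (h2 : k < S.K.card) : it S c k ≠ c := by
  intro h'
  have := it_inj S h.mem h2 (by omega) (h'.trans (it_zero S c).symm)
  omega

theorem it_eq {k : ℕ} (h1 : 1 ≤ k) (h2 : k < S.K.card) : it W c (k + 1) = it S c k := by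
  induction k with
  | zero => omega
  | succ k ih =>
    rcases Nat.eq_zero_or_pos k with h3 | h3
    · subst h3
      rw [it_succ, it_succ, it_zero, h.nx_c, h.nx_y, it_succ, it_zero]
    · rw [it_succ, ih h3 (by omega), it_succ,
        h.nx_o (it_mem S h.mem k) (h.it_far h3 (by omega))]

theorem it_one : it W c 1 = y := by
  rw [it_succ, it_zero, h.nx_c]

theorem slot_wc : slot W c = p := by
  unfold slot
  rw [h.wc, h.wx]

theorem slot_wy : slot W y = q := by
  unfold slot
  rw [h.wy, h.wd]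

theorem slot_o {u : H} (hu : u ∈ S.K) (hc : u ≠ c) : slot W u = slot S u := by
  have h1 := h.far hu hc
  unfold slot
  rw [h.oth u h1, h.oth _ (h.z2 u h1)]

theorem onC_far {v : H} (hv : v ∉ Z) : W.onC v ↔ S.onC v := by
  rw [h.onC]
  constructor
  · rintro (h1 | h1 | h1)
    · exact h1
    · exact absurd (h1 ▸ h.yZ) hv
    · exact absurd (h1 ▸ h.xZ) hv
  · exact Or.inl

theorem inner_far {v : H} (hv : v ∉ Z) : W.inner v ↔ S.inner v := by
  have h1 := h.z2 v hv
  have h2 := h.z2 _ h1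
  unfold JD.inner
  rw [h.oth v hv, h.oth _ h1, h.onC_far hv, h.onC_far h1, h.onC_far h2]

theorem np : ¬ W.inner p := by
  intro h'
  apply h'.2.1
  rw [h.wp, h.onC]
  exact Or.inl (Or.inl h.mem)

theorem nq : ¬ W.inner q := by
  intro h'
  apply h'.2.1
  rw [h.wq, h.onC]
  exact Or.inr (Or.inl rfl)

/-- The half-edges of the graph of `W` which are different from the two new legs are far away. -/
theorem farV {v : H} (hv : ¬ W.onC v) (hp : v ≠ p) (hq : v ≠ q) : v ∉ Z := by
  intro hz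
  rw [h.onC, not_or, not_or] at hv
  rcases h.z1 v hz with h1 | h1 | h1 | h1 | h1 | h1
  · exact hv.2.2 h1
  · exact hp h1
  · exact hq h1
  · exact hv.2.1 h1
  · exact hv.1 (Or.inl (h1 ▸ h.mem))
  · apply hv.1
    right
    rw [h1, ← h.sc]
    exact S.out c h.mem

theorem memW : c ∈ W.K := by
  rw [h.K]
  exact Finset.mem_insert_of_mem h.mem

theorem cardW {m : ℕ} (hm : S.K.card = m) : W.K.card = m + 1 := by
  rw [h.K, Finset.card_insert_of_notMem h.yK, hm]

theorem leg0 {m : ℕ} (hW : W.K.card = m + 2) :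
    ((rd W c (m + 2) h.memW hW).leg (0 : Fin (m + 2))).1 = p := by
  rw [rd_leg]
  exact h.slot_wc

theorem leg1 {m : ℕ} (hW : W.K.card = m + 2) :
    ((rd W c (m + 2) h.memW hW).leg (1 : Fin (m + 2))).1 = q := by
  rw [rd_leg]
  have : ((1 : Fin (m + 2)) : ℕ) = 1 := rfl
  rw [this, h.it_one, h.slot_wy]

theorem legk {m : ℕ} (hS : S.K.card = m + 1) (hW : W.K.card = m + 2) (k : Fin (m + 2))
    (hk : 2 ≤ k.val) : ((rd W c (m + 2) h.memW hW).leg k).1 = slot S (it S c (k.val - 1)) := by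
  have hk2 := k.2
  obtain ⟨l, hl⟩ : ∃ l, k.val = l + 1 := ⟨k.val - 1, by omega⟩
  rw [rd_leg, hl, h.it_eq (by omega) (by omega), Nat.add_sub_cancel,
    h.slot_o (it_mem S h.mem l) (h.it_far (by omega) (by omega))]

end Res

/-! ### The two diagrams with one vertex less -/

section TU

variable {S T U : JD H} {Z : Set H} {x a b y c d : H} (hT : Res S T Z x b a y c d)
  (hU : Res S U Z x a b y c d)

include hT hU

/-- The half-edges of the two graphs are the same. -/
theorem onC_TU (v : H) : U.onC v ↔ T.onC v := by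
  rw [hT.onC, hU.onC]

theorem inner_TU {v : H} (hv : ¬ T.onC v) : U.inner v ↔ T.inner v := by
  by_cases h1 : v = a
  · subst h1
    exact ⟨fun h' => absurd h' hU.np, fun h' => absurd h' hT.nq⟩
  by_cases h2 : v = b
  · subst h2
    exact ⟨fun h' => absurd h' hU.nq, fun h' => absurd h' hT.np⟩
  have h3 := hT.farV hv h2 h1
  rw [hU.inner_far h3, hT.inner_far h3]

/-- The half-edges of the two graphs. -/
def eTU : Vt U ≃ Vt T := Equiv.subtypeEquivRight fun v => not_congr (onC_TU hT hU v)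

theorem rd_TU {m : ℕ} (hS : S.K.card = m + 1) (hTc : T.K.card = m + 2) (hUc : U.K.card = m + 2) :
    (rd U c (m + 2) hU.memW hUc).map (eTU hT hU) =
      s (0 : Fin (m + 1)) • rd T c (m + 2) hT.memW hTc := by
  refine Gr.map_eq (fun v => Subtype.ext ?_) (fun v => ?_) (fun k => Subtype.ext ?_)
  · show T.e v.1 = U.e v.1
    rw [hT.e, hU.e]
  · show rdR T (eTU hT hU v) = eTU hT hU (rdR U v)
    have hv : ¬ T.onC v.1 := (eTU hT hU v).2
    by_cases hi : T.inner v.1
    · have hi' : U.inner v.1 := (inner_TU hT hU hv).2 hi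
      have e1 : rdR T (eTU hT hU v) = ⟨T.r v.1, hi.2.1⟩ := rdR_pos T (v := eTU hT hU v) hi
      rw [e1, rdR_pos U hi']
      apply Subtype.ext
      show T.r v.1 = U.r v.1
      have h3 := hT.farV hv (fun h' => hT.np (h' ▸ hi)) (fun h' => hT.nq (h' ▸ hi))
      rw [hT.oth _ h3, hU.oth _ h3]
    · have hi' : ¬ U.inner v.1 := fun h' => hi ((inner_TU hT hU hv).1 h')
      have e1 : rdR T (eTU hT hU v) = eTU hT hU v := rdR_neg T (v := eTU hT hU v) hi
      rw [e1, rdR_neg U hi']
  · show ((s (0 : Fin (m + 1)) • rd T c (m + 2) hT.memW hTc).leg k).1 =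
      ((rd U c (m + 2) hU.memW hUc).leg k).1
    rw [Gr.s_smul_leg]
    by_cases h0 : k = 0
    · have : s (0 : Fin (m + 1)) k = 1 := by
        rw [h0]
        exact s_castSucc (0 : Fin (m + 1))
      rw [this, h0, hT.leg1, hU.leg0]
    by_cases h1 : k = 1
    · have : s (0 : Fin (m + 1)) k = 0 := by
        rw [h1]
        exact s_succ (0 : Fin (m + 1))
      rw [this, h1, hT.leg0, hU.leg1]
    have hk : 2 ≤ k.val := by
      have h2 : k.val ≠ 0 := fun h => h0 (Fin.ext h)
      have h3 : k.val ≠ 1 := fun h => h1 (Fin.ext h)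
      omega
    have : s (0 : Fin (m + 1)) k = k := Equiv.swap_apply_of_ne_of_ne h0 h1
    rw [this, hT.legk hS hTc k hk, hU.legk hS hUc k hk]

end TU

/-! ### The diagram with one vertex more -/

section ST

variable {S T : JD H} {Z : Set H} {x p q y c d : H} (hT : Res S T Z x p q y c d)

/-- The half-edges of the graph of `S`. -/
def fST : Vt T ⊕ Bool → Vt S
  | Sum.inl v => ⟨v.1, fun h' => v.2 ((hT.onC v.1).2 (Or.inl h'))⟩
  | Sum.inr false => ⟨x, hT.ix.1⟩
  | Sum.inr true => ⟨y, hT.ny⟩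

theorem fST_bij : Function.Bijective (fST hT) := by
  constructor
  · rintro (v | _ | _) (w | _ | _) h
    · have h1 : v.1 = w.1 := congrArg (fun z : Vt S => z.1) h
      rw [Subtype.ext h1]
    · exact absurd ((hT.onC v.1).2 (Or.inr (Or.inr (congrArg Subtype.val h)))) v.2
    · exact absurd ((hT.onC v.1).2 (Or.inr (Or.inl (congrArg Subtype.val h)))) v.2
    · exact absurd ((hT.onC w.1).2 (Or.inr (Or.inr (congrArg Subtype.val h).symm))) w.2
    · rfl
    · exact absurd (congrArg Subtype.val h) hT.xy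
    · exact absurd ((hT.onC w.1).2 (Or.inr (Or.inl (congrArg Subtype.val h).symm))) w.2
    · exact absurd (congrArg Subtype.val h).symm hT.xy
    · rfl
  · intro v
    by_cases h1 : v.1 = x
    · exact ⟨Sum.inr false, Subtype.ext h1.symm⟩
    by_cases h2 : v.1 = y
    · exact ⟨Sum.inr true, Subtype.ext h2.symm⟩
    refine ⟨Sum.inl ⟨v.1, fun h' => ?_⟩, Subtype.ext rfl⟩
    rcases (hT.onC v.1).1 h' with h3 | h3 | h3
    · exact v.2 h3
    · exact h2 h3
    · exact h1 h3

/-- The half-edges of the graph of `S`. -/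
noncomputable def eST : Vt T ⊕ Bool ≃ Vt S := Equiv.ofBijective (fST hT) (fST_bij hT)

theorem eST_inl (v : Vt T) : (eST hT (Sum.inl v)).1 = v.1 := rfl

theorem eST_x : (eST hT (Sum.inr false)).1 = x := rfl

theorem eST_y : (eST hT (Sum.inr true)).1 = y := rfl

include hT in
theorem y_not_inner : ¬ S.inner y := by
  rw [← hT.slot_c]
  exact slot_not_inner S hT.mem

theorem rd_ST (h1 : S.r x = q) (h2 : S.r q = p) (h3 : S.r p = x) {m : ℕ} (hS : S.K.card = m + 1)
    (hTc : T.K.card = m + 2) :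
    ((rd T c (m + 2) hT.memW hTc).mg (0 : Fin (m + 1))).map (eST hT) =
      rd S c (m + 1) hT.mem hS := by
  have l0 := hT.leg0 hTc
  have l1 := hT.leg1 hTc
  have c0 : (0 : Fin (m + 1)).castSucc = (0 : Fin (m + 2)) := rfl
  have c1 : (0 : Fin (m + 1)).succ = (1 : Fin (m + 2)) := rfl
  refine Gr.map_eq (fun w => Subtype.ext ?_) (fun w => Subtype.ext ?_) (fun k => Subtype.ext ?_)
  · rw [rd_e]
    rcases w with v | _ | _
    · rw [Gr.mg_e_inl, eST_inl, eST_inl, rd_e, hT.e]
    · rw [Gr.mg_e_inr, eST_x]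
      exact hT.exy
    · rw [Gr.mg_e_inr, eST_y]
      exact hT.eyx
  · rcases w with v | _ | _
    · by_cases hp : v.1 = p
      · have hv : v = (rd T c (m + 2) hT.memW hTc).leg (0 : Fin (m + 1)).castSucc :=
          Subtype.ext (hp.trans l0.symm)
        have e1 : ((rd T c (m + 2) hT.memW hTc).mg 0).r (Sum.inl v) = Sum.inr false := by
          rw [hv]
          exact Gr.mg_r_p _ _
        rw [e1, eST_x, rd_r_in S hT.mem hS (v := eST hT (Sum.inl v)) (by
          rw [eST_inl, hp]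
          exact hT.ip), eST_inl, hp, h3]
      by_cases hq : v.1 = q
      · have hv : v = (rd T c (m + 2) hT.memW hTc).leg (0 : Fin (m + 1)).succ :=
          Subtype.ext (hq.trans l1.symm)
        have e1 : ((rd T c (m + 2) hT.memW hTc).mg 0).r (Sum.inl v) =
            Sum.inl ((rd T c (m + 2) hT.memW hTc).leg (0 : Fin (m + 1)).castSucc) := by
          rw [hv]
          exact Gr.mg_r_q _ _
        rw [e1, eST_inl, c0, l0, rd_r_in S hT.mem hS (v := eST hT (Sum.inl v)) (by
          rw [eST_inl, hq]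
          exact hT.iq), eST_inl, hq, h2]
      have e1 : ((rd T c (m + 2) hT.memW hTc).mg 0).r (Sum.inl v) =
          Sum.inl ((rd T c (m + 2) hT.memW hTc).r v) := by
        apply Gr.mg_r_o
        · intro h'
          exact hp ((congrArg Subtype.val h').trans l0)
        · intro h'
          exact hq ((congrArg Subtype.val h').trans l1)
      rw [e1, eST_inl]
      have hz := hT.farV v.2 hp hq
      by_cases hi : S.inner v.1
      · rw [rd_r_in S hT.mem hS (v := eST hT (Sum.inl v)) hi, eST_inl,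
          rd_r_in T hT.memW hTc ((hT.inner_far hz).2 hi), hT.oth _ hz]
      · rw [rd_r_out S hT.mem hS (v := eST hT (Sum.inl v)) hi, eST_inl,
          rd_r_out T hT.memW hTc (fun h' => hi ((hT.inner_far hz).1 h'))]
    · rw [Gr.mg_r_x, eST_inl, c1, l1, rd_r_in S hT.mem hS (v := eST hT (Sum.inr false)) hT.ix,
        eST_x, h1]
    · rw [Gr.mg_r_y, rd_r_out S hT.mem hS (v := eST hT (Sum.inr true)) (y_not_inner hT)]
  · rw [Gr.mg_leg, rd_leg]
    by_cases hk : k = 0
    · rw [hk, Gr.mgL_self, eST_y]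
      exact hT.slot_c
    · have h0 : (0 : Fin (m + 1)) < k := Fin.pos_of_ne_zero hk
      have hk1 : 1 ≤ k.val := by
        rw [Fin.lt_def] at h0
        exact h0
      rw [Gr.mgL_gt _ h0, eST_inl, hT.legk hS hTc k.succ (by rw [Fin.val_succ]; omega),
        Fin.val_succ, Nat.add_sub_cancel]

end ST

/-! ### The relation STU -/

section STU

variable {S T U : JD H} {x a b y c d : H} (h : Jac70.Loc S T U x a b y c d) (hc : c ∈ S.K)

include h hc

theorem res_T (hT : T.K = insert y S.K) :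
    Res S T {h | h = x ∨ h = a ∨ h = b ∨ h = y ∨ h = c ∨ h = d} x b a y c d := by
  obtain ⟨i1, i2, i3, i4, i5, i6⟩ := h.i1
  obtain ⟨j1, j2, j3, j4, j5, j6⟩ := h.j1
  have ia := S.inner_r h.inn
  rw [i1] at ia
  have ib := S.inner_r ia
  rw [i2] at ib
  refine ⟨h.eJ, hT, h.exy, hc, h.inn, ib, ia, ?_, i4, i5, i6, j1, j2, j3, j4, j5, j6, ?_, ?_, ?_,
    Or.inl rfl, Or.inr (Or.inr (Or.inr (Or.inl rfl)))⟩
  · rw [← i2]
    exact S.r1 a
  · intro v hv
    rcases hv with hv | hv | hv | hv | hv | hv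
    · exact Or.inl hv
    · exact Or.inr (Or.inr (Or.inl hv))
    · exact Or.inr (Or.inl hv)
    · exact Or.inr (Or.inr (Or.inr (Or.inl hv)))
    · exact Or.inr (Or.inr (Or.inr (Or.inr (Or.inl hv))))
    · exact Or.inr (Or.inr (Or.inr (Or.inr (Or.inr hv))))
  · intro v hv hv'
    apply hv
    show v = x ∨ v = a ∨ v = b ∨ v = y ∨ v = c ∨ v = d
    rcases hv' with hv | hv | hv | hv | hv | hv
    · exact Or.inr (Or.inr (Or.inl (S.r_inj (hv.trans i3.symm))))
    · exact Or.inl (S.r_inj (hv.trans i1.symm))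
    · exact Or.inr (Or.inl (S.r_inj (hv.trans i2.symm)))
    · exact Or.inr (Or.inr (Or.inr (Or.inr (Or.inr (S.r_inj (hv.trans i6.symm))))))
    · exact Or.inr (Or.inr (Or.inr (Or.inl (S.r_inj (hv.trans i4.symm)))))
    · exact Or.inr (Or.inr (Or.inr (Or.inr (Or.inl (S.r_inj (hv.trans i5.symm))))))
  · intro v hv
    simp only [Set.mem_ofPred_eq, not_or] at hv
    exact (h.oth v hv.1 hv.2.1 hv.2.2.1 hv.2.2.2.1 hv.2.2.2.2.1 hv.2.2.2.2.2).1

theorem res_U (hU : U.K = insert y S.K) :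
    Res S U {h | h = x ∨ h = a ∨ h = b ∨ h = y ∨ h = c ∨ h = d} x a b y c d := by
  obtain ⟨i1, i2, i3, i4, i5, i6⟩ := h.i1
  obtain ⟨x1, x2, x3, x4, x5, x6⟩ := h.x1
  have ia := S.inner_r h.inn
  rw [i1] at ia
  have ib := S.inner_r ia
  rw [i2] at ib
  refine ⟨h.eX, hU, h.exy, hc, h.inn, ia, ib, ?_, i4, i5, i6, x1, x2, x3, x4, x5, x6, ?_, ?_, ?_,
    Or.inl rfl, Or.inr (Or.inr (Or.inr (Or.inl rfl)))⟩
  · rw [← i2]
    exact (S.r1 a).symm
  · intro v hv
    exact hv
  · intro v hv hv'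
    apply hv
    show v = x ∨ v = a ∨ v = b ∨ v = y ∨ v = c ∨ v = d
    rcases hv' with hv | hv | hv | hv | hv | hv
    · exact Or.inr (Or.inr (Or.inl (S.r_inj (hv.trans i3.symm))))
    · exact Or.inl (S.r_inj (hv.trans i1.symm))
    · exact Or.inr (Or.inl (S.r_inj (hv.trans i2.symm)))
    · exact Or.inr (Or.inr (Or.inr (Or.inr (Or.inr (S.r_inj (hv.trans i6.symm))))))
    · exact Or.inr (Or.inr (Or.inr (Or.inl (S.r_inj (hv.trans i4.symm)))))
    · exact Or.inr (Or.inr (Or.inr (Or.inr (Or.inl (S.r_inj (hv.trans i5.symm))))))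
  · intro v hv
    simp only [Set.mem_ofPred_eq, not_or] at hv
    exact (h.oth v hv.1 hv.2.1 hv.2.2.1 hv.2.2.2.1 hv.2.2.2.2.1 hv.2.2.2.2.2).2

end STU

end Pool.Agent.SWT80
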