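import Mathlib
import Pool.Agent.SWT80.Res
import Pool.Agent.SWT58.Turn

/-!
# The functional on the space of Jacobi diagrams given by functionals on based graphs
-/

set_option autoImplicit false

namespace Pool.Agent.SWT80

open Pool.Agent.Jac70 (JD A rels)
open Pool.Agent.SWT49 Pool.Agent.SWT93

variable {M : Type} [AddCommGroup M]

/-- The invariance under the rotation follows from STU. -/
theorem rot_inv {n : ℕ} {F : (V : Type) → Gr V (n + 1) → M} {F' : (V : Type) → Gr V n → M}
    (h2 : ∀ v : M, v + v = 0 → v = 0) (hF' : Rel F') (hS : Stu F F') (V : Type) [Finite V]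
    (G : Gr V (n + 1)) : F V (finRotate (n + 1) • G) = F V G := by
  have hI : IsInt (fun (G : Gr V (n + 1)) i => F' (V ⊕ Bool) (G.mg i))
      (fun g G => F V (g • G) - F V G) :=
    { one := fun x => by rw [one_smul, sub_self]
      step := fun g x i => by
        show F V (g • x) - F V x - (F V ((s i * g) • x) - F V x) = F' (V ⊕ Bool) ((g • x).mg i)
        rw [mul_smul, ← hS]
        abel
      mul := fun g h x => by
        show F V ((g * h) • x) - F V x = F V (g • h • x) - F V (h • x) + (F V (h • x) - F V x)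
        rw [mul_smul]
        abel }
  exact sub_eq_zero.1 (SWT58.turn hF' G h2 _ hI)

variable {H : Type} [DecidableEq H]

/-! ### The independence of the base point -/

section Base

omit [AddCommGroup M]

variable {m : ℕ} {F : (V : Type) → Gr V (m + 1) → M}
  (hrot : ∀ (V : Type) [Finite V] (G : Gr V (m + 1)), F V (finRotate (m + 1) • G) = F V G)

include hrot

theorem base_nx [Finite H] (D : JD H) {u v : H} (hu : u ∈ D.K) (hv : v ∈ D.K) (h : v = nx D u)
    (hn : D.K.card = m + 1) :
    F (Vt D) (rd D v (m + 1) hv hn) = F (Vt D) (rd D u (m + 1) hu hn) := by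
  subst h
  rw [← rd_nx D hu hn, hrot]

theorem base [Finite H] (D : JD H) {u v : H} (hu : u ∈ D.K) (hv : v ∈ D.K)
    (hn : D.K.card = m + 1) :
    F (Vt D) (rd D v (m + 1) hv hn) = F (Vt D) (rd D u (m + 1) hu hn) := by
  obtain ⟨k, hkc, hk⟩ := (period D hu).2.2 v hv
  clear hkc
  subst hk
  induction k with
  | zero => rfl
  | succ k ih =>
    rw [base_nx hrot D (it_mem D hu k) hv (it_succ D u k) hn]
    exact ih (it_mem D hu k)

end Base

/-! ### The value on a diagram -/

open Classical in
/-- The value on a diagram of a family of functionals on the based graphs. -/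
noncomputable def val (F : (n : ℕ) → (V : Type) → Gr V n → M) (D : JD H) : M :=
  if h : D.K.Nonempty then F D.K.card (Vt D) (rd D h.choose _ h.choose_spec rfl) else 0

theorem card_le [Finite H] (D : JD H) : 3 * D.K.card ≤ Nat.card H := by
  have := Fintype.ofFinite H
  rw [Nat.card_eq_fintype_card]
  have d1 : Disjoint D.K (D.K.image D.r) := by
    rw [Finset.disjoint_left]
    intro v hv hv'
    obtain ⟨u, hu, rfl⟩ := Finset.mem_image.1 hv'
    exact D.out_notMem hu hv
  have d2 : Disjoint (D.K ∪ D.K.image D.r) (D.K.image fun u => D.r (D.r u)) := by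
    rw [Finset.disjoint_left]
    intro v hv hv'
    obtain ⟨u, hu, rfl⟩ := Finset.mem_image.1 hv'
    rcases Finset.mem_union.1 hv with h1 | h1
    · exact (D.leg u hu).1 h1
    · obtain ⟨w, hw, h2⟩ := Finset.mem_image.1 h1
      have h3 := D.r_inj h2
      rw [h3] at hw
      exact D.out_notMem hu hw
  have c1 : (D.K.image D.r).card = D.K.card := Finset.card_image_of_injective _ D.r.injective
  have c2 : (D.K.image fun u => D.r (D.r u)).card = D.K.card :=
    Finset.card_image_of_injective _ fun _ _ h => D.r_inj (D.r_inj h)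
  have h1 := Finset.card_le_univ (D.K ∪ D.K.image D.r ∪ D.K.image fun u => D.r (D.r u))
  rw [Finset.card_union_of_disjoint d2, Finset.card_union_of_disjoint d1, c1, c2] at h1
  omega

/-- The assumptions on the family. -/
structure Fam (N : ℕ) (F : (n : ℕ) → (V : Type) → Gr V n → M) : Prop where
  rel : ∀ n ≤ N, Rel (F n)
  stu : ∀ n < N, Stu (F (n + 1)) (F n)

section Val

variable {N : ℕ} {F : (n : ℕ) → (V : Type) → Gr V n → M} (h2 : ∀ v : M, v + v = 0 → v = 0)
  (hF : Fam N F) [Finite H] (hN : Nat.card H ≤ 3 * N)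

include h2 hF hN

theorem val_eq (D : JD H) {u : H} (hu : u ∈ D.K) {n : ℕ} (hn : D.K.card = n) :
    val F D = F n (Vt D) (rd D u n hu hn) := by
  have h0 := (period D hu).2.1
  have h1 := card_le D
  have hne : D.K.Nonempty := ⟨u, hu⟩
  have e1 : val F D = F D.K.card (Vt D) (rd D hne.choose _ hne.choose_spec rfl) := dif_pos hne
  rw [e1]
  subst hn
  have key : ∀ (n : ℕ) (hn : D.K.card = n) (v : H) (hv : v ∈ D.K),
      F n (Vt D) (rd D v n hv hn) = F n (Vt D) (rd D u n hu hn) := by
    intro n hn v hv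
    obtain ⟨m, rfl⟩ : ∃ m, n = m + 1 := ⟨n - 1, by omega⟩
    exact base (fun V _ G => rot_inv h2 (hF.rel m (by omega)) (hF.stu m (by omega)) V G) D hu hv hn
  exact key _ rfl _ _

theorem val_iso {D D' : JD H} (h : Jac70.Iso D D') : val F D' = val F D := by
  obtain ⟨g, he, hr, hK⟩ := h
  by_cases hne : D.K.Nonempty
  · obtain ⟨u, hu⟩ := hne
    have h1 := card_le D
    have hu' : g u ∈ D'.K := (hK u).2 hu
    rw [val_eq h2 hF hN D hu rfl, val_eq h2 hF hN D' hu' (iso_card hK),
      ← rd_iso he hr hK hu rfl hu' (iso_card hK)]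
    exact (hF.rel _ (by omega)).iso _ _ _ _
  · have hne' : ¬ D'.K.Nonempty := fun ⟨u, hu⟩ => hne (D.ne u)
    have e1 : val F D = 0 := dif_neg hne
    have e2 : val F D' = 0 := dif_neg hne'
    rw [e1, e2]

theorem val_AS {D D' : JD H} (h : Jac70.AS D D') : val F D' = - val F D := by
  obtain ⟨x, hx, he, hK, hr⟩ := h
  obtain ⟨u, hu⟩ := D.ne x
  have h1 := card_le D
  have hu' : u ∈ D'.K := by
    rw [hK]
    exact hu
  have hn' : D'.K.card = D.K.card := by rw [hK]
  rw [val_eq h2 hF hN D hu rfl, val_eq h2 hF hN D' hu' hn']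
  have hR := hF.rel D.K.card (by omega)
  rw [← hR.iso _ _ (chg_AS hx he hK hr).eqv (rd D' u D.K.card hu' hn'),
    rd_AS hx he hK hr hu rfl hu' hn']
  apply hR.as
  intro h3
  have h4 := congrArg Subtype.val h3
  rw [rd_r_in D hu rfl (v := ⟨x, hx.1⟩) hx] at h4
  exact D.r1 x h4

theorem val_IHX {I J X : JD H} (h : Jac70.IHX I J X) : val F I = val F J - val F X := by
  obtain ⟨x, a, b, y, c, d, hL, hy, hJ, hX⟩ := h
  obtain ⟨u, hu⟩ := I.ne x
  have h1 := card_le I
  have hR := hF.rel I.K.card (by omega)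
  have huJ : u ∈ J.K := by
    rw [hJ]
    exact hu
  have hnJ : J.K.card = I.K.card := by rw [hJ]
  have huX : u ∈ X.K := by
    rw [hX]
    exact hu
  have hnX : X.K.card = I.K.card := by rw [hX]
  rw [val_eq h2 hF hN I hu rfl, val_eq h2 hF hN J huJ hnJ, val_eq h2 hF hN X huX hnX,
    ← hR.iso _ _ (chg_J hL hy hJ).eqv (rd J u I.K.card huJ hnJ),
    ← hR.iso _ _ (chg_X hL hy hX).eqv (rd X u I.K.card huX hnX)]
  exact hR.ihx _ _ _ _ _ (rd_IHX hL hy hJ hX hu rfl huJ hnJ huX hnX)

theorem val_STU {S T U : JD H} (h : Jac70.STU S T U) : val F S = val F T - val F U := by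
  obtain ⟨x, a, b, y, c, d, hL, hc, hT, hU⟩ := h
  have rT := res_T hL hc hT
  have rU := res_U hL hc hU
  obtain ⟨i1, i2, i3, _, _, _⟩ := hL.i1
  have h0 := (period S hc).2.1
  obtain ⟨m, hm⟩ : ∃ m, S.K.card = m + 1 := ⟨S.K.card - 1, by omega⟩
  have hTc := rT.cardW hm
  have hUc := rU.cardW hm
  have h1 := card_le T
  have hR := hF.rel (m + 1) (by omega)
  have hR2 := hF.rel (m + 2) (by omega)
  rw [val_eq h2 hF hN S hc hm, val_eq h2 hF hN T rT.memW hTc, val_eq h2 hF hN U rU.memW hUc,
    ← hR2.iso _ _ (eTU rT rU) (rd U c (m + 2) rU.memW hUc), rd_TU rT rU hm hTc hUc,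
    hF.stu (m + 1) (by omega), ← rd_ST rT i1 i2 i3 hm hTc]
  exact hR.iso _ _ _ _

/-- **The functional.** -/
theorem exists_fun : ∃ f : A H →+ M, ∀ D : JD H, f D.cl = val F D := by
  have hker : AddSubgroup.closure (rels H) ≤ (FreeAbelianGroup.lift (val F (H := H))).ker := by
    rw [AddSubgroup.closure_le]
    rintro z hz
    show FreeAbelianGroup.lift (val F) z = 0
    rcases hz with (⟨D, D', h, rfl⟩ | ⟨D, D', h, rfl⟩) | ⟨I, J, X, h, rfl⟩
    · rw [map_sub, FreeAbelianGroup.lift_apply_of, FreeAbelianGroup.lift_apply_of,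
        val_iso h2 hF hN h, sub_self]
    · rw [map_add, FreeAbelianGroup.lift_apply_of, FreeAbelianGroup.lift_apply_of,
        val_AS h2 hF hN h, add_neg_cancel]
    · rw [map_add, map_sub, FreeAbelianGroup.lift_apply_of, FreeAbelianGroup.lift_apply_of,
        FreeAbelianGroup.lift_apply_of]
      rcases h with h | h
      · rw [val_IHX h2 hF hN h]
        abel
      · rw [val_STU h2 hF hN h]
        abel
  refine ⟨QuotientAddGroup.lift _ _ hker, fun D => ?_⟩
  show FreeAbelianGroup.lift (val F) (FreeAbelianGroup.of D) = val F D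
  rw [FreeAbelianGroup.lift_apply_of]

end Val

end Pool.Agent.SWT80
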