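import Mathlib
import Pool.Agent.SWT80.Fun

/-!
# The value on an explicit diagram
-/

set_option autoImplicit false

namespace Pool.Agent.SWT80

open Pool.Agent.Jac70 (JD)

variable {M : Type} [AddCommGroup M] {H : Type} [DecidableEq H]

/-- `φ` identifies the based graph `G` with the graph of the diagram `D`, with the base point
`u`. -/
structure Enc {n : ℕ} {W : Type} (D : JD H) (u : H) (G : Gr W n) (φ : W → H) : Prop where
  mem : u ∈ D.K
  card : D.K.card = n
  inj : Function.Injective φ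
  out : ∀ w, ¬ D.onC (φ w)
  surj : ∀ h, ¬ D.onC h → ∃ w, φ w = h
  e : ∀ w, D.e (φ w) = φ (G.e w)
  r : ∀ w, G.r w ≠ w → D.r (φ w) = φ (G.r w)
  leg : ∀ k : Fin n, φ (G.leg k) = slot D (it D u k)

namespace Enc

variable {n : ℕ} {W : Type} {D : JD H} {u : H} {G : Gr W n} {φ : W → H} (h : Enc D u G φ)

/-- The identification of the half-edges. -/
noncomputable def eqv : W ≃ Vt D :=
  Equiv.ofBijective (fun w => (⟨φ w, h.out w⟩ : Vt D))
    ⟨fun _ _ h' => h.inj (congrArg Subtype.val h'), fun v => by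
      obtain ⟨w, hw⟩ := h.surj v.1 v.2
      exact ⟨w, Subtype.ext hw⟩⟩

theorem eqv_val (w : W) : (h.eqv w).1 = φ w := rfl

include h in
theorem inner {w : W} (hw : G.r w ≠ w) : D.inner (φ w) := by
  have h1 : G.r (G.r w) ≠ G.r w := fun h' => hw (G.r_inj h')
  refine ⟨h.out w, ?_, ?_⟩
  · rw [h.r w hw]
    exact h.out _
  · rw [h.r w hw, h.r _ h1]
    exact h.out _

theorem rd_eq : G.map h.eqv = rd D u n h.mem h.card := by
  refine Gr.map_eq (fun w => Subtype.ext ?_) (fun w => Subtype.ext ?_) (fun k => Subtype.ext ?_)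
  · rw [rd_e]
    exact h.e w
  · by_cases hw : G.r w = w
    · obtain ⟨k, rfl⟩ := (G.fix w).1 hw
      rw [rd_r_out D h.mem h.card (v := h.eqv (G.leg k)), hw]
      rw [eqv_val, h.leg]
      exact slot_not_inner D (it_mem D h.mem k)
    · rw [rd_r_in D h.mem h.card (v := h.eqv w) (h.inner hw)]
      exact h.r w hw
  · rw [rd_leg]
    exact (h.leg k).symm

include h in
theorem val_eq [Finite H] [Finite W] {N : ℕ} {F : (n : ℕ) → (V : Type) → Gr V n → M}
    (h2 : ∀ v : M, v + v = 0 → v = 0) (hF : Fam N F) (hN : Nat.card H ≤ 3 * N) :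
    val F D = F n W G := by
  have h1 := card_le D
  have hc := h.card
  rw [SWT80.val_eq h2 hF hN D h.mem h.card, ← h.rd_eq]
  exact (hF.rel n (by omega)).iso _ _ _ _

end Enc

end Pool.Agent.SWT80
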