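import Mathlib
import Pool.Agent.SWT80.Mg

/-!
# The merging of two legs commutes with isomorphisms, reversals and the relation IHX
-/

set_option autoImplicit false

namespace Pool.Agent.SWT80

open Pool.Agent.SWT49

namespace Gr

variable {V W : Type} {n : ℕ}

/-! ### Isomorphisms -/

/-- The extension of an isomorphism to the new half-edges. -/
abbrev exm (φ : V ≃ W) : V ⊕ Bool ≃ W ⊕ Bool := Equiv.sumCongr φ (Equiv.refl Bool)

theorem mg_map (φ : V ≃ W) (G : Gr V (n + 1)) (i : Fin n) :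
    (G.mg i).map (exm φ) = (G.map φ).mg i := by
  refine map_eq ?_ ?_ ?_
  · rintro (v | t)
    · show Sum.inl ((G.map φ).e (φ v)) = _
      rw [map_e]
      rfl
    · rfl
  · rintro (v | t)
    · show ((G.map φ).mg i).r (Sum.inl (φ v)) = _
      by_cases h1 : v = G.leg i.castSucc
      · subst h1
        rw [mg_r_p]
        exact (G.map φ).mg_r_p i
      by_cases h2 : v = G.leg i.succ
      · subst h2
        rw [mg_r_q]
        exact (G.map φ).mg_r_q i
      rw [mg_r_o _ _ (fun h => h1 (φ.injective h)) (fun h => h2 (φ.injective h)),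
        mg_r_o _ _ h1 h2, map_r]
      rfl
    · cases t
      · rfl
      · rfl
  · intro k
    rw [mg_leg, mg_leg]
    rcases lt_trichotomy k i with h | h | h
    · rw [mgL_lt _ h, mgL_lt _ h]
      rfl
    · rw [h, mgL_self, mgL_self]
      rfl
    · rw [mgL_gt _ h, mgL_gt _ h]
      rfl

theorem ins_map (φ : V ≃ W) (G : Gr V (n + 1)) (i : Fin (n + 1)) (h : V) :
    (G.ins i h).map (exm φ) = (G.map φ).ins i (φ h) := by
  refine map_eq ?_ ?_ ?_
  · intro w
    rw [ins_e, ins_e]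
    rcases w with v | t
    · show (G.map φ).insE (φ h) (Sum.inl (φ v)) = _
      by_cases h1 : v = h
      · subst h1
        rw [insE_h, insE_h]
        rfl
      by_cases h2 : v = G.e h
      · subst h2
        rw [← map_e, insE_eh, insE_eh]
        rfl
      rw [insE_o _ (fun h' => h1 (φ.injective h'))
        (fun h' => h2 (φ.injective (h'.trans (G.map_e φ h)))), insE_o _ h1 h2, map_e]
      rfl
    · cases t
      · rfl
      · show Sum.inl ((G.map φ).e (φ h)) = _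
        rw [map_e]
        rfl
  · intro w
    rw [ins_r, ins_r]
    rcases w with v | t
    · show (G.map φ).insR ((G.map φ).leg i) (Sum.inl (φ v)) = _
      by_cases h1 : v = G.leg i
      · subst h1
        rw [insR_p]
        exact insR_p _
      have h2 : φ v ≠ (G.map φ).leg i := fun h' => h1 (φ.injective h')
      rw [insR_o _ h2, insR_o _ h1, map_r]
      rfl
    · cases t
      · rfl
      · rfl
  · intro k
    rfl

/-! ### Reversals -/

theorem leg_not_vt (G : Gr V n) {x : V} (hx : G.r x ≠ x) (i : Fin n) : ¬ G.vt x (G.leg i) := by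
  have h0 := G.r_leg i
  have h3 := G.r3 x
  rintro (h | h | h)
  · rw [h] at h0
    exact hx h0
  · rw [h] at h0
    exact hx (G.r_inj h0)
  · rw [h, h3] at h0
    apply hx
    have h4 := congrArg G.r h0
    rwa [h3] at h4

theorem vt_inner (G : Gr V n) {x v : V} (hx : G.r x ≠ x) (hv : G.vt x v) : G.r v ≠ v := by
  intro h
  obtain ⟨i, rfl⟩ := (G.fix v).1 h
  exact G.leg_not_vt hx i hv

theorem ne_leg (G : Gr V n) {x : V} (hx : G.r x ≠ x) (i : Fin n) : x ≠ G.leg i := fun h =>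
  G.leg_not_vt hx i (Or.inl h.symm)

theorem inner_r (G : Gr V n) {x : V} (hx : G.r x ≠ x) : G.r (G.r x) ≠ G.r x := fun h =>
  hx (G.r_inj h)

theorem mg_r_in (G : Gr V (n + 1)) (i : Fin n) {v : V} (hv : G.r v ≠ v) :
    (G.mg i).r (Sum.inl v) = Sum.inl (G.r v) :=
  G.mg_r_o i (G.ne_leg hv _) (G.ne_leg hv _)

theorem mg_vt (G : Gr V (n + 1)) (i : Fin n) {x : V} (hx : G.r x ≠ x) (w : V ⊕ Bool) :
    (G.mg i).vt (Sum.inl x) w ↔ ∃ v, w = Sum.inl v ∧ G.vt x v := by
  unfold vt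
  rw [G.mg_r_in i hx, G.mg_r_in i (G.inner_r hx)]
  constructor
  · rintro (h | h | h)
    · exact ⟨_, h, Or.inl rfl⟩
    · exact ⟨_, h, Or.inr (Or.inl rfl)⟩
    · exact ⟨_, h, Or.inr (Or.inr rfl)⟩
  · rintro ⟨v, h, h1 | h1 | h1⟩
    · exact Or.inl (h.trans (by rw [h1]))
    · exact Or.inr (Or.inl (h.trans (by rw [h1])))
    · exact Or.inr (Or.inr (h.trans (by rw [h1])))

theorem mg_flip (G : Gr V (n + 1)) (i : Fin n) {x : V} (hx : G.r x ≠ x) :
    (G.flip x).mg i = (G.mg i).flip (Sum.inl x) := by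
  refine Gr.ext rfl (Equiv.ext fun w => ?_) rfl
  rw [flip_r]
  by_cases hw : (G.mg i).vt (Sum.inl x) w
  · rw [fr_pos hw]
    obtain ⟨v, rfl, hv⟩ := (G.mg_vt i hx w).1 hw
    have hi := G.vt_inner hx hv
    rw [G.mg_r_in i hi, G.mg_r_in i (G.inner_r hi)]
    have h1 : (G.flip x).r v = G.r (G.r v) := by rw [flip_r, fr_pos hv]
    rw [← h1]
    apply mg_r_o
    · exact G.ne_leg hi _
    · exact G.ne_leg hi _
  · rw [fr_neg hw]
    rcases w with v | t
    · have hv : ¬ G.vt x v := fun h => hw ((G.mg_vt i hx _).2 ⟨v, rfl, h⟩)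
      by_cases h1 : v = G.leg i.castSucc
      · subst h1
        rw [mg_r_p]
        exact (G.flip x).mg_r_p i
      by_cases h2 : v = G.leg i.succ
      · subst h2
        rw [mg_r_q]
        exact (G.flip x).mg_r_q i
      rw [mg_r_o _ _ h1 h2, mg_r_o (G.flip x) _ h1 h2, flip_r, fr_neg hv]
    · cases t
      · rfl
      · rfl

/-! ### The relation IHX -/

theorem Ok.mg {G : Gr V (n + 1)} {x : V} (h : Ok G x) (i : Fin n) : Ok (G.mg i) (Sum.inl x) where
  ix := by
    rw [G.mg_r_in i h.ix]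
    exact fun h' => h.ix (Sum.inl.inj h')
  iy := by
    rw [mg_e_inl, G.mg_r_in i h.iy]
    exact fun h' => h.iy (Sum.inl.inj h')
  ya := by
    rw [mg_e_inl, G.mg_r_in i h.ix]
    exact fun h' => h.ya (Sum.inl.inj h')
  yb := by
    rw [mg_e_inl, G.mg_r_in i h.ix, G.mg_r_in i (G.inner_r h.ix)]
    exact fun h' => h.yb (Sum.inl.inj h')

theorem Loc.mg {I J X : Gr V (n + 1)} {x : V} (h : Loc I J X x) (i : Fin n) :
    Loc (I.mg i) (J.mg i) (X.mg i) (Sum.inl x) := by
  have ix := h.ok.ix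
  have iy := h.ok.iy
  have ia := I.inner_r ix
  have ib := I.inner_r ia
  have ic := I.inner_r iy
  have id := I.inner_r ic
  have mJ : ∀ v : V, I.r v ≠ v → (J.mg i).r (Sum.inl v) = Sum.inl (J.r v) := by
    intro v hv
    apply mg_r_o
    · rw [h.lJ]
      exact I.ne_leg hv _
    · rw [h.lJ]
      exact I.ne_leg hv _
  have mX : ∀ v : V, I.r v ≠ v → (X.mg i).r (Sum.inl v) = Sum.inl (X.r v) := by
    intro v hv
    apply mg_r_o
    · rw [h.lX]
      exact I.ne_leg hv _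
    · rw [h.lX]
      exact I.ne_leg hv _
  have e1 : (I.mg i).r (Sum.inl x) = Sum.inl (I.r x) := I.mg_r_in i ix
  have e2 : (I.mg i).r (Sum.inl (I.r x)) = Sum.inl (I.r (I.r x)) := I.mg_r_in i ia
  have e3 : (I.mg i).r (Sum.inl (I.e x)) = Sum.inl (I.r (I.e x)) := I.mg_r_in i iy
  have e4 : (I.mg i).r (Sum.inl (I.r (I.e x))) = Sum.inl (I.r (I.r (I.e x))) := I.mg_r_in i ic
  have e0 : (I.mg i).e (Sum.inl x) = Sum.inl (I.e x) := rfl
  refine ⟨h.ok.mg i, ?_, ?_, ?_, ?_, ?_, ?_, ?_, ?_, ?_, ?_, ?_, ?_, ?_, ?_, ?_, ?_, ?_⟩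
  · rw [e1, e2, mJ _ ix, h.j1]
  · rw [e1, e2, e0, e3, mJ _ ib, h.j2]
  · rw [e0, e3, mJ _ ic, h.j3]
  · rw [e0, e3, e4, mJ _ iy, h.j4]
  · rw [e0, e3, e4, e1, mJ _ id, h.j5]
  · rw [e1, e0, mJ _ ia, h.j6]
  · rw [e1, mX _ ix, h.x1]
  · rw [e1, e0, e3, mX _ ia, h.x2]
  · rw [e0, e3, mX _ ic, h.x3]
  · rw [e0, e3, e4, mX _ iy, h.x4]
  · rw [e0, e3, e4, e1, e2, mX _ id, h.x5]
  · rw [e1, e2, e0, mX _ ib, h.x6]
  · rintro (v | t) h1 h2
    · have g1 : ¬ I.vt x v := fun h' => h1 ((I.mg_vt i ix _).2 ⟨v, rfl, h'⟩)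
      have g2 : ¬ I.vt (I.e x) v := fun h' => h2 ((I.mg_vt i iy _).2 ⟨v, rfl, h'⟩)
      obtain ⟨o1, o2⟩ := h.oth v g1 g2
      by_cases k1 : v = I.leg i.castSucc
      · subst k1
        rw [mg_r_p]
        constructor
        · rw [← h.lJ]
          exact J.mg_r_p i
        · rw [← h.lX]
          exact X.mg_r_p i
      by_cases k2 : v = I.leg i.succ
      · subst k2
        rw [mg_r_q]
        constructor
        · rw [← h.lJ]
          exact J.mg_r_q i
        · rw [← h.lX]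
          exact X.mg_r_q i
      rw [mg_r_o _ _ k1 k2]
      constructor
      · rw [mg_r_o _ _ (by rw [h.lJ]; exact k1) (by rw [h.lJ]; exact k2), o1]
      · rw [mg_r_o _ _ (by rw [h.lX]; exact k1) (by rw [h.lX]; exact k2), o2]
    · cases t
      · constructor
        · rw [mg_r_x, mg_r_x, h.lJ]
        · rw [mg_r_x, mg_r_x, h.lX]
      · exact ⟨rfl, rfl⟩
  · refine Equiv.ext fun w => ?_
    rcases w with v | t
    · rw [mg_e_inl, mg_e_inl, h.eJ]
    · rfl
  · refine Equiv.ext fun w => ?_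
    rcases w with v | t
    · rw [mg_e_inl, mg_e_inl, h.eX]
    · rfl
  · funext k
    rw [mg_leg, mg_leg]
    unfold mgL
    rw [h.lJ]
  · funext k
    rw [mg_leg, mg_leg]
    unfold mgL
    rw [h.lX]

theorem Loc.map {I J X : Gr V n} {x : V} (h : Loc I J X x) (φ : V ≃ W) :
    Loc (I.map φ) (J.map φ) (X.map φ) (φ x) := by
  have vtm : ∀ x v : V, (I.map φ).vt (φ x) (φ v) ↔ I.vt x v := by
    intro x v
    unfold vt
    rw [map_r, map_r, φ.apply_eq_iff_eq, φ.apply_eq_iff_eq, φ.apply_eq_iff_eq]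
  refine ⟨⟨?_, ?_, ?_, ?_⟩, ?_, ?_, ?_, ?_, ?_, ?_, ?_, ?_, ?_, ?_, ?_, ?_, ?_, ?_, ?_, ?_, ?_⟩
  · rw [map_r]
    exact fun h' => h.ok.ix (φ.injective h')
  · rw [map_e, map_r]
    exact fun h' => h.ok.iy (φ.injective h')
  · rw [map_e, map_r]
    exact fun h' => h.ok.ya (φ.injective h')
  · rw [map_e, map_r, map_r]
    exact fun h' => h.ok.yb (φ.injective h')
  · rw [map_r, map_r, map_r, h.j1]
  · rw [map_e, map_r, map_r, map_r, map_r, h.j2]
  · rw [map_e, map_r, map_r, h.j3]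
  · rw [map_e, map_r, map_r, map_r, h.j4]
  · rw [map_e, map_r, map_r, map_r, map_r, h.j5]
  · rw [map_e, map_r, map_r, h.j6]
  · rw [map_r, map_r, h.x1]
  · rw [map_e, map_r, map_r, map_r, h.x2]
  · rw [map_e, map_r, map_r, h.x3]
  · rw [map_e, map_r, map_r, map_r, h.x4]
  · rw [map_e, map_r, map_r, map_r, map_r, map_r, h.x5]
  · rw [map_e, map_r, map_r, map_r, h.x6]
  · intro w h1 h2
    obtain ⟨v, rfl⟩ := φ.surjective w
    rw [map_e] at h2
    obtain ⟨o1, o2⟩ := h.oth v (fun h' => h1 ((vtm _ _).2 h')) (fun h' => h2 ((vtm _ _).2 h'))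
    rw [map_r, map_r, map_r, o1, o2]
    exact ⟨rfl, rfl⟩
  · refine Equiv.ext fun w => ?_
    obtain ⟨v, rfl⟩ := φ.surjective w
    rw [map_e, map_e, h.eJ]
  · refine Equiv.ext fun w => ?_
    obtain ⟨v, rfl⟩ := φ.surjective w
    rw [map_e, map_e, h.eX]
  · funext k
    rw [map_leg, map_leg, h.lJ]
  · funext k
    rw [map_leg, map_leg, h.lX]

end Gr

end Pool.Agent.SWT80
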