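import Mathlib
import Pool.Agent.SWT80.Maps

/-!
# The differences prescribed by STU form a closed 1-form

For a functional `F` on the based graphs with `n` legs which satisfies AS, IHX and STU (with a
functional `F'` on the graphs with `n - 1` legs), the function `G ↦ F (G.mg i)` on the graphs with
`n + 1` legs is closed: it satisfies the conditions of `SWT49.Closed`.
-/

set_option autoImplicit false

namespace Pool.Agent.SWT80

open Pool.Agent.SWT49

namespace Gr

variable {V W : Type} {n : ℕ}

theorem s_apply_of_ne {i : Fin n} {k : Fin (n + 1)} (h1 : k ≠ i.castSucc) (h2 : k ≠ i.succ) :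
    s i k = k := Equiv.swap_apply_of_ne_of_ne h1 h2

theorem s_leg_ne {i : Fin n} {k : Fin (n + 1)} (G : Gr V (n + 1)) (h1 : k ≠ i.castSucc)
    (h2 : k ≠ i.succ) : (s i • G).leg k = G.leg k := by
  rw [s_smul_leg, s_apply_of_ne h1 h2]

/-- Two merged graphs agree if the merged legs agree in their order and the other legs agree. -/
theorem mg_r_congr {G G' : Gr V (n + 1)} {i i' : Fin n} (hr : G'.r = G.r)
    (hp : G'.leg i'.castSucc = G.leg i.castSucc) (hq : G'.leg i'.succ = G.leg i.succ) :
    (G'.mg i').r = (G.mg i).r := by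
  refine Equiv.ext fun w => ?_
  rw [mg_r, mg_r, hp, hq]
  unfold mgR
  rw [hr]

theorem mg_e_congr {G G' : Gr V (n + 1)} {i i' : Fin n} (he : G'.e = G.e) :
    (G'.mg i').e = (G.mg i).e := by
  refine Equiv.ext fun w => ?_
  rcases w with v | t
  · rw [mg_e_inl, mg_e_inl, he]
  · rfl

/-! ### Inversion of the order -/

theorem mg_s (G : Gr V (n + 1)) (i : Fin n) : (s i • G).mg i = (G.mg i).flip (Sum.inr false) := by
  have hne := cs_ne i
  have g1 : (s i • G).leg i.castSucc = G.leg i.succ := s_smul_castSucc i G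
  have g2 : (s i • G).leg i.succ = G.leg i.castSucc := s_smul_succ i G
  have hpq : G.leg i.castSucc ≠ G.leg i.succ := G.leg_ne hne
  have vt_iff : ∀ w, (G.mg i).vt (Sum.inr false) w ↔
      w = Sum.inr false ∨ w = Sum.inl (G.leg i.succ) ∨ w = Sum.inl (G.leg i.castSucc) := by
    intro w
    unfold vt
    rw [mg_r_x, mg_r_q]
  refine Gr.ext (mg_e_congr (i := i) (i' := i) rfl) (Equiv.ext fun w => ?_) (funext fun k => ?_)
  · rw [flip_r]
    by_cases hw : (G.mg i).vt (Sum.inr false) w
    · rw [fr_pos hw]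
      have x1 : (G.mg i).r (Sum.inr false) = Sum.inl (G.leg i.succ) := mg_r_x _ _
      have x2 := G.mg_r_q i
      have x3 := G.mg_r_p i
      have y1 : ((s i • G).mg i).r (Sum.inr false) = Sum.inl (G.leg i.castSucc) := by
        rw [mg_r_x, g2]
      have y2 : ((s i • G).mg i).r (Sum.inl (G.leg i.castSucc)) = Sum.inl (G.leg i.succ) := by
        rw [← g1, ← g2]
        exact mg_r_q _ _
      have y3 : ((s i • G).mg i).r (Sum.inl (G.leg i.succ)) = Sum.inr false := by
        rw [← g1]
        exact mg_r_p _ _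
      rcases (vt_iff w).1 hw with rfl | rfl | rfl
      · rw [y1, x1, x2]
      · rw [y3, x2, x3]
      · rw [y2, x3, x1]
    · rw [fr_neg hw]
      rcases w with v | t
      · have h1 : v ≠ G.leg i.castSucc := fun h => hw ((vt_iff _).2 (Or.inr (Or.inr (by rw [h]))))
        have h2 : v ≠ G.leg i.succ := fun h => hw ((vt_iff _).2 (Or.inr (Or.inl (by rw [h]))))
        rw [mg_r_o _ _ h1 h2, mg_r_o _ _ (by rw [g1]; exact h2) (by rw [g2]; exact h1)]
        rfl
      · cases t
        · exact absurd (Or.inl rfl) hw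
        · rfl
  · show (s i • G).mgL i k = G.mgL i k
    rcases lt_trichotomy k i with h | h | h
    · rw [mgL_lt _ h, mgL_lt _ h, s_leg_ne]
      · intro h'
        exact absurd (Fin.castSucc_injective _ h') h.ne
      · intro h'
        have := congrArg Fin.val h'
        rw [Fin.lt_def] at h
        simp at this
        omega
    · rw [h, mgL_self, mgL_self]
    · rw [mgL_gt _ h, mgL_gt _ h, s_leg_ne]
      · intro h'
        have := congrArg Fin.val h'
        rw [Fin.lt_def] at h
        simp at this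
        omega
      · intro h'
        exact absurd (Fin.succ_injective _ h') h.ne'

/-! ### Distant pairs of legs -/

section Far

variable {m : ℕ} (G : Gr V (m + 2)) {i j : Fin (m + 1)} {i' j' : Fin m}

theorem far_ne (h : i.val + 1 < j.val) : i.castSucc ≠ j.castSucc ∧ i.castSucc ≠ j.succ ∧
    i.succ ≠ j.castSucc ∧ i.succ ≠ j.succ := by
  refine ⟨?_, ?_, ?_, ?_⟩ <;> intro h' <;> have := congrArg Fin.val h' <;> simp at this <;> omega

theorem mg_s_far (h : i.val + 1 < j.val) (hj : j'.val + 1 = j.val) :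
    (s j • G).mg i = s j' • G.mg i := by
  obtain ⟨n1, n2, n3, n4⟩ := far_ne h
  refine Gr.ext ?_ ?_ (funext fun k => ?_)
  · rw [smul_e]
    exact mg_e_congr rfl
  · rw [smul_r]
    exact mg_r_congr rfl (s_leg_ne G n1 n2) (s_leg_ne G n3 n4)
  · rw [s_smul_leg, mg_leg, mg_leg]
    have c1 : j'.castSucc.succ = j.castSucc := Fin.ext (by simp [hj])
    have c2 : j'.succ.succ = j.succ := Fin.ext (by simp [hj])
    have l1 : i < j'.castSucc := by rw [Fin.lt_def]; simp; omega
    have l2 : i < j'.succ := by rw [Fin.lt_def]; simp; omega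
    by_cases k1 : k = j'.castSucc
    · rw [k1, s_castSucc, mgL_gt _ l1, mgL_gt _ l2, c1, c2, s_smul_castSucc]
    by_cases k2 : k = j'.succ
    · rw [k2, s_succ, mgL_gt _ l1, mgL_gt _ l2, c1, c2, s_smul_succ]
    rw [s_apply_of_ne k1 k2]
    rcases lt_trichotomy k i with hk | hk | hk
    · rw [mgL_lt _ hk, mgL_lt _ hk, s_leg_ne]
      · intro h'
        have := congrArg Fin.val h'
        rw [Fin.lt_def] at hk
        simp at this
        omega
      · intro h'
        have := congrArg Fin.val h'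
        rw [Fin.lt_def] at hk
        simp at this
        omega
    · rw [hk, mgL_self, mgL_self]
    · rw [mgL_gt _ hk, mgL_gt _ hk, s_leg_ne]
      · intro h'
        rw [← c1] at h'
        exact k1 (Fin.succ_injective _ h')
      · intro h'
        rw [← c2] at h'
        exact k2 (Fin.succ_injective _ h')

theorem mg_s_far' (h : i.val + 1 < j.val) (hi : i'.val = i.val) :
    (s i • G).mg j = s i' • G.mg j := by
  obtain ⟨n1, n2, n3, n4⟩ := far_ne h
  refine Gr.ext ?_ ?_ (funext fun k => ?_)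
  · rw [smul_e]
    exact mg_e_congr rfl
  · rw [smul_r]
    exact mg_r_congr rfl (s_leg_ne G n1.symm n3.symm) (s_leg_ne G n2.symm n4.symm)
  · rw [s_smul_leg, mg_leg, mg_leg]
    have c1 : i'.castSucc.castSucc = i.castSucc := Fin.ext (by simp [hi])
    have c2 : i'.succ.castSucc = i.succ := Fin.ext (by simp [hi])
    have l1 : i'.castSucc < j := by rw [Fin.lt_def]; simp; omega
    have l2 : i'.succ < j := by rw [Fin.lt_def]; simp; omega
    by_cases k1 : k = i'.castSucc
    · rw [k1, s_castSucc, mgL_lt _ l1, mgL_lt _ l2, c1, c2, s_smul_castSucc]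
    by_cases k2 : k = i'.succ
    · rw [k2, s_succ, mgL_lt _ l1, mgL_lt _ l2, c1, c2, s_smul_succ]
    rw [s_apply_of_ne k1 k2]
    rcases lt_trichotomy k j with hk | hk | hk
    · rw [mgL_lt _ hk, mgL_lt _ hk, s_leg_ne]
      · intro h'
        rw [← c1] at h'
        exact k1 (Fin.castSucc_injective _ h')
      · intro h'
        rw [← c2] at h'
        exact k2 (Fin.castSucc_injective _ h')
    · rw [hk, mgL_self, mgL_self]
    · rw [mgL_gt _ hk, mgL_gt _ hk, s_leg_ne]
      · intro h'
        have := congrArg Fin.val h'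
        rw [Fin.lt_def] at hk
        simp at this
        omega
      · intro h'
        have := congrArg Fin.val h'
        rw [Fin.lt_def] at hk
        simp at this
        omega

/-- The exchange of the two pairs of new half-edges. -/
def exch (V : Type) : (V ⊕ Bool) ⊕ Bool ≃ (V ⊕ Bool) ⊕ Bool where
  toFun w := match w with
    | Sum.inl (Sum.inl v) => Sum.inl (Sum.inl v)
    | Sum.inl (Sum.inr t) => Sum.inr t
    | Sum.inr t => Sum.inl (Sum.inr t)
  invFun w := match w with
    | Sum.inl (Sum.inl v) => Sum.inl (Sum.inl v)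
    | Sum.inl (Sum.inr t) => Sum.inr t
    | Sum.inr t => Sum.inl (Sum.inr t)
  left_inv w := by rcases w with (v | t) | t <;> rfl
  right_inv w := by rcases w with (v | t) | t <;> rfl

theorem mg_mg_far (h : i.val + 1 < j.val) (hi : i'.val = i.val) (hj : j'.val + 1 = j.val) :
    ((G.mg i).mg j').map (exch V) = (G.mg j).mg i' := by
  obtain ⟨n1, n2, n3, n4⟩ := far_ne h
  have c1 : j'.castSucc.succ = j.castSucc := Fin.ext (by simp [hj])
  have c2 : j'.succ.succ = j.succ := Fin.ext (by simp [hj])
  have l1 : i < j'.castSucc := by rw [Fin.lt_def]; simp; omega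
  have l2 : i < j'.succ := by rw [Fin.lt_def]; simp; omega
  have d1 : i'.castSucc.castSucc = i.castSucc := Fin.ext (by simp [hi])
  have d2 : i'.succ.castSucc = i.succ := Fin.ext (by simp [hi])
  have m1 : i'.castSucc < j := by rw [Fin.lt_def]; simp; omega
  have m2 : i'.succ < j := by rw [Fin.lt_def]; simp; omega
  have a1 : (G.mg i).leg j'.castSucc = Sum.inl (G.leg j.castSucc) := by
    rw [mg_leg, mgL_gt _ l1, c1]
  have a2 : (G.mg i).leg j'.succ = Sum.inl (G.leg j.succ) := by
    rw [mg_leg, mgL_gt _ l2, c2]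
  have b1 : (G.mg j).leg i'.castSucc = Sum.inl (G.leg i.castSucc) := by
    rw [mg_leg, mgL_lt _ m1, d1]
  have b2 : (G.mg j).leg i'.succ = Sum.inl (G.leg i.succ) := by
    rw [mg_leg, mgL_lt _ m2, d2]
  have e1 := G.leg_ne n1
  have e2 := G.leg_ne n2
  have e3 := G.leg_ne n3
  have e4 := G.leg_ne n4
  have ec := G.leg_ne (cs_ne i)
  have ed := G.leg_ne (cs_ne j)
  have pA : ((G.mg j).mg i').r (Sum.inl (Sum.inl (G.leg i.castSucc))) = Sum.inr false := by
    rw [← b1]
    exact mg_r_p _ _
  have pB : ((G.mg j).mg i').r (Sum.inl (Sum.inl (G.leg i.succ))) =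
      Sum.inl (Sum.inl (G.leg i.castSucc)) := by
    rw [← b1, ← b2]
    exact mg_r_q _ _
  have pC : ((G.mg i).mg j').r (Sum.inl (Sum.inl (G.leg j.castSucc))) = Sum.inr false := by
    rw [← a1]
    exact mg_r_p _ _
  have pD : ((G.mg i).mg j').r (Sum.inl (Sum.inl (G.leg j.succ))) =
      Sum.inl (Sum.inl (G.leg j.castSucc)) := by
    rw [← a1, ← a2]
    exact mg_r_q _ _
  have oA : ∀ w : V ⊕ Bool, w ≠ Sum.inl (G.leg i.castSucc) → w ≠ Sum.inl (G.leg i.succ) →
      ((G.mg j).mg i').r (Sum.inl w) = Sum.inl ((G.mg j).r w) := by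
    intro w h1 h2
    exact mg_r_o _ _ (by rw [b1]; exact h1) (by rw [b2]; exact h2)
  have oB : ∀ w : V ⊕ Bool, w ≠ Sum.inl (G.leg j.castSucc) → w ≠ Sum.inl (G.leg j.succ) →
      ((G.mg i).mg j').r (Sum.inl w) = Sum.inl ((G.mg i).r w) := by
    intro w h1 h2
    exact mg_r_o _ _ (by rw [a1]; exact h1) (by rw [a2]; exact h2)
  have inj : ∀ {u v : V}, u ≠ v → (Sum.inl u : V ⊕ Bool) ≠ Sum.inl v := fun h h' =>
    h (Sum.inl.inj h')
  refine map_eq ?_ ?_ ?_
  · rintro ((v | t) | t) <;> rfl
  · rintro ((v | t) | t)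
    · show ((G.mg j).mg i').r (Sum.inl (Sum.inl v)) = _
      by_cases v1 : v = G.leg i.castSucc
      · subst v1
        rw [pA, oB _ (inj e1) (inj e2), mg_r_p]
        rfl
      by_cases v2 : v = G.leg i.succ
      · subst v2
        rw [pB, oB _ (inj e3) (inj e4), mg_r_q]
        rfl
      by_cases v3 : v = G.leg j.castSucc
      · subst v3
        rw [pC, oA _ (inj e1.symm) (inj e3.symm), mg_r_p]
        rfl
      by_cases v4 : v = G.leg j.succ
      · subst v4
        rw [pD, oA _ (inj e2.symm) (inj e4.symm), mg_r_q]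
        rfl
      rw [oA _ (inj v1) (inj v2), oB _ (inj v3) (inj v4), mg_r_o _ _ v3 v4, mg_r_o _ _ v1 v2]
      rfl
    · cases t
      · show ((G.mg j).mg i').r (Sum.inr false) = _
        rw [mg_r_x, b2, oB _ Sum.inr_ne_inl Sum.inr_ne_inl, mg_r_x]
        rfl
      · show ((G.mg j).mg i').r (Sum.inr true) = _
        rw [mg_r_y, oB _ Sum.inr_ne_inl Sum.inr_ne_inl, mg_r_y]
        rfl
    · cases t
      · show ((G.mg j).mg i').r (Sum.inl (Sum.inr false)) = _
        rw [mg_r_x, oA _ Sum.inr_ne_inl Sum.inr_ne_inl, mg_r_x, a2]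
        rfl
      · show ((G.mg j).mg i').r (Sum.inl (Sum.inr true)) = _
        rw [mg_r_y, oA _ Sum.inr_ne_inl Sum.inr_ne_inl, mg_r_y]
        rfl
  · intro k
    rw [mg_leg, mg_leg]
    rcases lt_trichotomy k i' with hk | hk | hk
    · have k1 : k < j' := by rw [Fin.lt_def] at hk ⊢; omega
      have k2 : k.castSucc < i := by rw [Fin.lt_def] at hk ⊢; simp; omega
      have k3 : k.castSucc < j := by rw [Fin.lt_def] at hk ⊢; simp; omega
      rw [mgL_lt _ hk, mgL_lt _ k1, mg_leg, mg_leg, mgL_lt _ k2, mgL_lt _ k3]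
      rfl
    · subst hk
      have k1 : k < j' := by rw [Fin.lt_def]; omega
      have k2 : k.castSucc = i := Fin.ext (by simp [hi])
      rw [mgL_self, mgL_lt _ k1, mg_leg, k2, mgL_self]
      rfl
    · rcases lt_trichotomy k j' with hk2 | hk2 | hk2
      · have k2 : i < k.castSucc := by rw [Fin.lt_def] at hk ⊢; simp; omega
        have k3 : k.succ < j := by rw [Fin.lt_def] at hk2 ⊢; simp; omega
        rw [mgL_gt _ hk, mgL_lt _ hk2, mg_leg, mg_leg, mgL_gt _ k2, mgL_lt _ k3]
        rfl
      · subst hk2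
        have k3 : k.succ = j := Fin.ext (by simp [hj])
        rw [mgL_gt _ hk, mgL_self, mg_leg, k3, mgL_self]
        rfl
      · have k2 : i < k.succ := by rw [Fin.lt_def] at hk ⊢; simp; omega
        have k3 : j < k.succ := by rw [Fin.lt_def] at hk2 ⊢; simp; omega
        rw [mgL_gt _ hk, mgL_gt _ hk2, mg_leg, mg_leg, mgL_gt _ k2, mgL_gt _ k3]
        rfl

end Far

end Gr

end Pool.Agent.SWT80
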