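import Mathlib
import Pool.Agent.SWT80.Closed

/-!
# The hexagon: three adjacent legs
-/

set_option autoImplicit false

namespace Pool.Agent.SWT80

open Pool.Agent.SWT49

namespace Gr

variable {V : Type} {n : ℕ}

theorem flip_cyc (G : Gr V n) {x a b : V} (h1 : G.r x = a) (h2 : G.r a = b) (h3 : G.r b = x) :
    (G.flip x).r x = b ∧ (G.flip x).r b = a ∧ (G.flip x).r a = x ∧
      ∀ v, v ≠ x → v ≠ a → v ≠ b → (G.flip x).r v = G.r v := by
  subst h1
  subst h2
  have v0 : G.vt x x := Or.inl rfl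
  have v1 : G.vt x (G.r x) := Or.inr (Or.inl rfl)
  have v2 : G.vt x (G.r (G.r x)) := Or.inr (Or.inr rfl)
  refine ⟨?_, ?_, ?_, ?_⟩
  · rw [flip_r, fr_pos v0]
  · rw [flip_r, fr_pos v2, G.r3]
  · rw [flip_r, fr_pos v1, G.r3]
  · intro v n1 n2 n3
    rw [flip_r, fr_neg]
    rintro (h | h | h)
    · exact n1 h
    · exact n2 h
    · exact n3 h

/-- The graph obtained from `G` by joining the leg `c` to the joined legs `a`, `b`. -/
structure Tri {m : ℕ} (K : Gr ((V ⊕ Bool) ⊕ Bool) m) (G : Gr V (m + 2)) (a b c : V) : Prop where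
  ra : K.r (Sum.inl (Sum.inl a)) = Sum.inl (Sum.inr false)
  rb : K.r (Sum.inl (Sum.inl b)) = Sum.inl (Sum.inl a)
  rx : K.r (Sum.inl (Sum.inr false)) = Sum.inl (Sum.inl b)
  ry : K.r (Sum.inl (Sum.inr true)) = Sum.inr false
  rz : K.r (Sum.inr false) = Sum.inl (Sum.inl c)
  rc : K.r (Sum.inl (Sum.inl c)) = Sum.inl (Sum.inr true)
  rw : K.r (Sum.inr true) = Sum.inr true
  ro : ∀ v, v ≠ a → v ≠ b → v ≠ c → K.r (Sum.inl (Sum.inl v)) = Sum.inl (Sum.inl (G.r v))
  ev : ∀ v, K.e (Sum.inl (Sum.inl v)) = Sum.inl (Sum.inl (G.e v))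
  ex : ∀ t, K.e (Sum.inl (Sum.inr t)) = Sum.inl (Sum.inr (!t))
  ez : ∀ t, K.e (Sum.inr t) = Sum.inr (!t)

section Hex

variable {m : ℕ} (G : Gr V (m + 2)) {i j : Fin (m + 1)} {i' : Fin m}

theorem tri (hi : i'.val = i.val) (hj : j.val = i.val + 1) :
    Tri ((G.mg i).mg i') G (G.leg i.castSucc) (G.leg i.succ) (G.leg j.succ) := by
  have c1 : i'.castSucc = i := Fin.ext (by simp [hi])
  have l1 : i < i'.succ := by rw [Fin.lt_def]; simp [hi]
  have c2 : i'.succ.succ = j.succ := Fin.ext (by simp [hi, hj])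
  have p' : (G.mg i).leg i'.castSucc = Sum.inr true := by rw [mg_leg, c1, mgL_self]
  have q' : (G.mg i).leg i'.succ = Sum.inl (G.leg j.succ) := by rw [mg_leg, mgL_gt _ l1, c2]
  have n12 : G.leg i.castSucc ≠ G.leg i.succ := G.leg_ne (cs_ne i)
  have n13 : G.leg i.castSucc ≠ G.leg j.succ := G.leg_ne (by
    intro h
    have := congrArg Fin.val h
    simp at this
    omega)
  have n23 : G.leg i.succ ≠ G.leg j.succ := G.leg_ne (by
    intro h
    have := congrArg Fin.val h
    simp at this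
    omega)
  have inj : ∀ {u v : V}, u ≠ v → (Sum.inl u : V ⊕ Bool) ≠ Sum.inl v := fun h h' =>
    h (Sum.inl.inj h')
  have oo : ∀ w : V ⊕ Bool, w ≠ Sum.inr true → w ≠ Sum.inl (G.leg j.succ) →
      ((G.mg i).mg i').r (Sum.inl w) = Sum.inl ((G.mg i).r w) := by
    intro w h1 h2
    exact mg_r_o _ _ (by rw [p']; exact h1) (by rw [q']; exact h2)
  refine ⟨?_, ?_, ?_, ?_, ?_, ?_, rfl, ?_, fun _ => rfl, fun _ => rfl, fun _ => rfl⟩
  · rw [oo _ Sum.inl_ne_inr (inj n13), mg_r_p]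
  · rw [oo _ Sum.inl_ne_inr (inj n23), mg_r_q]
  · rw [oo _ (by simp) Sum.inr_ne_inl, mg_r_x]
  · rw [← p']
    exact mg_r_p _ _
  · rw [mg_r_x, q']
  · rw [← p', ← q']
    exact mg_r_q _ _
  · intro v h1 h2 h3
    rw [oo _ Sum.inl_ne_inr (inj h3), mg_r_o _ _ h1 h2]

theorem leg3 (hi : i'.val = i.val) (k : Fin m) : ((G.mg i).mg i').leg k =
    if k < i' then Sum.inl (Sum.inl (G.leg k.castSucc.castSucc)) else
      if k = i' then Sum.inr true else Sum.inl (Sum.inl (G.leg k.succ.succ)) := by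
  rw [mg_leg]
  rcases lt_trichotomy k i' with h | h | h
  · have h2 : k.castSucc < i := by rw [Fin.lt_def] at h ⊢; simp; omega
    rw [mgL_lt _ h, if_pos h, mg_leg, mgL_lt _ h2]
  · rw [h, mgL_self, if_neg (lt_irrefl i'), if_pos rfl]
  · have h2 : i < k.succ := by rw [Fin.lt_def] at h ⊢; simp; omega
    rw [mgL_gt _ h, if_neg (not_lt.2 h.le), if_neg h.ne', mg_leg, mgL_gt _ h2]

/-- `3 [1 2]` from the arrangement `3, 1, 2`. -/
theorem mg_cyc (hi : i'.val = i.val) (hj : j.val = i.val + 1) :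
    (s i • s j • G).mg j = s i' • G.mg i := by
  have cc : j.castSucc = i.succ := Fin.ext (by simp [hj])
  have c1 : i'.castSucc = i := Fin.ext (by simp [hi])
  have c2 : i'.succ = j := Fin.ext (by simp [hi, hj])
  have s1 : s j i.castSucc = i.castSucc := s_apply_of_ne
    (by intro h; have := congrArg Fin.val h; simp at this; omega)
    (by intro h; have := congrArg Fin.val h; simp at this; omega)
  have s2 : s i j.succ = j.succ := s_apply_of_ne
    (by intro h; have := congrArg Fin.val h; simp at this; omega)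
    (by intro h; have := congrArg Fin.val h; simp at this; omega)
  have g1 : (s i • s j • G).leg j.castSucc = G.leg i.castSucc := by
    rw [s_smul_leg, s_smul_leg, cc, s_succ, s1]
  have g2 : (s i • s j • G).leg j.succ = G.leg i.succ := by
    rw [s_smul_leg, s_smul_leg, s2, s_succ, cc]
  have g3 : (s i • s j • G).leg i.castSucc = G.leg j.succ := by
    rw [s_smul_leg, s_smul_leg, s_castSucc, ← cc, s_castSucc]
  have go : ∀ k : Fin (m + 2), k ≠ i.castSucc → k ≠ i.succ → k ≠ j.succ →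
      (s i • s j • G).leg k = G.leg k := by
    intro k h1 h2 h3
    rw [s_smul_leg, s_smul_leg, s_apply_of_ne h1 h2, s_apply_of_ne (by rw [cc]; exact h2) h3]
  refine Gr.ext ?_ ?_ (funext fun k => ?_)
  · rw [smul_e]
    exact mg_e_congr rfl
  · rw [smul_r]
    exact mg_r_congr rfl g1 g2
  · rw [s_smul_leg, mg_leg, mg_leg]
    rcases lt_trichotomy k i with h | h | h
    · have h1 : k < j := by rw [Fin.lt_def] at h ⊢; omega
      rw [s_apply_of_ne (i := i') (by rw [c1]; exact h.ne)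
        (by rw [c2]; exact h1.ne), mgL_lt _ h1, mgL_lt _ h, go]
      · intro h'
        exact h.ne (Fin.castSucc_injective _ h')
      · intro h'
        have := congrArg Fin.val h'
        rw [Fin.lt_def] at h
        simp at this
        omega
      · intro h'
        have := congrArg Fin.val h'
        rw [Fin.lt_def] at h
        simp at this
        omega
    · have h1 : k < j := by rw [h, Fin.lt_def]; omega
      have h2 : i < j := by rw [Fin.lt_def]; omega
      rw [mgL_lt _ h1, h, g3]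
      conv_rhs => rw [← c1, s_castSucc, c2]
      rw [c1, mgL_gt _ h2]
    · rcases lt_trichotomy k j with h1 | h1 | h1
      · exfalso
        rw [Fin.lt_def] at h h1
        omega
      · rw [h1, mgL_self]
        conv_rhs => rw [← c2, s_succ, c1]
        rw [mgL_self]
      · rw [s_apply_of_ne (i := i') (by rw [c1]; exact h.ne') (by rw [c2]; exact h1.ne'),
          mgL_gt _ h1, mgL_gt _ h, go]
        · intro h'
          have := congrArg Fin.val h'
          rw [Fin.lt_def] at h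
          simp at this
          omega
        · intro h'
          exact h.ne' (Fin.succ_injective _ h')
        · intro h'
          exact h1.ne' (Fin.succ_injective _ h')

end Hex

/-- The exchange of the two ends of the first new edge. -/
def psi (V : Type) : (V ⊕ Bool) ⊕ Bool ≃ (V ⊕ Bool) ⊕ Bool where
  toFun w := match w with
    | Sum.inl (Sum.inl v) => Sum.inl (Sum.inl v)
    | Sum.inl (Sum.inr t) => Sum.inl (Sum.inr (!t))
    | Sum.inr t => Sum.inr t
  invFun w := match w with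
    | Sum.inl (Sum.inl v) => Sum.inl (Sum.inl v)
    | Sum.inl (Sum.inr t) => Sum.inl (Sum.inr (!t))
    | Sum.inr t => Sum.inr t
  left_inv w := by rcases w with (v | t) | t <;> simp
  right_inv w := by rcases w with (v | t) | t <;> simp

theorem psi_v (V : Type) (v : V) : psi V (Sum.inl (Sum.inl v)) = Sum.inl (Sum.inl v) := rfl

theorem psi_t (V : Type) (t : Bool) :
    psi V (Sum.inl (Sum.inr t)) = Sum.inl (Sum.inr (!t)) := rfl

theorem psi_z (V : Type) (t : Bool) : psi V (Sum.inr t) = Sum.inr t := rfl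

section Jac

variable {m : ℕ} {G : Gr V (m + 2)} {a b c : V} {K : Gr ((V ⊕ Bool) ⊕ Bool) m}

/-- The values after the exchange and the reversal of the vertex of `x`. -/
theorem tri_psi (h : Tri K G a b c) (nab : a ≠ b) (nac : a ≠ c) (nbc : b ≠ c) :
    ((K.map (psi V)).flip (Sum.inl (Sum.inr false))).r (Sum.inl (Sum.inr false)) =
      Sum.inl (Sum.inl c) ∧
    ((K.map (psi V)).flip (Sum.inl (Sum.inr false))).r (Sum.inl (Sum.inl c)) = Sum.inr false ∧
    ((K.map (psi V)).flip (Sum.inl (Sum.inr false))).r (Sum.inr false) =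
      Sum.inl (Sum.inr false) ∧
    ((K.map (psi V)).flip (Sum.inl (Sum.inr false))).r (Sum.inl (Sum.inr true)) =
      Sum.inl (Sum.inl b) ∧
    ((K.map (psi V)).flip (Sum.inl (Sum.inr false))).r (Sum.inl (Sum.inl b)) =
      Sum.inl (Sum.inl a) ∧
    ((K.map (psi V)).flip (Sum.inl (Sum.inr false))).r (Sum.inl (Sum.inl a)) =
      Sum.inl (Sum.inr true) ∧
    ((K.map (psi V)).flip (Sum.inl (Sum.inr false))).r (Sum.inr true) = Sum.inr true ∧
    ∀ v, v ≠ a → v ≠ b → v ≠ c →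
      ((K.map (psi V)).flip (Sum.inl (Sum.inr false))).r (Sum.inl (Sum.inl v)) =
        Sum.inl (Sum.inl (G.r v)) := by
  have hm : ∀ w, (K.map (psi V)).r (psi V w) = psi V (K.r w) := K.map_r (psi V)
  have e1 : (K.map (psi V)).r (Sum.inl (Sum.inr false)) = Sum.inr false := by
    have := hm (Sum.inl (Sum.inr true))
    rw [h.ry] at this
    exact this
  have e2 : (K.map (psi V)).r (Sum.inr false) = Sum.inl (Sum.inl c) := by
    have := hm (Sum.inr false)
    rw [h.rz] at this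
    exact this
  have e3 : (K.map (psi V)).r (Sum.inl (Sum.inl c)) = Sum.inl (Sum.inr false) := by
    have := hm (Sum.inl (Sum.inl c))
    rw [h.rc] at this
    exact this
  have e4 : (K.map (psi V)).r (Sum.inl (Sum.inr true)) = Sum.inl (Sum.inl b) := by
    have := hm (Sum.inl (Sum.inr false))
    rw [h.rx] at this
    exact this
  have e5 : (K.map (psi V)).r (Sum.inl (Sum.inl b)) = Sum.inl (Sum.inl a) := by
    have := hm (Sum.inl (Sum.inl b))
    rw [h.rb] at this
    exact this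
  have e6 : (K.map (psi V)).r (Sum.inl (Sum.inl a)) = Sum.inl (Sum.inr true) := by
    have := hm (Sum.inl (Sum.inl a))
    rw [h.ra] at this
    exact this
  have e7 : (K.map (psi V)).r (Sum.inr true) = Sum.inr true := by
    have := hm (Sum.inr true)
    rw [h.rw] at this
    exact this
  have e8 : ∀ v, v ≠ a → v ≠ b → v ≠ c → (K.map (psi V)).r (Sum.inl (Sum.inl v)) =
      Sum.inl (Sum.inl (G.r v)) := by
    intro v h1 h2 h3
    have := hm (Sum.inl (Sum.inl v))
    rw [h.ro v h1 h2 h3] at this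
    exact this
  obtain ⟨f1, f2, f3, f4⟩ := flip_cyc (K.map (psi V)) e1 e2 e3
  have inj : ∀ {u v : V}, u ≠ v → (Sum.inl (Sum.inl u) : (V ⊕ Bool) ⊕ Bool) ≠
      Sum.inl (Sum.inl v) := fun h h' => h (Sum.inl.inj (Sum.inl.inj h'))
  refine ⟨f1, f2, f3, ?_, ?_, ?_, ?_, ?_⟩
  · rw [f4 _ (by simp) (by simp) (by simp), e4]
  · rw [f4 _ (by simp) (by simp) (inj nbc), e5]
  · rw [f4 _ (by simp) (by simp) (inj nac), e6]
  · rw [f4 _ (by simp) (by simp) (by simp), e7]
  · intro v h1 h2 h3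
    rw [f4 _ (by simp) (by simp) (inj h3), e8 v h1 h2 h3]

end Jac

/-- The Jacobi identity for the three orders of three joined legs. -/
theorem jacobi {m : ℕ} {G₁ G₂ G₃ : Gr V (m + 2)} {a b c : V} {K₁ K₂ K₃ : Gr ((V ⊕ Bool) ⊕ Bool) m}
    (h₁ : Tri K₁ G₁ a b c) (h₂ : Tri K₂ G₂ a c b) (h₃ : Tri K₃ G₃ b c a)
    (nab : a ≠ b) (nac : a ≠ c) (nbc : b ≠ c) (r₂ : G₂.r = G₁.r) (r₃ : G₃.r = G₁.r)
    (e₂ : G₂.e = G₁.e) (e₃ : G₃.e = G₁.e) (l₂ : K₂.leg = K₁.leg) (l₃ : K₃.leg = K₁.leg)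
    (lp : ∀ k, psi V (K₁.leg k) = K₁.leg k) :
    Loc K₁ ((K₃.map (psi V)).flip (Sum.inl (Sum.inr false)))
      ((K₂.map (psi V)).flip (Sum.inl (Sum.inr false))) (Sum.inl (Sum.inr false)) := by
  obtain ⟨a1, a2, a3, a4, a5, a6, a7, a8⟩ := tri_psi h₃ nbc nab.symm nac.symm
  obtain ⟨b1, b2, b3, b4, b5, b6, b7, b8⟩ := tri_psi h₂ nac nab nbc.symm
  have ex : K₁.e (Sum.inl (Sum.inr false)) = Sum.inl (Sum.inr true) := h₁.ex false
  refine ⟨⟨?_, ?_, ?_, ?_⟩, ?_, ?_, ?_, ?_, ?_, ?_, ?_, ?_, ?_, ?_, ?_, ?_, ?_, ?_, ?_, ?_, ?_⟩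
  · rw [h₁.rx]
    simp
  · rw [ex, h₁.ry]
    simp
  · rw [ex, h₁.rx]
    simp
  · rw [ex, h₁.rx, h₁.rb]
    simp
  · rw [h₁.rx, h₁.rb, a1]
  · rw [h₁.rx, h₁.rb, ex, h₁.ry, a2]
  · rw [ex, h₁.ry, a3]
  · rw [ex, h₁.ry, h₁.rz, a4]
  · rw [ex, h₁.ry, h₁.rz, h₁.rx, a5]
  · rw [h₁.rx, ex, a6]
  · rw [h₁.rx, b1]
  · rw [h₁.rx, ex, h₁.ry, b2]
  · rw [ex, h₁.ry, b3]
  · rw [ex, h₁.ry, h₁.rz, b4]
  · rw [ex, h₁.ry, h₁.rz, h₁.rx, h₁.rb, b5]
  · rw [h₁.rx, h₁.rb, ex, b6]
  · intro w n1 n2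
    have vx : ∀ w, K₁.vt (Sum.inl (Sum.inr false)) w ↔ w = Sum.inl (Sum.inr false) ∨
        w = Sum.inl (Sum.inl b) ∨ w = Sum.inl (Sum.inl a) := by
      intro w
      unfold vt
      rw [h₁.rx, h₁.rb]
    have vy : ∀ w, K₁.vt (Sum.inl (Sum.inr true)) w ↔ w = Sum.inl (Sum.inr true) ∨
        w = Sum.inr false ∨ w = Sum.inl (Sum.inl c) := by
      intro w
      unfold vt
      rw [h₁.ry, h₁.rz]
    rw [vx] at n1
    rw [ex, vy] at n2
    rcases w with (v | t) | t
    · have g1 : v ≠ a := fun h => n1 (Or.inr (Or.inr (by rw [h])))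
      have g2 : v ≠ b := fun h => n1 (Or.inr (Or.inl (by rw [h])))
      have g3 : v ≠ c := fun h => n2 (Or.inr (Or.inr (by rw [h])))
      rw [a8 v g2 g3 g1, b8 v g1 g3 g2, h₁.ro v g1 g2 g3, r₂, r₃]
      exact ⟨rfl, rfl⟩
    · cases t
      · exact absurd (Or.inl rfl) n1
      · exact absurd (Or.inl rfl) n2
    · cases t
      · exact absurd (Or.inr (Or.inl rfl)) n2
      · rw [a7, b7, h₁.rw]
        exact ⟨rfl, rfl⟩
  · refine Equiv.ext fun w => ?_
    rw [flip_e]
    have hm := K₃.map_e (psi V)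
    rcases w with (v | t) | t
    · have := hm (Sum.inl (Sum.inl v))
      rw [h₃.ev, psi_v, psi_v] at this
      rw [this, h₁.ev, e₃]
    · have := hm (Sum.inl (Sum.inr (!t)))
      rw [h₃.ex, psi_t, psi_t, Bool.not_not] at this
      rw [this, h₁.ex]
    · have := hm (Sum.inr t)
      rw [h₃.ez, psi_z, psi_z] at this
      rw [this, h₁.ez]
  · refine Equiv.ext fun w => ?_
    rw [flip_e]
    have hm := K₂.map_e (psi V)
    rcases w with (v | t) | t
    · have := hm (Sum.inl (Sum.inl v))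
      rw [h₂.ev, psi_v, psi_v] at this
      rw [this, h₁.ev, e₂]
    · have := hm (Sum.inl (Sum.inr (!t)))
      rw [h₂.ex, psi_t, psi_t, Bool.not_not] at this
      rw [this, h₁.ex]
    · have := hm (Sum.inr t)
      rw [h₂.ez, psi_z, psi_z] at this
      rw [this, h₁.ez]
  · funext k
    rw [flip_leg, map_leg, l₃, lp]
  · funext k
    rw [flip_leg, map_leg, l₂, lp]

end Gr

end Pool.Agent.SWT80
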