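import Mathlib
import Pool.Agent.SWT80.Hex
import Pool.Agent.SWT93.Stmts

/-!
# The differences prescribed by STU: the fields of `SWT93.Form` except the full turn
-/

set_option autoImplicit false

namespace Pool.Agent.SWT80

open Pool.Agent.SWT49 Pool.Agent.SWT93 Gr

variable {M : Type} [AddCommGroup M]

section Closed

variable {m : ℕ} {F : (V : Type) → Gr V (m + 1) → M} {F' : (V : Type) → Gr V m → M}

theorem s_smul_s {V : Type} {n : ℕ} (i : Fin n) (G : Gr V (n + 1)) : s i • s i • G = G := by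
  rw [← mul_smul, s_mul_s, one_smul]

/-- The three joined legs. -/
theorem pair (hS : Stu F F') (V : Type) [Finite V] (G : Gr V (m + 2)) {i j : Fin (m + 1)}
    {i' : Fin m} (hi : i'.val = i.val) (hj : j.val = i.val + 1) :
    F (V ⊕ Bool) (G.mg i) - F (V ⊕ Bool) ((s i • s j • G).mg j) =
      F' ((V ⊕ Bool) ⊕ Bool) ((G.mg i).mg i') := by
  rw [mg_cyc G hi hj]
  exact hS (V ⊕ Bool) (G.mg i) i'

theorem far_mg (hF' : Rel F') (hS : Stu F F') (V : Type) [Finite V] (G : Gr V (m + 2))
    {i j : Fin (m + 1)} (h : i.val + 1 < j.val) :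
    F (V ⊕ Bool) (G.mg i) + F (V ⊕ Bool) ((s i • G).mg j) =
      F (V ⊕ Bool) (G.mg j) + F (V ⊕ Bool) ((s j • G).mg i) := by
  have hjm := j.2
  obtain ⟨i', hi⟩ : ∃ i' : Fin m, i'.val = i.val := ⟨⟨i.val, by omega⟩, rfl⟩
  obtain ⟨j', hj⟩ : ∃ j' : Fin m, j'.val + 1 = j.val := ⟨⟨j.val - 1, by omega⟩, by
    show j.val - 1 + 1 = j.val
    omega⟩
  have e1 := hS (V ⊕ Bool) (G.mg i) j'
  have e2 := hS (V ⊕ Bool) (G.mg j) i'
  rw [← mg_s_far G h hj] at e1
  rw [← mg_s_far' G h hi] at e2
  have e3 := hF'.iso _ _ (exch V) ((G.mg i).mg j')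
  rw [mg_mg_far G h hi hj, ← e1, ← e2] at e3
  rw [eq_comm, sub_eq_sub_iff_add_eq_add] at e3
  rw [e3]

theorem hex_mg (hF' : Rel F') (hS : Stu F F') (V : Type) [Finite V]
    (G : Gr V (m + 2)) {i j : Fin (m + 1)} (h : i.val + 1 = j.val) :
    F (V ⊕ Bool) (G.mg i) + F (V ⊕ Bool) ((s i • G).mg j) +
        F (V ⊕ Bool) ((s j • s i • G).mg i) =
      F (V ⊕ Bool) (G.mg j) + F (V ⊕ Bool) ((s j • G).mg i) +
        F (V ⊕ Bool) ((s i • s j • G).mg j) := by
  have hjm := j.2
  obtain ⟨i', hi⟩ : ∃ i' : Fin m, i'.val = i.val := ⟨⟨i.val, by omega⟩, rfl⟩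
  have hj : j.val = i.val + 1 := h.symm
  have p1 := pair hS V G hi hj
  have p2 := pair hS V (s j • G) hi hj
  have p3 := pair hS V (s j • s i • G) hi hj
  rw [s_smul_s] at p2 p3
  rw [s_smul_s] at p3
  have cc : j.castSucc = i.succ := Fin.ext (by simp [hj])
  have s1 : s j i.castSucc = i.castSucc := s_apply_of_ne
    (by intro h; have := congrArg Fin.val h; simp at this; omega)
    (by intro h; have := congrArg Fin.val h; simp at this; omega)
  have s2 : s i j.succ = j.succ := s_apply_of_ne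
    (by intro h; have := congrArg Fin.val h; simp at this; omega)
    (by intro h; have := congrArg Fin.val h; simp at this; omega)
  have s3 : s j i.succ = j.succ := by rw [← cc, s_castSucc]
  have s4 : s j j.succ = i.succ := by rw [s_succ, cc]
  have t1 := tri G hi hj
  have t2 := tri (s j • G) hi hj
  have t3 := tri (s j • s i • G) hi hj
  have g1 : (s j • G).leg i.castSucc = G.leg i.castSucc := by rw [s_smul_leg, s1]
  have g2 : (s j • G).leg i.succ = G.leg j.succ := by rw [s_smul_leg, s3]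
  have g3 : (s j • G).leg j.succ = G.leg i.succ := by rw [s_smul_leg, s4]
  have k1 : (s j • s i • G).leg i.castSucc = G.leg i.succ := by
    rw [s_smul_leg, s1, s_smul_leg, s_castSucc]
  have k2 : (s j • s i • G).leg i.succ = G.leg j.succ := by
    rw [s_smul_leg, s3, s_smul_leg, s2]
  have k3 : (s j • s i • G).leg j.succ = G.leg i.castSucc := by
    rw [s_smul_leg, s4, s_smul_leg, s_succ]
  rw [g1, g2, g3] at t2
  rw [k1, k2, k3] at t3
  have go : ∀ k : Fin (m + 2), k ≠ i.castSucc → k ≠ i.succ → k ≠ j.succ →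
      (s j • G).leg k = G.leg k := by
    intro k _ h2 h3
    rw [s_smul_leg, s_apply_of_ne (by rw [cc]; exact h2) h3]
  have ko : ∀ k : Fin (m + 2), k ≠ i.castSucc → k ≠ i.succ → k ≠ j.succ →
      (s j • s i • G).leg k = G.leg k := by
    intro k h1 h2 h3
    rw [s_smul_leg, s_apply_of_ne (by rw [cc]; exact h2) h3, s_smul_leg, s_apply_of_ne h1 h2]
  have n12 : G.leg i.castSucc ≠ G.leg i.succ := G.leg_ne (cs_ne i)
  have n13 : G.leg i.castSucc ≠ G.leg j.succ := G.leg_ne (by
    intro h
    have := congrArg Fin.val h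
    simp at this
    omega)
  have n23 : G.leg i.succ ≠ G.leg j.succ := G.leg_ne (by
    intro h
    have := congrArg Fin.val h
    simp at this
    omega)
  have lo : ∀ G' : Gr V (m + 2), (∀ k : Fin (m + 2), k ≠ i.castSucc → k ≠ i.succ → k ≠ j.succ →
      G'.leg k = G.leg k) → ((G'.mg i).mg i').leg = ((G.mg i).mg i').leg := by
    intro G' hG'
    funext k
    rw [leg3 G' hi, leg3 G hi]
    rcases lt_trichotomy k i' with h1 | h1 | h1
    · rw [if_pos h1, if_pos h1, hG']
      · intro h2
        have := congrArg Fin.val h2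
        rw [Fin.lt_def] at h1
        simp at this
        omega
      · intro h2
        have := congrArg Fin.val h2
        rw [Fin.lt_def] at h1
        simp at this
        omega
      · intro h2
        have := congrArg Fin.val h2
        rw [Fin.lt_def] at h1
        simp at this
        omega
    · rw [if_neg (by rw [h1]; exact lt_irrefl _), if_pos h1,
        if_neg (by rw [h1]; exact lt_irrefl _), if_pos h1]
    · rw [if_neg (not_lt.2 h1.le), if_neg h1.ne', if_neg (not_lt.2 h1.le), if_neg h1.ne', hG']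
      · intro h2
        have := congrArg Fin.val h2
        rw [Fin.lt_def] at h1
        simp at this
        omega
      · intro h2
        have := congrArg Fin.val h2
        rw [Fin.lt_def] at h1
        simp at this
        omega
      · intro h2
        have := congrArg Fin.val h2
        rw [Fin.lt_def] at h1
        simp at this
        omega
  have lp : ∀ k, psi V (((G.mg i).mg i').leg k) = ((G.mg i).mg i').leg k := by
    intro k
    rw [leg3 G hi]
    split_ifs <;> rfl
  have hl := jacobi t1 t2 t3 n12 n13 n23 rfl rfl rfl rfl (lo _ go) (lo _ ko) lp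
  have hr := hF'.ihx _ _ _ _ _ hl
  have hx : ∀ (G' : Gr V (m + 2)) {a b c : V}, Tri ((G'.mg i).mg i') G' a b c →
      F' ((V ⊕ Bool) ⊕ Bool) ((((G'.mg i).mg i').map (psi V)).flip (Sum.inl (Sum.inr false))) =
        - F' ((V ⊕ Bool) ⊕ Bool) ((G'.mg i).mg i') := by
    intro G' a b c ht
    rw [hF'.as, hF'.iso]
    have := ((G'.mg i).mg i').map_r (psi V) (Sum.inl (Sum.inr true))
    rw [ht.ry, psi_t, psi_z] at this
    rw [show (Sum.inl (Sum.inr false) : (V ⊕ Bool) ⊕ Bool) = Sum.inl (Sum.inr (!true)) from rfl,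
      this]
    simp
  rw [hx _ t3, hx _ t2, ← p1, ← p2, ← p3] at hr
  have h4 : F (V ⊕ Bool) (G.mg i) + F (V ⊕ Bool) ((s i • G).mg j) +
        F (V ⊕ Bool) ((s j • s i • G).mg i) -
      (F (V ⊕ Bool) (G.mg j) + F (V ⊕ Bool) ((s j • G).mg i) +
        F (V ⊕ Bool) ((s i • s j • G).mg j)) = 0 := by
    have h5 := sub_eq_zero.2 hr
    rw [← h5]
    abel
  exact sub_eq_zero.1 h4

/-- **Closedness** of the differences prescribed by STU. -/
theorem closed_mg (hF : Rel F) (hF' : Rel F') (hS : Stu F F') (V : Type) [Finite V] :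
    Closed (fun (G : Gr V (m + 2)) (i : Fin (m + 1)) => F (V ⊕ Bool) (G.mg i)) where
  inv G i := by
    show F (V ⊕ Bool) ((s i • G).mg i) = - F (V ⊕ Bool) (G.mg i)
    rw [mg_s, hF.as]
    rw [mg_r_x]
    exact Sum.inl_ne_inr
  far G i j h := far_mg hF' hS V G h
  hex G i j h := hex_mg hF' hS V G h

end Closed

end Pool.Agent.SWT80
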