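import Mathlib
import Pool.Agent.SWT80.Form

/-!
# The fields of `SWT93.Form` for the differences prescribed by STU, except the full turn
-/

set_option autoImplicit false

namespace Pool.Agent.SWT80

open Pool.Agent.SWT49 Pool.Agent.SWT93 Gr

variable {M : Type} [AddCommGroup M] {n : ℕ} {F : (V : Type) → Gr V n → M}

/-- The differences prescribed by STU. -/
noncomputable def dif (F : (V : Type) → Gr V n → M) (V : Type) (G : Gr V (n + 1)) (i : Fin n) : M :=
  F (V ⊕ Bool) (G.mg i)

theorem dif_iso (hF : Rel F) (V W : Type) [Finite V] (f : V ≃ W) (G : Gr V (n + 1)) (i : Fin n) :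
    dif F W (G.map f) i = dif F V G i := by
  unfold dif
  rw [← mg_map]
  exact hF.iso _ _ (exm f) (G.mg i)

theorem dif_as (hF : Rel F) (V : Type) [Finite V] (G : Gr V (n + 1)) (x : V) (hx : G.r x ≠ x)
    (i : Fin n) : dif F V (G.flip x) i = - dif F V G i := by
  unfold dif
  rw [mg_flip G i hx]
  apply hF.as
  rw [G.mg_r_in i hx]
  exact fun h => hx (Sum.inl.inj h)

theorem dif_ihx (hF : Rel F) (V : Type) [Finite V] (I J X : Gr V (n + 1)) (x : V)
    (h : Gr.Loc I J X x) (i : Fin n) : dif F V I i = dif F V J i - dif F V X i :=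
  hF.ihx _ _ _ _ _ (h.mg i)

theorem mg_rev {V : Type} (G : Gr V (n + 1)) (i : Fin n) :
    (w0 n • G).mg i.rev = (Fin.revPerm : Equiv.Perm (Fin n)) • (s i • G).mg i := by
  have hw : ∀ k : Fin (n + 1), (w0 n • G).leg k = G.leg k.rev := fun k => by
    rw [smul_leg]
    rfl
  have h1 : (w0 n • G).leg i.rev.castSucc = (s i • G).leg i.castSucc := by
    rw [hw, ← Fin.rev_succ, Fin.rev_rev, s_smul_castSucc]
  have h2 : (w0 n • G).leg i.rev.succ = (s i • G).leg i.succ := by
    rw [hw, ← Fin.rev_castSucc, Fin.rev_rev, s_smul_succ]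
  refine Gr.ext (mg_e_congr (i := i) (i' := i.rev) rfl) (mg_r_congr (i := i) (i' := i.rev) rfl h1 h2)
    (funext fun k => ?_)
  have hk : ((Fin.revPerm : Equiv.Perm (Fin n)) • (s i • G).mg i).leg k =
      (s i • G).mgL i k.rev := by
    rw [smul_leg]
    rfl
  rw [hk]
  show (w0 n • G).mgL i.rev k = (s i • G).mgL i k.rev
  rcases lt_trichotomy k i.rev with h | h | h
  · have h' : i < k.rev := by
      rw [← Fin.rev_lt_rev, Fin.rev_rev]
      exact h
    rw [mgL_lt _ h, mgL_gt _ h', hw, s_leg_ne, ← Fin.rev_castSucc]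
    · intro h3
      have := congrArg Fin.val h3
      rw [Fin.lt_def] at h'
      simp only [Fin.val_castSucc, Fin.val_succ] at this
      omega
    · intro h3
      exact absurd (Fin.succ_injective _ h3) h'.ne'
  · have h' : k.rev = i := by
      rw [h, Fin.rev_rev]
    rw [h, Fin.rev_rev, mgL_self, mgL_self]
  · have h' : k.rev < i := by
      rw [← Fin.rev_lt_rev, Fin.rev_rev]
      exact h
    rw [mgL_gt _ h, mgL_lt _ h', hw, s_leg_ne, ← Fin.rev_succ]
    · intro h3
      exact absurd (Fin.castSucc_injective _ h3) h'.ne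
    · intro h3
      have := congrArg Fin.val h3
      rw [Fin.lt_def] at h'
      simp only [Fin.val_castSucc, Fin.val_succ] at this
      omega

theorem dif_rev (hF : Rel F) (hP : Par F) (V : Type) [Finite V] (G : Gr V (n + 1)) (i : Fin n) :
    dif F V (w0 n • G) i.rev = (-1 : ℤ) ^ (n + 1) • dif F V G i := by
  unfold dif
  rw [mg_rev, hP, mg_s, hF.as, pow_succ, mul_neg_one, neg_smul, smul_neg]
  rw [mg_r_x]
  exact Sum.inl_ne_inr

/-- The half-edges of a union of components after the merging. -/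
def mgS {V : Type} (S : Set V) (p : Prop) : Set (V ⊕ Bool) := fun w =>
  match w with
  | Sum.inl v => v ∈ S
  | Sum.inr _ => p

theorem cld_mg {V : Type} {G : Gr V (n + 1)} {S : Set V} (hS : Cld G S) (i : Fin n)
    (hi : G.leg i.castSucc ∈ S ↔ G.leg i.succ ∈ S) :
    Cld (G.mg i) (mgS S (G.leg i.castSucc ∈ S)) where
  e w hw := by
    rcases w with v | t
    · exact hS.e v hw
    · exact hw
  r w hw := by
    rcases w with v | t
    · by_cases h1 : v = G.leg i.castSucc
      · subst h1
        rw [mg_r_p]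
        exact hw
      by_cases h2 : v = G.leg i.succ
      · subst h2
        rw [mg_r_q]
        exact hi.2 hw
      rw [mg_r_o _ _ h1 h2]
      exact hS.r v hw
    · cases t
      · rw [mg_r_x]
        exact hi.1 hw
      · exact hw

theorem dif_sep (hP : Prod F) (V : Type) [Finite V] (G : Gr V (n + 1)) (S : Set V) (k : ℕ)
    (hS : Cld G S) (h1 : S.Nonempty) (h2 : S ≠ Set.univ) (hk : ∀ i, G.leg i ∈ S ↔ i.val < k)
    (i : Fin n) (hi : G.leg i.castSucc ∈ S ↔ G.leg i.succ ∈ S) : dif F V G i = 0 := by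
  classical
  have hc := cld_mg hS i hi
  obtain ⟨a, ha⟩ := h1
  obtain ⟨b, hb⟩ := (Set.ne_univ_iff_exists_notMem S).1 h2
  have hp := hk i.castSucc
  have hq := hk i.succ
  simp only [Fin.val_castSucc, Fin.val_succ] at hp hq
  refine hP (V ⊕ Bool) (G.mg i) _ (if G.leg i.castSucc ∈ S then k - 1 else k) hc
    ⟨Sum.inl a, ha⟩ ((Set.ne_univ_iff_exists_notMem _).2 ⟨Sum.inl b, hb⟩) ?_
  intro j
  rw [mg_leg]
  rcases lt_trichotomy j i with h | h | h
  · rw [mgL_lt _ h]
    show G.leg j.castSucc ∈ S ↔ _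
    rw [hk, Fin.val_castSucc]
    rw [Fin.lt_def] at h
    split_ifs with h3
    · have := hq.1 (hi.1 h3)
      omega
    · rfl
  · rw [h, mgL_self]
    show G.leg i.castSucc ∈ S ↔ _
    split_ifs with h3
    · have := hq.1 (hi.1 h3)
      exact ⟨fun _ => by omega, fun _ => h3⟩
    · exact ⟨fun h4 => absurd h4 h3, fun h4 => absurd (hp.2 h4) h3⟩
  · rw [mgL_gt _ h]
    show G.leg j.succ ∈ S ↔ _
    rw [hk, Fin.val_succ]
    rw [Fin.lt_def] at h
    split_ifs with h3
    · omega
    · have : ¬ i.val < k := fun h4 => h3 (hp.2 h4)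
      omega

end Pool.Agent.SWT80
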