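import Mathlib
import Pool.Agent.SWT80.Fields
import Pool.Agent.SWT58.Turn

/-!
# The differences prescribed by STU are a form
-/

set_option autoImplicit false

namespace Pool.Agent.SWT80

open Pool.Agent.SWT49 Pool.Agent.SWT93 Gr

variable {M : Type} [AddCommGroup M]

/-- If `F` (with `m + 1` legs) and `F'` (with `m` legs) satisfy AS, IHX and STU, and if `F` has the
parity of its number of legs and vanishes on the products, then the differences prescribed by STU
on the graphs with `m + 2` legs are a form. -/
theorem form_mg {m : ℕ} {F : (V : Type) → Gr V (m + 1) → M} {F' : (V : Type) → Gr V m → M}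
    (hM : Half M) (hF : Rel F) (hF' : Rel F') (hS : Stu F F') (hP : Par F) (hQ : Prod F) :
    Form (dif F) where
  iso := dif_iso hF
  as := dif_as hF
  ihx := dif_ihx hF
  closed V _ := closed_mg hF hF' hS V
  rot := SWT58.rot hM hF
  rev := dif_rev hF hP
  sep := dif_sep hQ

/-- The relation STU says that the differences are `dif F'`. -/
theorem diff_dif_iff {m : ℕ} {F : (V : Type) → Gr V (m + 1) → M} {F' : (V : Type) → Gr V m → M} :
    Diff F (dif F') ↔ Stu F F' := Iff.rfl

end Pool.Agent.SWT80
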