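import Mathlib
import Pool.Agent.SWT80.Maps

/-!
# Cutting a graph at a vertex and opening an edge

* `cut G x`: the vertex of `x` is removed; its three half-edges `x`, `r x`, `r (r x)` become the
  last three legs. `join` is the inverse operation.
* `opn G h`: the edge of `h` is cut into two edges, which end at the two new last legs.
-/

set_option autoImplicit false

namespace Pool.Agent.SWT80

open Equiv Pool.Agent.SWT49

/-! ### The positions: first `n` ones and last `k` ones -/

/-- `g` acts on the first `n` positions and `h` on the last `k` positions. -/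
def pq {n k : ℕ} (g : Perm (Fin n)) (h : Perm (Fin k)) : Perm (Fin (n + k)) :=
  finSumFinEquiv.permCongr (Equiv.sumCongr g h)

section

variable {n k : ℕ}

theorem pq_l (g : Perm (Fin n)) (h : Perm (Fin k)) (i : Fin n) :
    pq g h (Fin.castAdd k i) = Fin.castAdd k (g i) := by
  unfold pq
  rw [Equiv.permCongr_apply, ← finSumFinEquiv_apply_left, Equiv.symm_apply_apply]
  rfl

theorem pq_r (g : Perm (Fin n)) (h : Perm (Fin k)) (j : Fin k) :
    pq g h (Fin.natAdd n j) = Fin.natAdd n (h j) := by
  unfold pq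
  rw [Equiv.permCongr_apply, ← finSumFinEquiv_apply_right, Equiv.symm_apply_apply]
  rfl

/-- Two permutations which agree on the first `n` and on the last `k` positions. -/
theorem perm_ext {g g' : Perm (Fin (n + k))} (h1 : ∀ i, g (Fin.castAdd k i) = g' (Fin.castAdd k i))
    (h2 : ∀ j, g (Fin.natAdd n j) = g' (Fin.natAdd n j)) : g = g' := by
  refine Equiv.ext fun i => ?_
  induction i using Fin.addCases with
  | left i => exact h1 i
  | right j => exact h2 j

theorem pq_mul (g g' : Perm (Fin n)) (h h' : Perm (Fin k)) :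
    pq g h * pq g' h' = pq (g * g') (h * h') := by
  refine perm_ext (fun i => ?_) fun j => ?_
  · rw [Perm.mul_apply, pq_l, pq_l, pq_l, Perm.mul_apply]
  · rw [Perm.mul_apply, pq_r, pq_r, pq_r, Perm.mul_apply]

theorem pq_one : pq (1 : Perm (Fin n)) (1 : Perm (Fin k)) = 1 := by
  refine perm_ext (fun i => ?_) fun j => ?_
  · rw [pq_l]
    rfl
  · rw [pq_r]
    rfl

theorem pq_inv (g : Perm (Fin n)) (h : Perm (Fin k)) : (pq g h)⁻¹ = pq g⁻¹ h⁻¹ := by
  rw [inv_eq_iff_mul_eq_one, pq_mul, mul_inv_cancel, mul_inv_cancel, pq_one]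

theorem pq_comm (g : Perm (Fin n)) (h : Perm (Fin k)) : pq g 1 * pq 1 h = pq 1 h * pq g 1 := by
  rw [pq_mul, pq_mul, mul_one, mul_one, one_mul, one_mul]

theorem castAdd_ne_natAdd (i : Fin n) (j : Fin k) : Fin.castAdd k i ≠ Fin.natAdd n j := by
  intro h
  have h1 := congrArg Fin.val h
  have h2 := i.2
  rw [Fin.val_castAdd, Fin.val_natAdd] at h1
  omega

/-- The transpositions of ordinary positions. -/
theorem s_castAdd (m k : ℕ) (i : Fin m) :
    (s (n := m + k) (Fin.castAdd k i) : Perm (Fin (m + k + 1))) =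
      (finCongr (by omega : m + 1 + k = m + k + 1)).permCongr (pq (s i) (1 : Perm (Fin k))) := by
  refine Equiv.ext fun j => ?_
  obtain ⟨j, rfl⟩ := (finCongr (by omega : m + 1 + k = m + k + 1)).surjective j
  rw [Equiv.permCongr_apply, Equiv.symm_apply_apply]
  induction j using Fin.addCases with
  | left j =>
    rw [pq_l]
    unfold s
    by_cases h1 : j = i.castSucc
    · subst h1
      rw [swap_apply_left]
      have e1 : finCongr (by omega : m + 1 + k = m + k + 1) (Fin.castAdd k i.castSucc) =
        (Fin.castAdd k i).castSucc := rfl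
      rw [e1, swap_apply_left]
      rfl
    by_cases h2 : j = i.succ
    · subst h2
      rw [swap_apply_right]
      have e1 : finCongr (by omega : m + 1 + k = m + k + 1) (Fin.castAdd k i.succ) =
        (Fin.castAdd k i).succ := rfl
      rw [e1, swap_apply_right]
      rfl
    rw [swap_apply_of_ne_of_ne h1 h2, swap_apply_of_ne_of_ne]
    · intro h3
      apply h1
      have h4 := congrArg Fin.val h3
      exact Fin.ext h4
    · intro h3
      apply h2
      have h4 := congrArg Fin.val h3
      exact Fin.ext h4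
  | right j =>
    rw [pq_r, Perm.one_apply]
    apply swap_apply_of_ne_of_ne
    · intro h3
      have h4 := congrArg Fin.val h3
      have h5 := i.2
      simp at h4
      omega
    · intro h3
      have h4 := congrArg Fin.val h3
      have h5 := i.2
      simp at h4
      omega

end

namespace Gr

variable {V W : Type} {n : ℕ}

/-! ### Cutting at a vertex -/

open Classical in
/-- The vertex of `x` is removed. -/
noncomputable def cutR (G : Gr V n) (x v : V) : V := if G.vt x v then v else G.r v

section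

variable (G : Gr V n) {x v : V}

theorem cutR_in (h : G.vt x v) : G.cutR x v = v := if_pos h

theorem cutR_o (h : ¬ G.vt x v) : G.cutR x v = G.r v := if_neg h

theorem cutR3 (x v : V) : G.cutR x (G.cutR x (G.cutR x v)) = v := by
  by_cases h : G.vt x v
  · rw [cutR_in G h, cutR_in G h, cutR_in G h]
  · have h1 : ¬ G.vt x (G.r v) := fun h' => h (G.vt_r.1 h')
    have h2 : ¬ G.vt x (G.r (G.r v)) := fun h' => h1 (G.vt_r.1 h')
    rw [cutR_o G h, cutR_o G h1, cutR_o G h2, G.r3]

/-- The legs after the cutting at the vertex of `x`. -/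
def cutL (G : Gr V n) (x : V) : Fin (n + 3) → V := Fin.append G.leg ![x, G.r x, G.r (G.r x)]

theorem cutL_l (x : V) (i : Fin n) : G.cutL x (Fin.castAdd 3 i) = G.leg i := Fin.append_left _ _ _

theorem cutL_0 (x : V) : G.cutL x (Fin.natAdd n 0) = x := Fin.append_right _ _ _

theorem cutL_1 (x : V) : G.cutL x (Fin.natAdd n 1) = G.r x := Fin.append_right _ _ _

theorem cutL_2 (x : V) : G.cutL x (Fin.natAdd n 2) = G.r (G.r x) := Fin.append_right _ _ _

end

/-- To check something for the last three positions. -/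
theorem fin3 {P : Fin 3 → Prop} (h0 : P 0) (h1 : P 1) (h2 : P 2) (j : Fin 3) : P j := by
  fin_cases j
  · exact h0
  · exact h1
  · exact h2

theorem cutL_range (G : Gr V n) (x v : V) :
    (∃ i, G.cutL x i = v) ↔ (∃ i, G.leg i = v) ∨ G.vt x v := by
  constructor
  · rintro ⟨i, rfl⟩
    induction i using Fin.addCases with
    | left i =>
      rw [cutL_l]
      exact Or.inl ⟨i, rfl⟩
    | right j =>
      right
      revert j
      apply fin3
      · rw [cutL_0]
        exact Or.inl rfl
      · rw [cutL_1]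
        exact Or.inr (Or.inl rfl)
      · rw [cutL_2]
        exact Or.inr (Or.inr rfl)
  · rintro (⟨i, rfl⟩ | h | h | h)
    · exact ⟨_, G.cutL_l x i⟩
    · exact ⟨_, (G.cutL_0 x).trans h.symm⟩
    · exact ⟨_, (G.cutL_1 x).trans h.symm⟩
    · exact ⟨_, (G.cutL_2 x).trans h.symm⟩

theorem r_ne_r2 (G : Gr V n) {x : V} (hx : G.r x ≠ x) : G.r (G.r x) ≠ x := fun h => hx (G.r2 h)

theorem cutL_inj (G : Gr V n) {x : V} (hx : G.r x ≠ x) : Function.Injective (G.cutL x) := by
  have key : ∀ i j, Fin.natAdd n i ≠ Fin.natAdd n j →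
      G.cutL x (Fin.natAdd n i) ≠ G.cutL x (Fin.natAdd n j) := by
    have h1 := G.r_ne_r2 hx
    have h2 := G.inner_r hx
    apply fin3
    · apply fin3
      · exact fun h => absurd rfl h
      · rw [cutL_0, cutL_1]
        exact fun _ => hx.symm
      · rw [cutL_0, cutL_2]
        exact fun _ => h1.symm
    · apply fin3
      · rw [cutL_0, cutL_1]
        exact fun _ => hx
      · exact fun h => absurd rfl h
      · rw [cutL_1, cutL_2]
        exact fun _ => h2.symm
    · apply fin3
      · rw [cutL_0, cutL_2]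
        exact fun _ => h1
      · rw [cutL_1, cutL_2]
        exact fun _ => h2
      · exact fun h => absurd rfl h
  have key2 : ∀ i j, G.cutL x (Fin.castAdd 3 i) ≠ G.cutL x (Fin.natAdd n j) := by
    intro i j h
    rw [cutL_l] at h
    apply G.leg_not_vt hx i
    rw [h]
    revert j
    apply fin3
    · rw [cutL_0]
      exact fun _ => Or.inl rfl
    · rw [cutL_1]
      exact fun _ => Or.inr (Or.inl rfl)
    · rw [cutL_2]
      exact fun _ => Or.inr (Or.inr rfl)
  intro a b hab
  induction a using Fin.addCases with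
  | left i =>
    induction b using Fin.addCases with
    | left j =>
      rw [cutL_l, cutL_l] at hab
      rw [G.inj hab]
    | right j => exact absurd hab (key2 i j)
  | right i =>
    induction b using Fin.addCases with
    | left j => exact absurd hab.symm (key2 j i)
    | right j =>
      by_contra h
      exact key i j h hab

/-- The graph `G` cut at the vertex of `x`: the half-edges `x`, `r x`, `r (r x)` become the last
three legs. -/
noncomputable def cut (G : Gr V n) (x : V) (hx : G.r x ≠ x) : Gr V (n + 3) where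
  e := G.e
  r := perm3 (G.cutR x) (G.cutR3 x)
  leg := G.cutL x
  e2 := G.e2
  e1 := G.e1
  r3 := G.cutR3 x
  inj := G.cutL_inj hx
  fix v := by
    rw [perm3_apply, cutL_range]
    by_cases h : G.vt x v
    · rw [cutR_in G h]
      exact ⟨fun _ => Or.inr h, fun _ => rfl⟩
    · rw [cutR_o G h, G.fix]
      exact ⟨Or.inl, fun h' => h'.resolve_right h⟩

section

variable (G : Gr V n) {x : V} (hx : G.r x ≠ x)

theorem cut_e : (G.cut x hx).e = G.e := rfl

theorem cut_r (v : V) : (G.cut x hx).r v = G.cutR x v := rfl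

theorem cut_r_in {v : V} (h : G.vt x v) : (G.cut x hx).r v = v := G.cutR_in h

theorem cut_r_o {v : V} (h : ¬ G.vt x v) : (G.cut x hx).r v = G.r v := G.cutR_o h

theorem cut_leg_l (i : Fin n) : (G.cut x hx).leg (Fin.castAdd 3 i) = G.leg i := G.cutL_l x i

theorem cut_leg_0 : (G.cut x hx).leg (Fin.natAdd n 0) = x := G.cutL_0 x

theorem cut_leg_1 : (G.cut x hx).leg (Fin.natAdd n 1) = G.r x := G.cutL_1 x

theorem cut_leg_2 : (G.cut x hx).leg (Fin.natAdd n 2) = G.r (G.r x) := G.cutL_2 x

end

/-! ### Joining the last three legs -/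

open Classical in
/-- The half-edges `p`, `q`, `t` form a new vertex. -/
noncomputable def joinR (G : Gr V n) (p q t v : V) : V :=
  if v = p then q else if v = q then t else if v = t then p else G.r v

section

variable (G : Gr V n) {p q t v : V}

theorem joinR_p : G.joinR p q t p = q := if_pos rfl

theorem joinR_q (h : q ≠ p) : G.joinR p q t q = t := (if_neg h).trans (if_pos rfl)

theorem joinR_t (h1 : t ≠ p) (h2 : t ≠ q) : G.joinR p q t t = p :=
  (if_neg h1).trans ((if_neg h2).trans (if_pos rfl))

theorem joinR_o (h1 : v ≠ p) (h2 : v ≠ q) (h3 : v ≠ t) : G.joinR p q t v = G.r v :=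
  (if_neg h1).trans ((if_neg h2).trans (if_neg h3))

theorem joinR3 (hp : G.r p = p) (hq : G.r q = q) (ht : G.r t = t) (h1 : q ≠ p) (h2 : t ≠ p)
    (h3 : t ≠ q) (v : V) : G.joinR p q t (G.joinR p q t (G.joinR p q t v)) = v := by
  by_cases k1 : v = p
  · rw [k1, joinR_p, joinR_q G h1, joinR_t G h2 h3]
  by_cases k2 : v = q
  · rw [k2, joinR_q G h1, joinR_t G h2 h3, joinR_p]
  by_cases k3 : v = t
  · rw [k3, joinR_t G h2 h3, joinR_p, joinR_q G h1]
  rw [joinR_o G k1 k2 k3, joinR_o G (G.r_ne hp k1) (G.r_ne hq k2) (G.r_ne ht k3),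
    joinR_o G (G.r_ne hp (G.r_ne hp k1)) (G.r_ne hq (G.r_ne hq k2)) (G.r_ne ht (G.r_ne ht k3)),
    G.r3]

theorem joinR_fix (h1 : q ≠ p) (h2 : t ≠ p) (h3 : t ≠ q) :
    G.joinR p q t v = v ↔ v ≠ p ∧ v ≠ q ∧ v ≠ t ∧ G.r v = v := by
  by_cases k1 : v = p
  · rw [k1, joinR_p]
    exact ⟨fun h => absurd h h1, fun h => absurd rfl h.1⟩
  by_cases k2 : v = q
  · rw [k2, joinR_q G h1]
    exact ⟨fun h => absurd h h3, fun h => absurd rfl h.2.1⟩
  by_cases k3 : v = t
  · rw [k3, joinR_t G h2 h3]
    exact ⟨fun h => absurd h.symm h2, fun h => absurd rfl h.2.2.1⟩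
  rw [joinR_o G k1 k2 k3]
  exact ⟨fun h => ⟨k1, k2, k3, h⟩, fun h => h.2.2.2⟩

end

theorem lst_ne (R : Gr V (n + 3)) {i j : Fin 3} (h : i ≠ j) :
    R.leg (Fin.natAdd n i) ≠ R.leg (Fin.natAdd n j) := by
  apply R.leg_ne
  intro h'
  apply h
  have h1 := congrArg Fin.val h'
  rw [Fin.val_natAdd, Fin.val_natAdd] at h1
  exact Fin.ext (by omega)

/-- The last three legs of `R` are joined to a new vertex, with the cyclic order
`leg n, leg (n + 1), leg (n + 2)`. -/
noncomputable def join (R : Gr V (n + 3)) : Gr V n where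
  e := R.e
  r := perm3 (R.joinR (R.leg (Fin.natAdd n 0)) (R.leg (Fin.natAdd n 1)) (R.leg (Fin.natAdd n 2)))
    (R.joinR3 (R.r_leg _) (R.r_leg _) (R.r_leg _) (R.lst_ne (by decide)) (R.lst_ne (by decide))
      (R.lst_ne (by decide)))
  leg := fun i => R.leg (Fin.castAdd 3 i)
  e2 := R.e2
  e1 := R.e1
  r3 := R.joinR3 (R.r_leg _) (R.r_leg _) (R.r_leg _) (R.lst_ne (by decide))
    (R.lst_ne (by decide)) (R.lst_ne (by decide))
  inj := fun i j h => Fin.castAdd_injective _ _ (R.inj h)
  fix v := by
    rw [perm3_apply, R.joinR_fix (R.lst_ne (by decide)) (R.lst_ne (by decide))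
      (R.lst_ne (by decide)), R.fix]
    constructor
    · rintro ⟨h1, h2, h3, i, rfl⟩
      induction i using Fin.addCases with
      | left i => exact ⟨i, rfl⟩
      | right j =>
        exfalso
        revert j
        apply fin3
        · exact fun h _ _ => h rfl
        · exact fun _ h _ => h rfl
        · exact fun _ _ h => h rfl
    · rintro ⟨i, rfl⟩
      exact ⟨R.leg_ne (castAdd_ne_natAdd _ _), R.leg_ne (castAdd_ne_natAdd _ _),
        R.leg_ne (castAdd_ne_natAdd _ _), _, rfl⟩

section

variable (R : Gr V (n + 3))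

theorem join_e : R.join.e = R.e := rfl

theorem join_leg (i : Fin n) : R.join.leg i = R.leg (Fin.castAdd 3 i) := rfl

theorem join_r_0 : R.join.r (R.leg (Fin.natAdd n 0)) = R.leg (Fin.natAdd n 1) := R.joinR_p

theorem join_r_1 : R.join.r (R.leg (Fin.natAdd n 1)) = R.leg (Fin.natAdd n 2) :=
  R.joinR_q (R.lst_ne (by decide))

theorem join_r_2 : R.join.r (R.leg (Fin.natAdd n 2)) = R.leg (Fin.natAdd n 0) :=
  R.joinR_t (R.lst_ne (by decide)) (R.lst_ne (by decide))

theorem join_r_o {v : V} (h : ∀ j, v ≠ R.leg (Fin.natAdd n j)) : R.join.r v = R.r v :=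
  R.joinR_o (h 0) (h 1) (h 2)

theorem join_in : R.join.r (R.leg (Fin.natAdd n 0)) ≠ R.leg (Fin.natAdd n 0) := by
  rw [join_r_0]
  exact R.lst_ne (by decide)

/-- The new vertex. -/
theorem join_vt (v : V) : R.join.vt (R.leg (Fin.natAdd n 0)) v ↔ ∃ j, v = R.leg (Fin.natAdd n j) := by
  unfold vt
  rw [join_r_0, join_r_1]
  constructor
  · rintro (h | h | h)
    · exact ⟨_, h⟩
    · exact ⟨_, h⟩
    · exact ⟨_, h⟩
  · rintro ⟨j, h⟩
    revert j
    apply fin3
    · exact fun h => Or.inl h
    · exact fun h => Or.inr (Or.inl h)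
    · exact fun h => Or.inr (Or.inr h)

/-- Cutting after joining. -/
theorem cut_join : R.join.cut (R.leg (Fin.natAdd n 0)) R.join_in = R := by
  refine Gr.ext rfl (Equiv.ext fun v => ?_) (funext fun i => ?_)
  · rw [cut_r]
    by_cases h : R.join.vt (R.leg (Fin.natAdd n 0)) v
    · rw [cutR_in _ h]
      obtain ⟨j, rfl⟩ := (R.join_vt v).1 h
      exact (R.r_leg _).symm
    · rw [cutR_o _ h]
      apply join_r_o
      intro j h'
      exact h ((R.join_vt v).2 ⟨j, h'⟩)
  · induction i using Fin.addCases with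
    | left i => rw [cut_leg_l, join_leg]
    | right j =>
      revert j
      apply fin3
      · rw [cut_leg_0]
      · rw [cut_leg_1, join_r_0]
      · rw [cut_leg_2, join_r_0, join_r_1]

end

/-- Joining after cutting. -/
theorem join_cut (G : Gr V n) {x : V} (hx : G.r x ≠ x) : (G.cut x hx).join = G := by
  refine Gr.ext rfl (Equiv.ext fun v => ?_) (funext fun i => ?_)
  · by_cases h : G.vt x v
    · rcases h with rfl | rfl | rfl
      · have h1 := (G.cut v hx).join_r_0
        rw [cut_leg_0, cut_leg_1] at h1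
        exact h1
      · have h1 := (G.cut x hx).join_r_1
        rw [cut_leg_1, cut_leg_2] at h1
        exact h1
      · have h1 := (G.cut x hx).join_r_2
        rw [cut_leg_0, cut_leg_2] at h1
        rw [h1, G.r3]
    · rw [join_r_o, cut_r_o G hx h]
      intro j h'
      apply h
      rw [h']
      revert j
      apply fin3
      · rw [cut_leg_0]
        exact fun _ => Or.inl rfl
      · rw [cut_leg_1]
        exact fun _ => Or.inr (Or.inl rfl)
      · rw [cut_leg_2]
        exact fun _ => Or.inr (Or.inr rfl)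
  · rw [join_leg, cut_leg_l]

/-! ### Opening an edge -/

/-- The legs after the opening of an edge. -/
def opnL (G : Gr V n) : Fin (n + 2) → V ⊕ Bool :=
  Fin.append (fun i => Sum.inl (G.leg i)) ![Sum.inr false, Sum.inr true]

section

variable (G : Gr V n)

theorem opnL_l (i : Fin n) : G.opnL (Fin.castAdd 2 i) = Sum.inl (G.leg i) := Fin.append_left _ _ _

theorem opnL_0 : G.opnL (Fin.natAdd n 0) = Sum.inr false := Fin.append_right _ _ _

theorem opnL_1 : G.opnL (Fin.natAdd n 1) = Sum.inr true := Fin.append_right _ _ _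

/-- To check something for the last two positions. -/
theorem fin2 {P : Fin 2 → Prop} (h0 : P 0) (h1 : P 1) (j : Fin 2) : P j := by
  fin_cases j
  · exact h0
  · exact h1

theorem opnL_range (w : V ⊕ Bool) :
    (∃ i, G.opnL i = w) ↔ (∃ i, Sum.inl (G.leg i) = w) ∨ ∃ t, w = Sum.inr t := by
  constructor
  · rintro ⟨i, rfl⟩
    induction i using Fin.addCases with
    | left i =>
      rw [opnL_l]
      exact Or.inl ⟨i, rfl⟩
    | right j =>
      right
      revert j
      apply fin2
      · rw [opnL_0]
        exact ⟨_, rfl⟩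
      · rw [opnL_1]
        exact ⟨_, rfl⟩
  · rintro (⟨i, rfl⟩ | ⟨t, rfl⟩)
    · exact ⟨_, G.opnL_l i⟩
    · cases t
      · exact ⟨_, G.opnL_0⟩
      · exact ⟨_, G.opnL_1⟩

theorem opnL_inj : Function.Injective G.opnL := by
  have h3 : ∀ i j, G.opnL (Fin.castAdd 2 i) ≠ G.opnL (Fin.natAdd n j) := by
    intro i
    apply fin2
    · rw [opnL_l, opnL_0]
      exact Sum.inl_ne_inr
    · rw [opnL_l, opnL_1]
      exact Sum.inl_ne_inr
  have h4 : G.opnL (Fin.natAdd n 0) ≠ G.opnL (Fin.natAdd n 1) := by
    rw [opnL_0, opnL_1]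
    intro h
    cases h
  intro a b hab
  induction a using Fin.addCases with
  | left i =>
    induction b using Fin.addCases with
    | left j =>
      rw [opnL_l, opnL_l] at hab
      rw [G.inj (Sum.inl.inj hab)]
    | right j => exact absurd hab (h3 i j)
  | right i =>
    induction b using Fin.addCases with
    | left j => exact absurd hab.symm (h3 j i)
    | right j =>
      revert i j
      apply fin2
      · apply fin2
        · exact fun _ => rfl
        · exact fun h => absurd h h4
      · apply fin2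
        · exact fun h => absurd h.symm h4
        · exact fun _ => rfl

end

/-- The edge of `h` is opened: `h` is joined to the new leg `inr false`, at the position `n`, and
`e h` to the new leg `inr true`, at the position `n + 1`. -/
noncomputable def opn (G : Gr V n) (h : V) : Gr (V ⊕ Bool) (n + 2) where
  e := ⟨G.insE h, G.insE h, G.insE2, G.insE2⟩
  r := Equiv.sumCongr G.r (Equiv.refl Bool)
  leg := G.opnL
  e2 := G.insE2
  e1 := G.insE1
  r3 := by
    rintro (v | t)
    · show Sum.inl (G.r (G.r (G.r v))) = _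
      rw [G.r3]
    · rfl
  inj := G.opnL_inj
  fix w := by
    rw [opnL_range]
    rcases w with v | t
    · constructor
      · intro h'
        obtain ⟨i, rfl⟩ := (G.fix v).1 (Sum.inl.inj h')
        exact Or.inl ⟨i, rfl⟩
      · rintro (⟨i, hi⟩ | ⟨t, ht⟩)
        · show Sum.inl (G.r v) = _
          rw [← Sum.inl.inj hi, G.r_leg]
        · exact absurd ht Sum.inl_ne_inr
    · exact ⟨fun _ => Or.inr ⟨t, rfl⟩, fun _ => rfl⟩

section

variable (G : Gr V n) (h : V)

theorem opn_e (w : V ⊕ Bool) : (G.opn h).e w = G.insE h w := rfl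

theorem opn_r (v : V) : (G.opn h).r (Sum.inl v) = Sum.inl (G.r v) := rfl

theorem opn_r_new (t : Bool) : (G.opn h).r (Sum.inr t) = Sum.inr t := rfl

theorem opn_leg_l (i : Fin n) : (G.opn h).leg (Fin.castAdd 2 i) = Sum.inl (G.leg i) := G.opnL_l i

theorem opn_leg_0 : (G.opn h).leg (Fin.natAdd n 0) = Sum.inr false := G.opnL_0

theorem opn_leg_1 : (G.opn h).leg (Fin.natAdd n 1) = Sum.inr true := G.opnL_1

theorem opn_e_h : (G.opn h).e (Sum.inl h) = Sum.inr false := G.insE_h

theorem opn_e_eh : (G.opn h).e (Sum.inl (G.e h)) = Sum.inr true := G.insE_eh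

theorem opn_e_o {v : V} (h1 : v ≠ h) (h2 : v ≠ G.e h) : (G.opn h).e (Sum.inl v) = Sum.inl (G.e v) :=
  G.insE_o h1 h2

end

end Gr

end Pool.Agent.SWT80
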