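import Mathlib
import Pool.Agent.SWT80.Ops
import Pool.Agent.SWT93.Stmts

/-!
# Cutting and joining: isomorphisms, positions, reversals, IHX, connectedness
-/

set_option autoImplicit false

namespace Pool.Agent.SWT80

open Equiv Pool.Agent.SWT49

namespace Gr

variable {V W : Type} {n : ℕ}

/-! ### Isomorphisms -/

theorem map_vt (φ : V ≃ W) (G : Gr V n) (x v : V) : (G.map φ).vt (φ x) (φ v) ↔ G.vt x v := by
  unfold vt
  rw [map_r, map_r, φ.apply_eq_iff_eq, φ.apply_eq_iff_eq, φ.apply_eq_iff_eq]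

theorem map_in (φ : V ≃ W) (G : Gr V n) {x : V} (hx : G.r x ≠ x) :
    (G.map φ).r (φ x) ≠ φ x := by
  rw [map_r]
  exact fun h => hx (φ.injective h)

theorem cut_map (φ : V ≃ W) (G : Gr V n) {x : V} (hx : G.r x ≠ x) :
    (G.cut x hx).map φ = (G.map φ).cut (φ x) (G.map_in φ hx) := by
  refine map_eq (fun v => ?_) (fun v => ?_) fun i => ?_
  · rw [cut_e, cut_e, map_e]
  · rw [cut_r, cut_r]
    by_cases h : G.vt x v
    · rw [cutR_in _ h, cutR_in _ ((G.map_vt φ x v).2 h)]
    · rw [cutR_o _ h, cutR_o _ (fun h' => h ((G.map_vt φ x v).1 h')), map_r]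
  · induction i using Fin.addCases with
    | left i => rw [cut_leg_l, cut_leg_l, map_leg]
    | right j =>
      revert j
      apply fin3
      · rw [cut_leg_0, cut_leg_0]
      · rw [cut_leg_1, cut_leg_1, map_r]
      · rw [cut_leg_2, cut_leg_2, map_r, map_r]

theorem join_map (φ : V ≃ W) (R : Gr V (n + 3)) : R.join.map φ = (R.map φ).join := by
  refine map_eq (fun v => ?_) (fun v => ?_) fun i => ?_
  · rw [join_e, join_e, map_e]
  · by_cases h : ∃ j, v = R.leg (Fin.natAdd n j)
    · obtain ⟨j, rfl⟩ := h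
      revert j
      apply fin3
      · rw [join_r_0]
        exact (R.map φ).join_r_0
      · rw [join_r_1]
        exact (R.map φ).join_r_1
      · rw [join_r_2]
        exact (R.map φ).join_r_2
    · rw [join_r_o, join_r_o, map_r]
      · exact fun j h' => h ⟨j, h'⟩
      · intro j h'
        rw [map_leg] at h'
        exact h ⟨j, φ.injective h'⟩
  · rw [join_leg, join_leg, map_leg]

/-! ### The positions -/

theorem pq_smul_l (g : Perm (Fin n)) {k : ℕ} (h : Perm (Fin k)) (R : Gr V (n + k)) (i : Fin n) :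
    (pq g h • R).leg (Fin.castAdd k i) = R.leg (Fin.castAdd k (g⁻¹ i)) := by
  rw [smul_leg, pq_inv, pq_l]

theorem pq_smul_r (g : Perm (Fin n)) {k : ℕ} (h : Perm (Fin k)) (R : Gr V (n + k)) (j : Fin k) :
    (pq g h • R).leg (Fin.natAdd n j) = R.leg (Fin.natAdd n (h⁻¹ j)) := by
  rw [smul_leg, pq_inv, pq_r]

theorem cut_smul (g : Perm (Fin n)) (G : Gr V n) {x : V} (hx : G.r x ≠ x) :
    (g • G).cut x hx = pq g (1 : Perm (Fin 3)) • G.cut x hx := by
  refine Gr.ext rfl rfl (funext fun i => ?_)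
  induction i using Fin.addCases with
  | left i =>
    have h1 := cut_leg_l (g • G) (x := x) hx i
    rw [h1, pq_smul_l, cut_leg_l]
    rfl
  | right j =>
    rw [pq_smul_r, inv_one, Perm.one_apply]
    revert j
    apply fin3
    · exact (cut_leg_0 (g • G) (x := x) hx).trans (cut_leg_0 G hx).symm
    · exact (cut_leg_1 (g • G) (x := x) hx).trans (cut_leg_1 G hx).symm
    · exact (cut_leg_2 (g • G) (x := x) hx).trans (cut_leg_2 G hx).symm

theorem join_r_lst (Q : Gr V (n + 3)) (j : Fin 3) :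
    Q.join.r (Q.leg (Fin.natAdd n j)) = Q.leg (Fin.natAdd n (j + 1)) := by
  revert j
  apply fin3
  · exact Q.join_r_0
  · exact Q.join_r_1
  · exact Q.join_r_2

theorem join_r_lst2 (Q : Gr V (n + 3)) (j : Fin 3) :
    Q.join.r (Q.join.r (Q.leg (Fin.natAdd n j))) = Q.leg (Fin.natAdd n (j + 2)) := by
  rw [join_r_lst, join_r_lst, add_assoc]
  rfl

/-- The permutations of the ordinary positions. -/
theorem join_smul (g : Perm (Fin n)) (R : Gr V (n + 3)) :
    (pq g (1 : Perm (Fin 3)) • R).join = g • R.join := by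
  have e0 : ∀ j, (pq g (1 : Perm (Fin 3)) • R).leg (Fin.natAdd n j) =
    R.leg (Fin.natAdd n j) := fun j => by rw [pq_smul_r, inv_one, Perm.one_apply]
  refine Gr.ext rfl (Equiv.ext fun v => ?_) (funext fun i => ?_)
  · rw [smul_r]
    by_cases hv : ∃ j, v = R.leg (Fin.natAdd n j)
    · obtain ⟨j, rfl⟩ := hv
      have h2 := join_r_lst (pq g (1 : Perm (Fin 3)) • R) j
      rw [e0, e0] at h2
      rw [h2, join_r_lst]
    · rw [join_r_o, join_r_o]
      · rfl
      · exact fun j h' => hv ⟨j, h'⟩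
      · intro j h'
        rw [e0] at h'
        exact hv ⟨_, h'⟩
  · rw [join_leg, pq_smul_l, smul_leg, join_leg]

/-- Joining does not see the rotations of the last three legs. -/
theorem join_rot (R : Gr V (n + 3)) {h : Perm (Fin 3)} (hc : ∀ j, h⁻¹ (j + 1) = h⁻¹ j + 1) :
    (pq (1 : Perm (Fin n)) h • R).join = R.join := by
  have e0 : ∀ j, (pq (1 : Perm (Fin n)) h • R).leg (Fin.natAdd n j) =
    R.leg (Fin.natAdd n (h⁻¹ j)) := fun j => pq_smul_r 1 h R j
  refine Gr.ext rfl (Equiv.ext fun v => ?_) (funext fun i => ?_)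
  · by_cases hv : ∃ j, v = R.leg (Fin.natAdd n j)
    · obtain ⟨j, rfl⟩ := hv
      obtain ⟨i, rfl⟩ := h⁻¹.surjective j
      have h2 := join_r_lst (pq (1 : Perm (Fin n)) h • R) i
      rw [e0, e0, hc] at h2
      rw [h2, join_r_lst]
    · rw [join_r_o, join_r_o]
      · rfl
      · exact fun j h' => hv ⟨j, h'⟩
      · intro j h'
        rw [e0] at h'
        exact hv ⟨_, h'⟩
  · rw [join_leg, join_leg, pq_smul_l, inv_one, Perm.one_apply]

/-- The transpositions of the last three legs reverse the new vertex. -/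
theorem join_swap (R : Gr V (n + 3)) {h : Perm (Fin 3)} (hc : ∀ j, h⁻¹ (j + 1) = h⁻¹ j + 2) :
    (pq (1 : Perm (Fin n)) h • R).join = R.join.flip (R.leg (Fin.natAdd n 0)) := by
  have e0 : ∀ j, (pq (1 : Perm (Fin n)) h • R).leg (Fin.natAdd n j) =
    R.leg (Fin.natAdd n (h⁻¹ j)) := fun j => pq_smul_r 1 h R j
  refine Gr.ext rfl (Equiv.ext fun v => ?_) (funext fun i => ?_)
  · rw [flip_r]
    by_cases hv : ∃ j, v = R.leg (Fin.natAdd n j)
    · have hvt := (R.join_vt v).2 hv
      rw [fr_pos hvt]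
      obtain ⟨j, rfl⟩ := hv
      obtain ⟨i, rfl⟩ := h⁻¹.surjective j
      have h2 := join_r_lst (pq (1 : Perm (Fin n)) h • R) i
      rw [e0, e0, hc] at h2
      rw [h2, join_r_lst2]
    · rw [fr_neg (fun h' => hv ((R.join_vt v).1 h')), join_r_o, join_r_o]
      · rfl
      · exact fun j h' => hv ⟨j, h'⟩
      · intro j h'
        rw [e0] at h'
        exact hv ⟨_, h'⟩
  · rw [flip_leg, join_leg, join_leg, pq_smul_l, inv_one, Perm.one_apply]

/-- The permutations of three positions are rotations or reflections. -/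
theorem perm3_cases (h : Perm (Fin 3)) :
    ((∀ j, h⁻¹ (j + 1) = h⁻¹ j + 1) ∧ Perm.sign h = 1) ∨
      ((∀ j, h⁻¹ (j + 1) = h⁻¹ j + 2) ∧ Perm.sign h = -1) := by
  revert h
  decide

/-! ### Cutting at another half-edge of the vertex, and after a reversal -/

theorem vt_self (G : Gr V n) (x : V) : G.vt x x := Or.inl rfl

theorem vt_r1 (G : Gr V n) (x : V) : G.vt x (G.r x) := Or.inr (Or.inl rfl)

theorem vt_r2 (G : Gr V n) (x : V) : G.vt x (G.r (G.r x)) := Or.inr (Or.inr rfl)

theorem vt_symm (G : Gr V n) {x y : V} (h : G.vt x y) : G.vt y x := by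
  rcases h with rfl | rfl | rfl
  · exact G.vt_self _
  · exact Or.inr (Or.inr (by rw [G.r3]))
  · exact Or.inr (Or.inl (by rw [G.r3]))

theorem vt_trans (G : Gr V n) {x y z : V} (h : G.vt x y) (h' : G.vt y z) : G.vt x z := by
  rcases h' with rfl | rfl | rfl
  · exact h
  · exact G.vt_r.2 h
  · exact G.vt_r.2 (G.vt_r.2 h)

theorem vt_congr (G : Gr V n) {x y : V} (h : G.vt x y) (z : V) : G.vt y z ↔ G.vt x z :=
  ⟨fun h' => G.vt_trans h h', fun h' => G.vt_trans (G.vt_symm h) h'⟩

theorem cut_rot (G : Gr V n) {x : V} (hx : G.r x ≠ x) :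
    G.cut (G.r x) (G.inner_r hx) =
      pq (1 : Perm (Fin n)) ((finRotate 3)⁻¹ : Perm (Fin 3)) • G.cut x hx := by
  refine Gr.ext rfl (Equiv.ext fun v => ?_) (funext fun i => ?_)
  · show G.cutR (G.r x) v = G.cutR x v
    by_cases h : G.vt x v
    · rw [cutR_in _ h, cutR_in _ ((G.vt_congr (G.vt_r1 x) v).2 h)]
    · rw [cutR_o _ h, cutR_o _ (fun h' => h ((G.vt_congr (G.vt_r1 x) v).1 h'))]
  · induction i using Fin.addCases with
    | left i => rw [cut_leg_l, pq_smul_l, inv_one, Perm.one_apply, cut_leg_l]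
    | right j =>
      rw [pq_smul_r, inv_inv]
      revert j
      apply fin3
      · rw [cut_leg_0]
        exact (G.cut_leg_1 hx).symm
      · rw [cut_leg_1]
        exact (G.cut_leg_2 hx).symm
      · rw [cut_leg_2, G.r3]
        exact (G.cut_leg_0 hx).symm

theorem flip_in (G : Gr V n) {x : V} (hx : G.r x ≠ x) (y : V) : (G.flip y).r x ≠ x := by
  rw [flip_r]
  by_cases h : G.vt y x
  · rw [fr_pos h]
    exact G.r_ne_r2 hx
  · rw [fr_neg h]
    exact hx

/-- Cutting at a vertex and reversal of another one. -/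
theorem cut_flip_o (G : Gr V n) {x y : V} (hx : G.r x ≠ x) (hy : ¬ G.vt x y) :
    (G.flip y).cut x (G.flip_in hx y) = (G.cut x hx).flip y := by
  have hyx : ∀ v, G.vt x v → ¬ G.vt y v := fun v h h' => hy (G.vt_trans h (G.vt_symm h'))
  have e1 : (G.flip y).r x = G.r x := by rw [flip_r, fr_neg (hyx x (G.vt_self x))]
  have e2 : (G.flip y).r (G.r x) = G.r (G.r x) := by rw [flip_r, fr_neg (hyx _ (G.vt_r1 x))]
  have hvt : ∀ v, (G.flip y).vt x v ↔ G.vt x v := fun v => by
    unfold vt
    rw [e1, e2]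
  have c1 : (G.cut x hx).r y = G.r y := G.cut_r_o hx hy
  have c2 : (G.cut x hx).r (G.r y) = G.r (G.r y) := G.cut_r_o hx (fun h => hy (G.vt_r.1 h))
  have hvt2 : ∀ v, (G.cut x hx).vt y v ↔ G.vt y v := fun v => by
    unfold vt
    rw [c1, c2]
  refine Gr.ext rfl (Equiv.ext fun v => ?_) (funext fun i => ?_)
  · rw [flip_r]
    by_cases h : G.vt x v
    · rw [cut_r_in _ _ ((hvt v).2 h), fr_neg (fun h' => hyx v h ((hvt2 v).1 h')), cut_r_in _ _ h]
    · rw [cut_r_o _ _ (fun h' => h ((hvt v).1 h')), flip_r]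
      by_cases h2 : G.vt y v
      · have h3 : ¬ G.vt x (G.r v) := fun h' => h (G.vt_r.1 h')
        rw [fr_pos h2, fr_pos ((hvt2 v).2 h2), cut_r_o _ _ h, cut_r_o _ _ h3]
      · rw [fr_neg h2, fr_neg (fun h' => h2 ((hvt2 v).1 h')), cut_r_o _ _ h]
  · rw [flip_leg]
    induction i using Fin.addCases with
    | left i =>
      rw [cut_leg_l, cut_leg_l]
      rfl
    | right j =>
      revert j
      apply fin3
      · rw [cut_leg_0, cut_leg_0]
      · rw [cut_leg_1, cut_leg_1, e1]
      · rw [cut_leg_2, cut_leg_2, e1, e2]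

/-- Cutting at the vertex which is reversed. -/
theorem cut_flip (G : Gr V n) {x : V} (hx : G.r x ≠ x) :
    (G.flip x).cut x (G.flip_in hx x) =
      pq (1 : Perm (Fin n)) (Equiv.swap 1 2 : Perm (Fin 3)) • G.cut x hx := by
  have e1 : (G.flip x).r x = G.r (G.r x) := by rw [flip_r, fr_pos (G.vt_self x)]
  have e2 : (G.flip x).r (G.r (G.r x)) = G.r x := by
    rw [flip_r, fr_pos (G.vt_r2 x), G.r3]
  have hvt : ∀ v, (G.flip x).vt x v ↔ G.vt x v := fun v => by
    unfold vt
    rw [e1, e2]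
    constructor
    · rintro (h | h | h)
      · exact Or.inl h
      · exact Or.inr (Or.inr h)
      · exact Or.inr (Or.inl h)
    · rintro (h | h | h)
      · exact Or.inl h
      · exact Or.inr (Or.inr h)
      · exact Or.inr (Or.inl h)
  refine Gr.ext rfl (Equiv.ext fun v => ?_) (funext fun i => ?_)
  · rw [smul_r]
    by_cases h : G.vt x v
    · rw [cut_r_in _ _ ((hvt v).2 h), cut_r_in _ _ h]
    · rw [cut_r_o _ _ (fun h' => h ((hvt v).1 h')), flip_r, fr_neg h, cut_r_o _ _ h]
  · induction i using Fin.addCases with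
    | left i =>
      rw [cut_leg_l, pq_smul_l, inv_one, Perm.one_apply, cut_leg_l]
      rfl
    | right j =>
      rw [pq_smul_r, swap_inv]
      revert j
      apply fin3
      · rw [cut_leg_0]
        exact (G.cut_leg_0 hx).symm
      · rw [cut_leg_1, e1]
        exact (G.cut_leg_2 hx).symm
      · rw [cut_leg_2, e1, e2]
        exact (G.cut_leg_1 hx).symm

theorem join_flip (R : Gr V (n + 3)) {y : V} (hy : ∀ j, y ≠ R.leg (Fin.natAdd n j)) :
    (R.flip y).join = R.join.flip y := by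
  by_cases h0 : R.r y = y
  · have e1 : ∀ G : Gr V (n + 3), G.r y = y → G.flip y = G := by
      intro G h
      refine Gr.ext rfl (Equiv.ext fun v => ?_) rfl
      rw [flip_r]
      by_cases hv : G.vt y v
      · rw [fr_pos hv]
        rcases hv with rfl | rfl | rfl
        · rw [h, h]
        · rw [h, h, h]
        · rw [h, h, h, h]
      · rw [fr_neg hv]
    have e2 : ∀ G : Gr V n, G.r y = y → G.flip y = G := by
      intro G h
      refine Gr.ext rfl (Equiv.ext fun v => ?_) rfl
      rw [flip_r]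
      by_cases hv : G.vt y v
      · rw [fr_pos hv]
        rcases hv with rfl | rfl | rfl
        · rw [h, h]
        · rw [h, h, h]
        · rw [h, h, h, h]
      · rw [fr_neg hv]
    rw [e1 R h0, e2]
    rw [join_r_o _ hy, h0]
  · have k1 : ∀ v, R.vt y v → ∀ j, v ≠ R.leg (Fin.natAdd n j) := by
      intro v hv j h
      apply R.leg_not_vt h0 (Fin.natAdd n j)
      rw [← h]
      exact hv
    have r1 : R.join.r y = R.r y := R.join_r_o hy
    have r2 : R.join.r (R.r y) = R.r (R.r y) := R.join_r_o (k1 _ (R.vt_r1 y))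
    have hvt : ∀ v, R.join.vt y v ↔ R.vt y v := fun v => by
      unfold vt
      rw [r1, r2]
    have e0 : ∀ j, (R.flip y).leg (Fin.natAdd n j) = R.leg (Fin.natAdd n j) := fun j => rfl
    refine Gr.ext rfl (Equiv.ext fun v => ?_) rfl
    rw [flip_r]
    by_cases hv : ∃ j, v = R.leg (Fin.natAdd n j)
    · obtain ⟨j, rfl⟩ := hv
      rw [fr_neg (fun h' => k1 _ ((hvt _).1 h') j rfl), join_r_lst]
      exact join_r_lst (R.flip y) j
    · have hv' : ∀ j, v ≠ R.leg (Fin.natAdd n j) := fun j h' => hv ⟨j, h'⟩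
      rw [join_r_o (R.flip y) hv', flip_r]
      by_cases h2 : R.vt y v
      · rw [fr_pos h2, fr_pos ((hvt v).2 h2), join_r_o _ hv', join_r_o]
        exact k1 _ (R.vt_r.2 h2)
      · rw [fr_neg h2, fr_neg (fun h' => h2 ((hvt v).1 h')), join_r_o _ hv']

end Gr

end Pool.Agent.SWT80
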