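import Mathlib
import Pool.Agent.SWT80.Ops2
import Pool.Agent.SWT49.GrDefs

/-!
# Cutting and joining: the relation IHX, connectedness; the value with the hub at a vertex
-/

set_option autoImplicit false

namespace Pool.Agent.SWT80

open Equiv Pool.Agent.SWT49

namespace Gr

variable {V W : Type} {n m : ℕ}

/-! ### The relation IHX -/

/-- `IHX` only sees the two vertices of the edge. -/
theorem Loc.congr {I J X : Gr V n} {I' J' X' : Gr V m} {y : V} (h : Loc I J X y)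
    (eI : I'.e = I.e) (eJ : J'.e = I.e) (eX : X'.e = I.e)
    (hr : ∀ v, I.vt y v ∨ I.vt (I.e y) v → I'.r v = I.r v ∧ J'.r v = J.r v ∧ X'.r v = X.r v)
    (ho : ∀ v, ¬ I.vt y v → ¬ I.vt (I.e y) v → J'.r v = I'.r v ∧ X'.r v = I'.r v)
    (lJ : J'.leg = I'.leg) (lX : X'.leg = I'.leg) : Loc I' J' X' y := by
  have a0 := hr y (Or.inl (I.vt_self y))
  have a1 := hr (I.r y) (Or.inl (I.vt_r1 y))
  have a2 := hr (I.r (I.r y)) (Or.inl (I.vt_r2 y))
  have b0 := hr (I.e y) (Or.inr (I.vt_self _))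
  have b1 := hr (I.r (I.e y)) (Or.inr (I.vt_r1 _))
  have b2 := hr (I.r (I.r (I.e y))) (Or.inr (I.vt_r2 _))
  have v1 : ∀ v, I'.vt y v ↔ I.vt y v := fun v => by
    unfold vt
    rw [a0.1, a1.1]
  have v2 : ∀ v, I'.vt (I'.e y) v ↔ I.vt (I.e y) v := fun v => by
    unfold vt
    rw [eI, b0.1, b1.1]
  refine ⟨⟨?_, ?_, ?_, ?_⟩, ?_, ?_, ?_, ?_, ?_, ?_, ?_, ?_, ?_, ?_, ?_, ?_, ?_, ?_, ?_, ?_, ?_⟩
  · rw [a0.1]
    exact h.ok.ix
  · rw [eI, b0.1]
    exact h.ok.iy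
  · rw [eI, a0.1]
    exact h.ok.ya
  · rw [eI, a0.1, a1.1]
    exact h.ok.yb
  · rw [a0.1, a1.1, a0.2.1, h.j1]
  · rw [a0.1, a1.1, a2.2.1, eI, b0.1, h.j2]
  · rw [eI, b0.1, b1.2.1, h.j3]
  · rw [eI, b0.1, b1.1, b0.2.1, h.j4]
  · rw [eI, b0.1, b1.1, b2.2.1, a0.1, h.j5]
  · rw [eI, a0.1, a1.2.1, h.j6]
  · rw [a0.1, a0.2.2, h.x1]
  · rw [eI, a0.1, a1.2.2, b0.1, h.x2]
  · rw [eI, b0.1, b1.2.2, h.x3]
  · rw [eI, b0.1, b1.1, b0.2.2, h.x4]
  · rw [eI, b0.1, b1.1, b2.2.2, a0.1, a1.1, h.x5]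
  · rw [eI, a0.1, a1.1, a2.2.2, h.x6]
  · intro v h1 h2
    exact ho v (fun h' => h1 ((v1 v).2 h')) (fun h' => h2 ((v2 v).2 h'))
  · rw [eJ, eI]
  · rw [eX, eI]
  · exact lJ
  · exact lX

theorem Loc.rJ_in {I J X : Gr V n} {y : V} (h : Loc I J X y) {v : V} (hv : I.r v ≠ v) :
    J.r v ≠ v := by
  intro h'
  obtain ⟨i, rfl⟩ := (J.fix v).1 h'
  rw [h.lJ] at hv
  exact hv (I.r_leg i)

theorem Loc.rX_in {I J X : Gr V n} {y : V} (h : Loc I J X y) {v : V} (hv : I.r v ≠ v) :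
    X.r v ≠ v := by
  intro h'
  obtain ⟨i, rfl⟩ := (X.fix v).1 h'
  rw [h.lX] at hv
  exact hv (I.r_leg i)

/-- Joining the last three legs. -/
theorem Loc.join {I J X : Gr V (n + 3)} {y : V} (h : Loc I J X y) :
    Loc I.join J.join X.join y := by
  have k : ∀ v, I.vt y v ∨ I.vt (I.e y) v → ∀ j, v ≠ I.leg (Fin.natAdd n j) := by
    rintro v (hv | hv) j h'
    · apply I.leg_not_vt h.ok.ix (Fin.natAdd n j)
      rw [← h']
      exact hv
    · apply I.leg_not_vt h.ok.iy (Fin.natAdd n j)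
      rw [← h']
      exact hv
  apply h.congr
  · rfl
  · exact h.eJ
  · exact h.eX
  · intro v hv
    have kv := k v hv
    refine ⟨I.join_r_o kv, J.join_r_o ?_, X.join_r_o ?_⟩
    · rw [h.lJ]
      exact kv
    · rw [h.lX]
      exact kv
  · intro v h1 h2
    by_cases hv : ∃ j, v = I.leg (Fin.natAdd n j)
    · obtain ⟨j, rfl⟩ := hv
      have e1 := I.join_r_lst j
      have e2 := J.join_r_lst j
      have e3 := X.join_r_lst j
      rw [h.lJ] at e2
      rw [h.lX] at e3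
      rw [e1, e2, e3]
      exact ⟨rfl, rfl⟩
    · have hv' : ∀ j, v ≠ I.leg (Fin.natAdd n j) := fun j h' => hv ⟨j, h'⟩
      rw [I.join_r_o hv', J.join_r_o (by rw [h.lJ]; exact hv'),
        X.join_r_o (by rw [h.lX]; exact hv')]
      exact h.oth v h1 h2
  · funext i
    rw [join_leg, join_leg, h.lJ]
  · funext i
    rw [join_leg, join_leg, h.lX]

section

variable {I J X : Gr V n} {x y : V}

theorem Loc.vt_off (h : Loc I J X y) (h1 : ¬ I.vt x y) (h2 : ¬ I.vt x (I.e y)) :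
    (∀ v, J.vt x v ↔ I.vt x v) ∧ (∀ v, X.vt x v ↔ I.vt x v) ∧ J.r x = I.r x ∧
      J.r (I.r x) = I.r (I.r x) ∧ X.r x = I.r x ∧ X.r (I.r x) = I.r (I.r x) := by
  have k : ∀ v, I.vt x v → ¬ I.vt y v ∧ ¬ I.vt (I.e y) v := fun v hv =>
    ⟨fun h' => h1 (I.vt_trans hv (I.vt_symm h')), fun h' => h2 (I.vt_trans hv (I.vt_symm h'))⟩
  have o0 := h.oth x (k x (I.vt_self x)).1 (k x (I.vt_self x)).2
  have o1 := h.oth (I.r x) (k _ (I.vt_r1 x)).1 (k _ (I.vt_r1 x)).2
  refine ⟨fun v => ?_, fun v => ?_, o0.1, o1.1, o0.2, o1.2⟩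
  · unfold vt
    rw [o0.1, o1.1]
  · unfold vt
    rw [o0.2, o1.2]

/-- Cutting at a vertex which is not an end of the edge. -/
theorem Loc.cut (h : Loc I J X y) (hx : I.r x ≠ x) (h1 : ¬ I.vt x y) (h2 : ¬ I.vt x (I.e y)) :
    Loc (I.cut x hx) (J.cut x (h.rJ_in hx)) (X.cut x (h.rX_in hx)) y := by
  obtain ⟨vJ, vX, o0, o1, o2, o3⟩ := h.vt_off h1 h2
  apply h.congr
  · rfl
  · exact h.eJ
  · exact h.eX
  · intro v hv
    have hn : ¬ I.vt x v := by
      rcases hv with hv | hv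
      · exact fun h' => h1 (I.vt_trans h' (I.vt_symm hv))
      · exact fun h' => h2 (I.vt_trans h' (I.vt_symm hv))
    exact ⟨cut_r_o _ _ hn, cut_r_o _ _ (fun h' => hn ((vJ v).1 h')),
      cut_r_o _ _ (fun h' => hn ((vX v).1 h'))⟩
  · intro v k1 k2
    by_cases hn : I.vt x v
    · rw [cut_r_in _ _ ((vJ v).2 hn), cut_r_in _ _ ((vX v).2 hn), cut_r_in _ _ hn]
      exact ⟨rfl, rfl⟩
    · rw [cut_r_o _ _ (fun h' => hn ((vJ v).1 h')), cut_r_o _ _ (fun h' => hn ((vX v).1 h')),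
        cut_r_o _ _ hn]
      exact h.oth v k1 k2
  · funext i
    induction i using Fin.addCases with
    | left i => rw [cut_leg_l, cut_leg_l, h.lJ]
    | right j =>
      revert j
      apply fin3
      · rw [cut_leg_0, cut_leg_0]
      · rw [cut_leg_1, cut_leg_1, o0]
      · rw [cut_leg_2, cut_leg_2, o0, o1]
  · funext i
    induction i using Fin.addCases with
    | left i => rw [cut_leg_l, cut_leg_l, h.lX]
    | right j =>
      revert j
      apply fin3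
      · rw [cut_leg_0, cut_leg_0]
      · rw [cut_leg_1, cut_leg_1, o2]
      · rw [cut_leg_2, cut_leg_2, o2, o3]

end

/-! ### Connectedness -/

/-- The sets of half-edges which are closed in the cut graph. -/
theorem cld_cut (G : Gr V n) {x : V} (hx : G.r x ≠ x) {S : Set V} :
    SWT93.Cld (G.cut x hx) S ↔
      (∀ v ∈ S, G.e v ∈ S) ∧ ∀ v ∈ S, ¬ G.vt x v → G.r v ∈ S := by
  constructor
  · intro h
    refine ⟨h.e, fun v hv hn => ?_⟩
    have h1 := h.r v hv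
    rwa [cut_r_o _ _ hn] at h1
  · rintro ⟨h1, h2⟩
    refine ⟨h1, fun v hv => ?_⟩
    by_cases hn : G.vt x v
    · rw [cut_r_in _ _ hn]
      exact hv
    · rw [cut_r_o _ _ hn]
      exact h2 v hv hn

theorem Cld_cut (G : Gr V n) {x : V} (hx : G.r x ≠ x) {S : Set V} (h : SWT93.Cld G S) :
    SWT93.Cld (G.cut x hx) S := (G.cld_cut hx).2 ⟨h.e, fun v hv _ => h.r v hv⟩

theorem gconn_of_cut (G : Gr V n) {x : V} (hx : G.r x ≠ x) (h : SWT49.GConn (G.cut x hx)) :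
    SWT49.GConn G := fun S h1 h2 h3 => by
  have h4 := G.Cld_cut hx (S := S) ⟨h2, h3⟩
  exact h S h1 h4.e h4.r

theorem gconn93_of_cut (G : Gr V n) {x : V} (hx : G.r x ≠ x) (h : SWT93.GConn (G.cut x hx)) :
    SWT93.GConn G := fun S h1 h2 => h S (G.Cld_cut hx h1) h2

theorem gconn_join (R : Gr V (n + 3)) (h : SWT49.GConn R) : SWT49.GConn R.join := by
  apply gconn_of_cut _ R.join_in
  rw [cut_join]
  exact h

theorem gconn93_join (R : Gr V (n + 3)) (h : SWT93.GConn R) : SWT93.GConn R.join := by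
  apply gconn93_of_cut _ R.join_in
  rw [cut_join]
  exact h

/-- The two definitions of connectedness are the same. -/
theorem gconn_iff (G : Gr V n) : SWT93.GConn G ↔ SWT49.GConn G :=
  ⟨fun h S h1 h2 h3 => h S ⟨h2, h3⟩ h1, fun h S h1 h2 => h S h2 h1.e h1.r⟩

theorem gconn_smul (g : Perm (Fin n)) (G : Gr V n) : SWT49.GConn (g • G) ↔ SWT49.GConn G := Iff.rfl

theorem gconn_map (φ : V ≃ W) (G : Gr V n) : SWT49.GConn (G.map φ) ↔ SWT49.GConn G := by
  constructor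
  · intro h S h1 h2 h3
    have h4 := h (φ '' S) (h1.image φ) (by
      rintro _ ⟨v, hv, rfl⟩
      exact ⟨_, h2 v hv, (G.map_e φ v).symm⟩) (by
      rintro _ ⟨v, hv, rfl⟩
      exact ⟨_, h3 v hv, (G.map_r φ v).symm⟩)
    ext v
    have h5 : φ v ∈ φ '' S := by
      rw [h4]
      exact Set.mem_univ _
    obtain ⟨u, hu, h6⟩ := h5
    rw [φ.injective h6] at hu
    exact ⟨fun _ => Set.mem_univ _, fun _ => hu⟩
  · intro h S h1 h2 h3
    have h4 := h (φ ⁻¹' S) (by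
      obtain ⟨w, hw⟩ := h1
      exact ⟨φ.symm w, by rwa [Set.mem_preimage, Equiv.apply_symm_apply]⟩) (by
      intro v hv
      have h5 := h2 _ hv
      rwa [map_e] at h5) (by
      intro v hv
      have h5 := h3 _ hv
      rwa [map_r] at h5)
    ext w
    have h5 : φ.symm w ∈ φ ⁻¹' S := by
      rw [h4]
      exact Set.mem_univ _
    rw [Set.mem_preimage, Equiv.apply_symm_apply] at h5
    exact ⟨fun _ => Set.mem_univ _, fun _ => h5⟩

theorem gconn_flip (G : Gr V n) (x : V) : SWT49.GConn (G.flip x) ↔ SWT49.GConn G := by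
  have key : ∀ S : Set V, (∀ v ∈ S, G.r v ∈ S) → ∀ v ∈ S, G.fr x v ∈ S := by
    intro S h v hv
    by_cases h1 : G.vt x v
    · rw [fr_pos h1]
      exact h _ (h _ hv)
    · rw [fr_neg h1]
      exact h _ hv
  constructor
  · intro h S h1 h2 h3
    exact h S h1 h2 (key S h3)
  · intro h S h1 h2 h3
    apply h S h1 h2
    intro v hv
    have h4 : ∀ v ∈ S, G.fr x v ∈ S := h3
    by_cases h5 : G.vt x v
    · have e1 := h4 v hv
      have e2 := h4 _ e1
      rw [fr_pos h5] at e1 e2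
      rw [fr_pos (G.vt_r.2 (G.vt_r.2 h5)), G.r3] at e2
      exact e2
    · have e1 := h4 v hv
      rw [fr_neg h5] at e1
      exact e1

end Gr

end Pool.Agent.SWT80
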