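import Mathlib
import Pool.Agent.SWT80.Ops3
import Pool.Agent.SWT65.Ops

/-!
# The value with the hub at a vertex
-/

set_option autoImplicit false

namespace Pool.Agent.SWT80

open Equiv Pool.Agent.SWT49 Pool.Agent.SWT65

/-! ### Transpositions of ordinary positions -/

/-- `s i` for an ordinary position, as a permutation of the ordinary positions. -/
theorem s_pq (m : ℕ) (i : Fin m) :
    (s (n := m + 1 + 2) (Fin.castLE (by omega) i) : Perm (Fin (m + 1 + 3))) =
      pq (s i) (1 : Perm (Fin 3)) := by
  refine perm_ext (n := m + 1) (k := 3) (fun j => ?_) fun j => ?_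
  · rw [pq_l]
    unfold s
    by_cases h1 : j = i.castSucc
    · subst h1
      rw [swap_apply_left]
      exact swap_apply_left _ _
    by_cases h2 : j = i.succ
    · subst h2
      rw [swap_apply_right]
      exact swap_apply_right _ _
    rw [swap_apply_of_ne_of_ne h1 h2]
    apply swap_apply_of_ne_of_ne
    · intro h3
      have h4 : j.val = i.val := congrArg Fin.val h3
      exact h1 (Fin.ext h4)
    · intro h3
      have h4 : j.val = i.val + 1 := congrArg Fin.val h3
      exact h2 (Fin.ext h4)
  · rw [pq_r, Perm.one_apply]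
    apply swap_apply_of_ne_of_ne
    · intro h3
      have h4 := congrArg Fin.val h3
      have h5 := i.2
      simp at h4
      omega
    · intro h3
      have h4 := congrArg Fin.val h3
      have h5 := i.2
      simp at h4
      omega

/-- The transposition of the first two of the last three positions. -/
theorem s_pq1 (n : ℕ) : (s (n := n + 2) (Fin.natAdd n (0 : Fin 2)) : Perm (Fin (n + 3))) =
    pq (1 : Perm (Fin n)) (swap 0 1 : Perm (Fin 3)) := by
  refine perm_ext (n := n) (k := 3) (fun j => ?_) fun j => ?_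
  · rw [pq_l, Perm.one_apply]
    apply swap_apply_of_ne_of_ne
    · intro h3
      have h4 := congrArg Fin.val h3
      have h5 := j.2
      simp at h4
      omega
    · intro h3
      have h4 := congrArg Fin.val h3
      have h5 := j.2
      simp at h4
      omega
  · rw [pq_r]
    revert j
    apply Gr.fin3
    · exact swap_apply_left _ _
    · exact swap_apply_right _ _
    · apply swap_apply_of_ne_of_ne
      · intro h3
        have h4 := congrArg Fin.val h3
        simp at h4
      · intro h3
        have h4 := congrArg Fin.val h3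
        simp at h4

/-- The transposition of the last two positions. -/
theorem s_pq2 (n : ℕ) : (s (n := n + 2) (Fin.natAdd n (1 : Fin 2)) : Perm (Fin (n + 3))) =
    pq (1 : Perm (Fin n)) (swap 1 2 : Perm (Fin 3)) := by
  refine perm_ext (n := n) (k := 3) (fun j => ?_) fun j => ?_
  · rw [pq_l, Perm.one_apply]
    apply swap_apply_of_ne_of_ne
    · intro h3
      have h4 := congrArg Fin.val h3
      have h5 := j.2
      simp at h4
      omega
    · intro h3
      have h4 := congrArg Fin.val h3
      have h5 := j.2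
      simp at h4
      omega
  · rw [pq_r]
    revert j
    apply Gr.fin3
    · apply swap_apply_of_ne_of_ne
      · intro h3
        have h4 := congrArg Fin.val h3
        simp at h4
      · intro h3
        have h4 := congrArg Fin.val h3
        simp at h4
        omega
    · exact swap_apply_left _ _
    · exact swap_apply_right _ _

/-! ### Functionals which are alternating in the last three positions -/

variable {M : Type} [AddCommGroup M] {n : ℕ}

/-- The functional is alternating in the last three positions. -/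
structure Alt3 (F : (V : Type) → Gr V (n + 3) → M) : Prop where
  s0 : ∀ (V : Type) [Finite V] (R : Gr V (n + 3)),
    F V (pq (1 : Perm (Fin n)) (swap 0 1 : Perm (Fin 3)) • R) = - F V R
  s1 : ∀ (V : Type) [Finite V] (R : Gr V (n + 3)),
    F V (pq (1 : Perm (Fin n)) (swap 1 2 : Perm (Fin 3)) • R) = - F V R

theorem Alt3.rot {F : (V : Type) → Gr V (n + 3) → M} (hF : Alt3 F) (V : Type) [Finite V]
    (R : Gr V (n + 3)) : F V (pq (1 : Perm (Fin n)) ((finRotate 3)⁻¹ : Perm (Fin 3)) • R) =
      F V R := by
  have e1 : ((finRotate 3)⁻¹ : Perm (Fin 3)) = swap 1 2 * swap 0 1 := by decide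
  have e2 : pq (1 : Perm (Fin n)) ((finRotate 3)⁻¹ : Perm (Fin 3)) =
      pq (1 : Perm (Fin n)) (swap 1 2 : Perm (Fin 3)) *
        pq (1 : Perm (Fin n)) (swap 0 1 : Perm (Fin 3)) := by
    rw [pq_mul, e1, mul_one]
  rw [e2, mul_smul, hF.s1, hF.s0, neg_neg]

section

variable {F : (V : Type) → Gr V (n + 3) → M} {V W : Type}

theorem at3_in (G : Gr V n) {x : V} (hx : G.r x ≠ x) : at3 F V G x = F V (G.cut x hx) :=
  dif_neg hx

theorem at3_leg (G : Gr V n) {x : V} (hx : G.r x = x) : at3 F V G x = 0 :=
  dif_pos hx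

theorem at3_join (R : Gr V (n + 3)) : at3 F V R.join (R.leg (Fin.natAdd n 0)) = F V R := by
  rw [at3_in _ R.join_in, Gr.cut_join]

theorem at3_r [Finite V] (hF : Alt3 F) (G : Gr V n) (x : V) :
    at3 F V G (G.r x) = at3 F V G x := by
  by_cases hx : G.r x = x
  · rw [hx]
  · rw [at3_in _ hx, at3_in _ (G.inner_r hx), G.cut_rot hx, hF.rot]

theorem at3_vt [Finite V] (hF : Alt3 F) (G : Gr V n) {x y : V} (h : G.vt x y) :
    at3 F V G y = at3 F V G x := by
  rcases h with rfl | rfl | rfl
  · rfl
  · exact at3_r hF G x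
  · rw [at3_r hF, at3_r hF]

theorem at3_map [Finite V] (hF : Rel F) (φ : V ≃ W) (G : Gr V n) (x : V) :
    at3 F W (G.map φ) (φ x) = at3 F V G x := by
  by_cases hx : G.r x = x
  · rw [at3_leg _ hx, at3_leg]
    rw [Gr.map_r, hx]
  · rw [at3_in _ hx, at3_in _ (G.map_in φ hx), ← Gr.cut_map, hF.iso]

theorem at3_flip [Finite V] (hF : Rel F) (hA : Alt3 F) (G : Gr V n) {y : V} (hy : G.r y ≠ y)
    (x : V) : at3 F V (G.flip y) x = - at3 F V G x := by
  by_cases hx : G.r x = x
  · rw [at3_leg _ hx, at3_leg, neg_zero]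
    rw [Gr.flip_r]
    by_cases h : G.vt y x
    · exact absurd hx (G.vt_inner hy h)
    · rw [Gr.fr_neg h, hx]
  by_cases h : G.vt x y
  · have e1 : G.flip y = G.flip x := by
      refine Gr.ext rfl (Equiv.ext fun v => ?_) rfl
      rw [Gr.flip_r, Gr.flip_r]
      by_cases hv : G.vt x v
      · rw [Gr.fr_pos hv, Gr.fr_pos ((G.vt_congr h v).2 hv)]
      · rw [Gr.fr_neg hv, Gr.fr_neg (fun h' => hv ((G.vt_congr h v).1 h'))]
    rw [e1, at3_in _ (G.flip_in hx x), G.cut_flip hx, hA.s1, at3_in _ hx]
  · rw [at3_in _ (G.flip_in hx y), G.cut_flip_o hx h, at3_in _ hx, hF.as]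
    rw [Gr.cut_r_o _ _ h]
    exact hy

/-- IHX away from the hub. -/
theorem at3_ihx [Finite V] (hF : Rel F) {I J X : Gr V n} {y : V} (h : Gr.Loc I J X y) {x : V}
    (h1 : ¬ I.vt x y) (h2 : ¬ I.vt x (I.e y)) :
    at3 F V I x = at3 F V J x - at3 F V X x := by
  by_cases hx : I.r x = x
  · obtain ⟨i, rfl⟩ := (I.fix x).1 hx
    have hJ : J.r (I.leg i) = I.leg i := by
      rw [← h.lJ]
      exact J.r_leg i
    have hX : X.r (I.leg i) = I.leg i := by
      rw [← h.lX]
      exact X.r_leg i
    rw [at3_leg _ hx, at3_leg _ hJ, at3_leg _ hX, sub_zero]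
  · rw [at3_in _ hx, at3_in _ (h.rJ_in hx), at3_in _ (h.rX_in hx)]
    exact hF.ihx _ _ _ _ _ (h.cut hx h1 h2)

theorem at3_smul (G : Gr V n) (g : Perm (Fin n)) (x : V) :
    at3 F V (g • G) x = at3 (fun V R => F V (pq g (1 : Perm (Fin 3)) • R)) V G x := by
  by_cases hx : G.r x = x
  · rw [at3_leg _ hx, at3_leg]
    exact hx
  · rw [at3_in _ hx, at3_in (x := x) (g • G) hx, ← Gr.cut_smul]

/-- The difference rule for the value with the hub at `x`. -/
theorem at3_diff {m : ℕ} {F : (V : Type) → Gr V (m + 1 + 3) → M}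
    {c : (V : Type) → Gr V (m + 1) → Fin m → M} (G : Gr V (m + 1)) {x : V} (hx : G.r x ≠ x)
    (i : Fin m) (hd : F V (G.cut x hx) - F V (pq (s i) (1 : Perm (Fin 3)) • G.cut x hx) =
      c V (G.cut x hx).join i) :
    at3 F V G x - at3 F V (s i • G) x = c V G i := by
  rw [at3_smul, at3_in _ hx, at3_in _ hx, hd, Gr.join_cut]

end

end Pool.Agent.SWT80
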