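import Mathlib
import Pool.Agent.SWT80.Ops4
import Pool.Agent.SWT65.Ops
import Pool.Agent.SWT58.Kir

/-!
# A new leg on the edge of another leg, and the chords between two legs
-/

set_option autoImplicit false

namespace Pool.Agent.SWT80

open Equiv Pool.Agent.SWT49 Pool.Agent.SWT65

variable {V W M : Type} {n m : ℕ}

/-! ### Evaluation -/

section

variable (G : Gr V n) (p : Fin (n + 1)) (h : V)

theorem add_leg_new : (add G p h).leg p = Sum.inr 3 := addL_new G p

theorem add_leg_old (k : Fin n) : (add G p h).leg (p.succAbove k) = Sum.inl (G.leg k) :=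
  addL_old G p k

theorem add_r_l (v : V) : (add G p h).r (Sum.inl v) = Sum.inl (G.r v) := rfl

theorem add_r_0 : (add G p h).r (Sum.inr 0) = Sum.inr 1 := rfl

theorem add_r_1 : (add G p h).r (Sum.inr 1) = Sum.inr 2 := rfl

theorem add_r_2 : (add G p h).r (Sum.inr 2) = Sum.inr 0 := rfl

theorem add_r_3 : (add G p h).r (Sum.inr 3) = Sum.inr 3 := rfl

theorem add_e_h : (add G p h).e (Sum.inl h) = Sum.inr 0 := addE_h G h

theorem add_e_eh : (add G p h).e (Sum.inl (G.e h)) = Sum.inr 1 := addE_eh G h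

theorem add_e_o {v : V} (h1 : v ≠ h) (h2 : v ≠ G.e h) :
    (add G p h).e (Sum.inl v) = Sum.inl (G.e v) := addE_o G h1 h2

theorem add_e_0 : (add G p h).e (Sum.inr 0) = Sum.inl h := rfl

theorem add_e_1 : (add G p h).e (Sum.inr 1) = Sum.inl (G.e h) := rfl

theorem add_e_2 : (add G p h).e (Sum.inr 2) = Sum.inr 3 := rfl

theorem add_e_3 : (add G p h).e (Sum.inr 3) = Sum.inr 2 := rfl

end

/-- To check something for the four new half-edges. -/
theorem fin4 {P : Fin 4 → Prop} (h0 : P 0) (h1 : P 1) (h2 : P 2) (h3 : P 3) (j : Fin 4) : P j := by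
  fin_cases j
  · exact h0
  · exact h1
  · exact h2
  · exact h3

/-! ### The position of the new leg -/

theorem s_succAbove (q : Fin n) (k : Fin n) :
    s q (q.castSucc.succAbove k) = q.succ.succAbove k := by
  rcases lt_trichotomy k q with h | h | h
  · rw [Fin.succAbove_of_castSucc_lt _ _ (Fin.castSucc_lt_castSucc_iff.2 h),
      Fin.succAbove_of_castSucc_lt _ _
        ((Fin.castSucc_lt_castSucc_iff.2 h).trans Fin.castSucc_lt_succ)]
    apply Equiv.swap_apply_of_ne_of_ne
    · exact fun h1 => h.ne (Fin.castSucc_injective _ h1)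
    · exact ((Fin.castSucc_lt_castSucc_iff.2 h).trans Fin.castSucc_lt_succ).ne
  · rw [h, Fin.succAbove_castSucc_self, Fin.succAbove_succ_self, s_succ]
  · rw [Fin.succAbove_of_le_castSucc _ _ (Fin.castSucc_le_castSucc_iff.2 h.le),
      Fin.succAbove_of_le_castSucc _ _ (Fin.succ_le_castSucc_iff.2 h)]
    apply Equiv.swap_apply_of_ne_of_ne
    · intro h1
      have := congrArg Fin.val h1
      rw [Fin.lt_def] at h
      simp only [Fin.val_castSucc, Fin.val_succ] at this
      omega
    · exact fun h1 => h.ne' (Fin.succ_injective _ h1)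

theorem add_s (G : Gr V n) (q : Fin n) (h : V) :
    s q • add G q.succ h = add G q.castSucc h := by
  refine Gr.ext rfl rfl (funext fun i => ?_)
  rw [Gr.s_smul_leg]
  rcases Fin.eq_self_or_eq_succAbove q.castSucc i with rfl | ⟨k, rfl⟩
  · rw [s_castSucc, add_leg_new, add_leg_new]
  · rw [s_succAbove, add_leg_old, add_leg_old]

/-! ### Joining the special legs -/

theorem sA1 (p : Fin (n + 1)) (k : Fin n) :
    Fin.succAbove (n := n + 3) (Fin.castAdd 3 p) (Fin.castAdd 3 k) =
      (Fin.castAdd 3 (p.succAbove k) : Fin (n + 1 + 3)) := by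
  apply Fin.ext
  rcases lt_or_ge k.castSucc p with h | h
  · rw [Fin.succAbove_of_castSucc_lt _ _ h, Fin.succAbove_of_castSucc_lt]
    · rfl
    · exact h
  · rw [Fin.succAbove_of_le_castSucc _ _ h, Fin.succAbove_of_le_castSucc]
    · rfl
    · exact h

theorem sA2 (p : Fin (n + 1)) (j : Fin 3) :
    Fin.succAbove (n := n + 3) (Fin.castAdd 3 p) (Fin.natAdd n j) =
      (Fin.natAdd (n + 1) j : Fin (n + 1 + 3)) := by
  apply Fin.ext
  rw [Fin.succAbove_of_le_castSucc]
  · show n + j.val + 1 = n + 1 + j.val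
    omega
  · have h1 := p.2
    rw [Fin.le_def]
    show p.val ≤ n + j.val
    omega

section

variable (K : Gr V (n + 3)) (p : Fin (n + 1)) (h : V)

/-- The new leg at an ordinary position `p`, for a graph with three special legs. -/
noncomputable abbrev add3 : Gr (V ⊕ Fin 4) (n + 1 + 3) := add K (Fin.castAdd 3 p) h

theorem add3_leg_new : (add3 K p h).leg (Fin.castAdd 3 p) = Sum.inr 3 :=
  add_leg_new K (Fin.castAdd 3 p) h

theorem add3_leg_old (k : Fin n) : (add3 K p h).leg (Fin.castAdd 3 (p.succAbove k)) =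
    Sum.inl (K.leg (Fin.castAdd 3 k)) := by
  rw [← sA1]
  exact add_leg_old K _ h _

theorem add3_leg_sp (j : Fin 3) : (add3 K p h).leg (Fin.natAdd (n + 1) j) =
    Sum.inl (K.leg (Fin.natAdd n j)) := by
  rw [← sA2 p]
  exact add_leg_old K _ h _

/-- Joining the special legs after the addition of an ordinary leg. -/
theorem join_add3 : (add3 K p h).join = add K.join p h := by
  refine Gr.ext rfl (Equiv.ext fun w => ?_) (funext fun i => ?_)
  · by_cases hw : ∃ j, w = (add3 K p h).leg (Fin.natAdd (n + 1) j)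
    · obtain ⟨j, rfl⟩ := hw
      rw [Gr.join_r_lst, add3_leg_sp, add3_leg_sp, add_r_l, Gr.join_r_lst]
    · rw [Gr.join_r_o _ (fun j hj => hw ⟨j, hj⟩)]
      rcases w with v | t
      · show Sum.inl (K.r v) = Sum.inl (K.join.r v)
        rw [K.join_r_o]
        intro j hj
        apply hw
        exact ⟨j, by rw [add3_leg_sp, hj]⟩
      · clear hw
        revert t
        apply fin4 <;> rfl
  · rw [Gr.join_leg]
    rcases Fin.eq_self_or_eq_succAbove p i with rfl | ⟨k, rfl⟩
    · rw [add3_leg_new, add_leg_new]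
    · rw [add3_leg_old, add_leg_old, Gr.join_leg]

end

/-- The new leg passes the ordinary leg `q`. -/
theorem add3_s (K : Gr V (n + 3)) (q : Fin n) (h : V) :
    pq (s q) (1 : Perm (Fin 3)) • add3 K q.succ h = add3 K q.castSucc h := by
  rw [← s_pq]
  exact add_s K (Fin.castLE (by omega : n ≤ n + 3) q) h

/-! ### The exchange of the two leaves of a cherry -/

open Classical in
/-- The exchange of the new leg and the leg `l`. -/
noncomputable def exF (l : V) : V ⊕ Fin 4 → V ⊕ Fin 4
  | Sum.inl v => if v = l then Sum.inr 3 else Sum.inl v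
  | Sum.inr 0 => Sum.inr 2
  | Sum.inr 1 => Sum.inr 1
  | Sum.inr 2 => Sum.inr 0
  | Sum.inr 3 => Sum.inl l

section

variable {l : V}

theorem exF_l : exF l (Sum.inl l) = Sum.inr 3 := if_pos rfl

theorem exF_o {v : V} (h : v ≠ l) : exF l (Sum.inl v) = Sum.inl v := if_neg h

theorem exF_0 : exF l (Sum.inr 0) = Sum.inr 2 := rfl

theorem exF_1 : exF l (Sum.inr 1) = Sum.inr 1 := rfl

theorem exF_2 : exF l (Sum.inr 2) = Sum.inr 0 := rfl

theorem exF_3 : exF l (Sum.inr 3) = Sum.inl l := rfl

theorem exF2 (w : V ⊕ Fin 4) : exF l (exF l w) = w := by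
  rcases w with v | t
  · by_cases h : v = l
    · rw [h, exF_l, exF_3]
    · rw [exF_o h, exF_o h]
  · revert t
    apply fin4
    · rw [exF_0, exF_2]
    · rw [exF_1, exF_1]
    · rw [exF_2, exF_0]
    · rw [exF_3, exF_l]

end

/-- The exchange of the new leg and the leg `l`. -/
noncomputable def exE (l : V) : V ⊕ Fin 4 ≃ V ⊕ Fin 4 :=
  Function.Involutive.toPerm (exF l) exF2

theorem exE_apply (l : V) (w : V ⊕ Fin 4) : exE l w = exF l w := rfl

theorem add_vt_0 (G : Gr V n) (p : Fin (n + 1)) (h : V) (w : V ⊕ Fin 4) :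
    (add G p h).vt (Sum.inr 0) w ↔ w = Sum.inr 0 ∨ w = Sum.inr 1 ∨ w = Sum.inr 2 := Iff.rfl

theorem add_cherry (G : Gr V n) (i : Fin n) :
    (add G i.castSucc (G.leg i)).map (exE (G.leg i)) =
      (add G i.succ (G.leg i)).flip (Sum.inr 0) := by
  have hne : G.e (G.leg i) ≠ G.leg i := G.e1 _
  refine Gr.map_eq (fun w => ?_) (fun w => ?_) fun k => ?_
  · rw [Gr.flip_e, exE_apply, exE_apply]
    rcases w with v | t
    · by_cases h1 : v = G.leg i
      · rw [h1, exF_l, add_e_h, exF_0, add_e_3]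
      by_cases h2 : v = G.e (G.leg i)
      · rw [h2, exF_o hne, add_e_eh, add_e_eh, exF_1]
      rw [exF_o h1, add_e_o _ _ _ h1 h2, add_e_o _ _ _ h1 h2, exF_o]
      intro h3
      apply h2
      rw [← h3, G.e2]
    · revert t
      apply fin4
      · rw [exF_0, add_e_0, add_e_2, exF_l]
      · rw [exF_1, add_e_1, add_e_1, exF_o hne]
      · rw [exF_2, add_e_2, add_e_0, exF_3]
      · rw [exF_3, add_e_3, add_e_h, exF_2]
  · rw [Gr.flip_r, exE_apply, exE_apply]
    rcases w with v | t
    · by_cases h1 : v = G.leg i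
      · rw [h1, exF_l, Gr.fr_neg, add_r_3, add_r_l, G.r_leg, exF_l]
        rw [add_vt_0]
        simp
      · rw [exF_o h1, Gr.fr_neg, add_r_l, add_r_l, exF_o]
        · exact G.r_ne (G.r_leg i) h1
        · rw [add_vt_0]
          simp
    · revert t
      apply fin4
      · rw [exF_0, Gr.fr_pos, add_r_2, add_r_0, add_r_0, exF_1]
        rw [add_vt_0]
        exact Or.inr (Or.inr rfl)
      · rw [exF_1, Gr.fr_pos, add_r_1, add_r_2, add_r_1, exF_2]
        rw [add_vt_0]
        exact Or.inr (Or.inl rfl)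
      · rw [exF_2, Gr.fr_pos, add_r_0, add_r_1, add_r_2, exF_0]
        rw [add_vt_0]
        exact Or.inl rfl
      · rw [exF_3, Gr.fr_neg, add_r_l, G.r_leg, add_r_3, exF_3]
        rw [add_vt_0]
        simp
  · rw [Gr.flip_leg, exE_apply]
    rcases Fin.eq_self_or_eq_succAbove i.castSucc k with rfl | ⟨k, rfl⟩
    · rw [add_leg_new, exF_3]
      have h1 := add_leg_old G i.succ (G.leg i) i
      rw [Fin.succAbove_succ_self] at h1
      exact h1
    · rw [add_leg_old]
      by_cases h1 : k = i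
      · rw [h1, exF_l, Fin.succAbove_castSucc_self, add_leg_new]
      · rw [exF_o (G.leg_ne h1)]
        have h2 : i.castSucc.succAbove k = i.succ.succAbove k := by
          have h3 := s_succAbove i k
          rw [← h3]
          symm
          apply Equiv.swap_apply_of_ne_of_ne
          · exact Fin.succAbove_ne _ _
          · intro h4
            rw [← Fin.succAbove_castSucc_self i] at h4
            exact h1 (Fin.succAbove_right_injective h4)
        rw [h2, add_leg_old]

/-! ### The chord between two legs -/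

/-- The end of the leg `p` of `add G p (G.leg i)` is put on the edge of the leg `j`: a chord between
the legs `i` and `j`. It does not depend on `p`. -/
noncomputable def chord (G : Gr V n) (i j : Fin n) : Gr ((V ⊕ Fin 4) ⊕ Bool) n :=
  (add G (Fin.last n) (G.leg i)).ins (Fin.last n) (Sum.inl (G.leg j))

theorem chord_eq (G : Gr V n) (p : Fin (n + 1)) (i j : Fin n) :
    (add G p (G.leg i)).ins p (Sum.inl (G.leg j)) = chord G i j := by
  unfold chord
  refine Gr.ext (Equiv.ext fun w => ?_) (Equiv.ext fun w => ?_) (funext fun k => ?_)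
  · rw [Gr.ins_e, Gr.ins_e]
    rfl
  · rw [Gr.ins_r, Gr.ins_r, add_leg_new, add_leg_new]
    rfl
  · rw [Gr.ins_leg, Gr.ins_leg, add_leg_old, add_leg_old]

/-- The isomorphism of the two descriptions of a chord. -/
def chF : (V ⊕ Fin 4) ⊕ Bool → (V ⊕ Fin 4) ⊕ Bool
  | Sum.inl (Sum.inl v) => Sum.inl (Sum.inl v)
  | Sum.inl (Sum.inr 0) => Sum.inr false
  | Sum.inl (Sum.inr 1) => Sum.inr true
  | Sum.inl (Sum.inr 2) => Sum.inl (Sum.inr 3)
  | Sum.inl (Sum.inr 3) => Sum.inl (Sum.inr 2)
  | Sum.inr false => Sum.inl (Sum.inr 0)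
  | Sum.inr true => Sum.inl (Sum.inr 1)

theorem chF2 (w : (V ⊕ Fin 4) ⊕ Bool) : chF (chF w) = w := by
  rcases w with (v | t) | t
  · rfl
  · revert t
    apply fin4 <;> rfl
  · cases t <;> rfl

/-- The isomorphism of the two descriptions of a chord. -/
def chE : (V ⊕ Fin 4) ⊕ Bool ≃ (V ⊕ Fin 4) ⊕ Bool := Function.Involutive.toPerm chF chF2

theorem chE_apply (w : (V ⊕ Fin 4) ⊕ Bool) : chE w = chF w := rfl

section

variable (G : Gr V n) (i j : Fin n)

theorem chord_leg (k : Fin n) : (chord G i j).leg k = Sum.inl (Sum.inl (G.leg k)) := by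
  unfold chord
  rw [Gr.ins_leg, add_leg_old]

theorem chord_r_l (v : V) : (chord G i j).r (Sum.inl (Sum.inl v)) = Sum.inl (Sum.inl (G.r v)) := by
  unfold chord
  rw [Gr.ins_r, add_leg_new]
  exact Gr.insR_o _ Sum.inl_ne_inr

theorem chord_r_0 : (chord G i j).r (Sum.inl (Sum.inr 0)) = Sum.inl (Sum.inr 1) := by
  unfold chord
  rw [Gr.ins_r, add_leg_new]
  exact Gr.insR_o _ (by simp)

theorem chord_r_1 : (chord G i j).r (Sum.inl (Sum.inr 1)) = Sum.inl (Sum.inr 2) := by
  unfold chord
  rw [Gr.ins_r, add_leg_new]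
  exact Gr.insR_o _ (by simp)

theorem chord_r_2 : (chord G i j).r (Sum.inl (Sum.inr 2)) = Sum.inl (Sum.inr 0) := by
  unfold chord
  rw [Gr.ins_r, add_leg_new]
  exact Gr.insR_o _ (by simp)

theorem chord_r_3 : (chord G i j).r (Sum.inl (Sum.inr 3)) = Sum.inr false := by
  unfold chord
  rw [Gr.ins_r, add_leg_new]
  exact Gr.insR_p _

theorem chord_r_f : (chord G i j).r (Sum.inr false) = Sum.inr true := rfl

theorem chord_r_t : (chord G i j).r (Sum.inr true) = Sum.inl (Sum.inr 3) := by
  unfold chord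
  rw [Gr.ins_r, add_leg_new]
  exact Gr.insR_y _

variable {i j}

theorem chord_e_i (hij : i ≠ j) (h1 : G.e (G.leg i) ≠ G.leg j) :
    (chord G i j).e (Sum.inl (Sum.inl (G.leg i))) = Sum.inl (Sum.inr 0) := by
  unfold chord
  rw [Gr.ins_e, Gr.insE_o, add_e_h]
  · exact fun h => hij (G.inj (Sum.inl.inj h))
  · rw [add_e_o _ _ _ (G.leg_ne hij.symm) (fun h => h1 h.symm)]
    intro h
    have h2 : G.leg i = G.e (G.leg j) := Sum.inl.inj h
    apply h1
    rw [h2, G.e2]

theorem chord_e_ei (hij : i ≠ j) (h1 : G.e (G.leg i) ≠ G.leg j) :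
    (chord G i j).e (Sum.inl (Sum.inl (G.e (G.leg i)))) = Sum.inl (Sum.inr 1) := by
  unfold chord
  rw [Gr.ins_e, Gr.insE_o, add_e_eh]
  · exact fun h => h1 (Sum.inl.inj h)
  · rw [add_e_o _ _ _ (G.leg_ne hij.symm) (fun h => h1 h.symm)]
    intro h
    exact hij (G.inj (G.e_inj (Sum.inl.inj h)))

theorem chord_e_j (hij : i ≠ j) (h1 : G.e (G.leg i) ≠ G.leg j) :
    (chord G i j).e (Sum.inl (Sum.inl (G.leg j))) = Sum.inr false := by
  unfold chord
  rw [Gr.ins_e]
  exact Gr.insE_h _

theorem chord_e_ej (hij : i ≠ j) (h1 : G.e (G.leg i) ≠ G.leg j) :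
    (chord G i j).e (Sum.inl (Sum.inl (G.e (G.leg j)))) = Sum.inr true := by
  unfold chord
  rw [Gr.ins_e]
  have h2 := Gr.insE_eh (add G (Fin.last n) (G.leg i)) (h := Sum.inl (G.leg j))
  rw [add_e_o _ _ _ (G.leg_ne hij.symm) (fun h => h1 h.symm)] at h2
  exact h2

theorem chord_e_o (hij : i ≠ j) (h1 : G.e (G.leg i) ≠ G.leg j) {v : V} (k1 : v ≠ G.leg i)
    (k2 : v ≠ G.e (G.leg i)) (k3 : v ≠ G.leg j) (k4 : v ≠ G.e (G.leg j)) :
    (chord G i j).e (Sum.inl (Sum.inl v)) = Sum.inl (Sum.inl (G.e v)) := by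
  unfold chord
  rw [Gr.ins_e, Gr.insE_o, add_e_o _ _ _ k1 k2]
  · exact fun h => k3 (Sum.inl.inj h)
  · rw [add_e_o _ _ _ (G.leg_ne hij.symm) (fun h => h1 h.symm)]
    exact fun h => k4 (Sum.inl.inj h)

theorem chord_e_0 (hij : i ≠ j) (h1 : G.e (G.leg i) ≠ G.leg j) :
    (chord G i j).e (Sum.inl (Sum.inr 0)) = Sum.inl (Sum.inl (G.leg i)) := by
  rw [← chord_e_i G hij h1, (chord G i j).e2]

theorem chord_e_1 (hij : i ≠ j) (h1 : G.e (G.leg i) ≠ G.leg j) :
    (chord G i j).e (Sum.inl (Sum.inr 1)) = Sum.inl (Sum.inl (G.e (G.leg i))) := by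
  rw [← chord_e_ei G hij h1, (chord G i j).e2]

theorem chord_e_2 (hij : i ≠ j) (h1 : G.e (G.leg i) ≠ G.leg j) :
    (chord G i j).e (Sum.inl (Sum.inr 2)) = Sum.inl (Sum.inr 3) := by
  unfold chord
  rw [Gr.ins_e, Gr.insE_o, add_e_2]
  · exact fun h => by cases h
  · rw [add_e_o _ _ _ (G.leg_ne hij.symm) (fun h => h1 h.symm)]
    exact fun h => by cases h

theorem chord_e_3 (hij : i ≠ j) (h1 : G.e (G.leg i) ≠ G.leg j) :
    (chord G i j).e (Sum.inl (Sum.inr 3)) = Sum.inl (Sum.inr 2) := by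
  rw [← chord_e_2 G hij h1, (chord G i j).e2]

theorem chord_e_f : (chord G i j).e (Sum.inr false) = Sum.inl (Sum.inl (G.leg j)) := rfl

theorem chord_e_t (hij : i ≠ j) (h1 : G.e (G.leg i) ≠ G.leg j) :
    (chord G i j).e (Sum.inr true) = Sum.inl (Sum.inl (G.e (G.leg j))) := by
  rw [← chord_e_ej G hij h1, (chord G i j).e2]

/-- **The symmetry of the chord.** -/
theorem chord_map (hij : i ≠ j) (h1 : G.e (G.leg i) ≠ G.leg j) :
    (chord G i j).map chE = chord G j i := by
  have h1' : G.e (G.leg j) ≠ G.leg i := by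
    intro h
    apply h1
    rw [← h, G.e2]
  refine Gr.map_eq (fun w => ?_) (fun w => ?_) fun k => ?_
  · rw [chE_apply, chE_apply]
    rcases w with (v | t) | t
    · show (chord G j i).e (Sum.inl (Sum.inl v)) = _
      by_cases k1 : v = G.leg i
      · rw [k1, chord_e_i G hij h1, chord_e_j G hij.symm h1']
        rfl
      by_cases k2 : v = G.e (G.leg i)
      · rw [k2, chord_e_ei G hij h1, chord_e_ej G hij.symm h1']
        rfl
      by_cases k3 : v = G.leg j
      · rw [k3, chord_e_j G hij h1, chord_e_i G hij.symm h1']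
        rfl
      by_cases k4 : v = G.e (G.leg j)
      · rw [k4, chord_e_ej G hij h1, chord_e_ei G hij.symm h1']
        rfl
      rw [chord_e_o G hij h1 k1 k2 k3 k4, chord_e_o G hij.symm h1' k3 k4 k1 k2]
      rfl
    · revert t
      apply fin4
      · rw [chord_e_0 G hij h1]
        exact chord_e_f G
      · rw [chord_e_1 G hij h1]
        exact chord_e_t G hij.symm h1'
      · rw [chord_e_2 G hij h1]
        exact chord_e_3 G hij.symm h1'
      · rw [chord_e_3 G hij h1]
        exact chord_e_2 G hij.symm h1'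
    · cases t
      · rw [chord_e_f G]
        exact chord_e_0 G hij.symm h1'
      · rw [chord_e_t G hij h1]
        exact chord_e_1 G hij.symm h1'
  · rw [chE_apply, chE_apply]
    rcases w with (v | t) | t
    · rw [chord_r_l]
      exact chord_r_l G j i v
    · revert t
      apply fin4
      · rw [chord_r_0]
        exact chord_r_f G j i
      · rw [chord_r_1]
        exact chord_r_t G j i
      · rw [chord_r_2]
        exact chord_r_3 G j i
      · rw [chord_r_3]
        exact chord_r_2 G j i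
    · cases t
      · rw [chord_r_f]
        exact chord_r_0 G j i
      · rw [chord_r_t]
        exact chord_r_1 G j i
  · rw [chord_leg, chord_leg]
    rfl

end

end Pool.Agent.SWT80
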