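import Mathlib
import Pool.Agent.SWT80.AddC
import Pool.Agent.SWT80.Fields
import Pool.Agent.SWT58.Turn
import Pool.Agent.SWT65.Stmts
import Pool.Agent.SWT67.Opn3

/-!
# Adding a leg: connectedness, cutting; the properties of the differences used for the hub slide
-/

set_option autoImplicit false

namespace Pool.Agent.SWT80

open Equiv Pool.Agent.SWT49 Pool.Agent.SWT65

variable {V W M : Type} {n : ℕ}

/-! ### Connectedness -/

theorem gconn_add {G : Gr V n} {p : Fin (n + 1)} {h : V} :
    SWT93.GConn (add G p h) ↔ SWT93.GConn G := by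
  constructor
  · intro hG S hS hne
    have h1 : {w : V ⊕ Fin 4 | (∃ v, w = Sum.inl v ∧ v ∈ S) ∨ ∃ t, w = Sum.inr t ∧ h ∈ S} =
        Set.univ := by
      apply hG
      · have heS : ∀ v, G.e v ∈ S ↔ v ∈ S := fun v =>
          ⟨fun h1 => by rw [← G.e2 v]; exact hS.e _ h1, hS.e v⟩
        constructor
        · rintro w (⟨v, rfl, hv⟩ | ⟨t, rfl, hh⟩)
          · by_cases k1 : v = h
            · rw [k1] at hv ⊢
              rw [add_e_h]
              exact Or.inr ⟨_, rfl, hv⟩
            by_cases k2 : v = G.e h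
            · rw [k2] at hv ⊢
              rw [add_e_eh]
              exact Or.inr ⟨_, rfl, (heS h).1 hv⟩
            rw [add_e_o _ _ _ k1 k2]
            exact Or.inl ⟨_, rfl, hS.e v hv⟩
          · revert t
            apply fin4
            · exact Or.inl ⟨_, rfl, hh⟩
            · exact Or.inl ⟨_, rfl, hS.e _ hh⟩
            · exact Or.inr ⟨_, rfl, hh⟩
            · exact Or.inr ⟨_, rfl, hh⟩
        · rintro w (⟨v, rfl, hv⟩ | ⟨t, rfl, hh⟩)
          · exact Or.inl ⟨_, rfl, hS.r v hv⟩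
          · revert t
            apply fin4
            · exact Or.inr ⟨_, rfl, hh⟩
            · exact Or.inr ⟨_, rfl, hh⟩
            · exact Or.inr ⟨_, rfl, hh⟩
            · exact Or.inr ⟨_, rfl, hh⟩
      · obtain ⟨v, hv⟩ := hne
        exact ⟨Sum.inl v, Or.inl ⟨v, rfl, hv⟩⟩
    ext v
    have h2 : (Sum.inl v : V ⊕ Fin 4) ∈ {w : V ⊕ Fin 4 | (∃ v, w = Sum.inl v ∧ v ∈ S) ∨
        ∃ t, w = Sum.inr t ∧ h ∈ S} := by
      rw [h1]
      trivial
    rcases h2 with ⟨u, h3, h4⟩ | ⟨t, h3, _⟩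
    · rw [Sum.inl.inj h3]
      exact ⟨fun _ => trivial, fun _ => h4⟩
    · cases h3
  · intro hG S hS hne
    have a0 : Sum.inr 0 ∈ S ↔ Sum.inl h ∈ S := by
      constructor
      · intro h1
        exact hS.e _ h1
      · intro h1
        have h2 := hS.e _ h1
        rwa [add_e_h] at h2
    have a1 : Sum.inr 0 ∈ S → Sum.inr 1 ∈ S := fun h1 => hS.r _ h1
    have a2 : Sum.inr 1 ∈ S → Sum.inr 2 ∈ S := fun h1 => hS.r _ h1
    have a3 : Sum.inr 2 ∈ S → Sum.inr 0 ∈ S := fun h1 => hS.r _ h1
    have a4 : Sum.inr 2 ∈ S → Sum.inr 3 ∈ S := fun h1 => hS.e _ h1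
    have a5 : Sum.inr 3 ∈ S → Sum.inr 2 ∈ S := fun h1 => hS.e _ h1
    have a6 : Sum.inr 1 ∈ S ↔ Sum.inl (G.e h) ∈ S := by
      constructor
      · intro h1
        exact hS.e _ h1
      · intro h1
        have h2 := hS.e _ h1
        rwa [add_e_eh] at h2
    have b : ∀ t : Fin 4, Sum.inr t ∈ S → Sum.inr 0 ∈ S := by
      apply fin4
      · exact id
      · exact fun h1 => a3 (a2 h1)
      · exact a3
      · exact fun h1 => a3 (a5 h1)
    have h1 : Sum.inl ⁻¹' S = Set.univ := by
      apply hG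
      · constructor
        · intro v hv
          show Sum.inl (G.e v) ∈ S
          by_cases k1 : v = h
          · rw [k1] at hv ⊢
            exact a6.1 (a1 (a0.2 hv))
          by_cases k2 : v = G.e h
          · rw [k2] at hv ⊢
            rw [G.e2]
            exact a0.1 (a3 (a2 (a6.2 hv)))
          have h2 := hS.e _ hv
          rwa [add_e_o _ _ _ k1 k2] at h2
        · intro v hv
          exact hS.r _ hv
      · obtain ⟨w, hw⟩ := hne
        rcases w with v | t
        · exact ⟨v, hw⟩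
        · exact ⟨h, a0.1 (b t hw)⟩
    have h2 : ∀ v, Sum.inl v ∈ S := by
      intro v
      have h3 : v ∈ Sum.inl ⁻¹' S := by
        rw [h1]
        trivial
      exact h3
    have c0 := a0.2 (h2 h)
    ext w
    refine ⟨fun _ => trivial, fun _ => ?_⟩
    rcases w with v | t
    · exact h2 v
    · revert t
      apply fin4
      · exact fun _ => c0
      · exact fun _ => a1 c0
      · exact fun _ => a2 (a1 c0)
      · exact fun _ => a4 (a2 (a1 c0))

theorem card_add [Finite V] : Nat.card (V ⊕ Fin 4) = Nat.card V + 4 := by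
  rw [Nat.card_sum, Nat.card_eq_fintype_card (α := Fin 4), Fintype.card_fin]

theorem one_add [Finite V] {G : Gr V n} {p : Fin (n + 1)} {h : V} :
    SWT65.One (add G p h) ↔ SWT65.One G := by
  constructor
  · intro h1
    refine ⟨gconn_add.1 h1.conn, ?_⟩
    have h2 := h1.card
    rw [card_add] at h2
    omega
  · intro h1
    refine ⟨gconn_add.2 h1.conn, ?_⟩
    rw [card_add, h1.card]
    omega

theorem one_add3 [Finite V] {K : Gr V (n + 3)} {p : Fin (n + 1)} {h : V} :
    SWT65.One (n := n + 1 + 3) (add K (Fin.castAdd 3 p) h) ↔ SWT65.One K :=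
  one_add (n := n + 3) (p := Fin.castAdd 3 p)

/-! ### Cutting -/

theorem add_in (G : Gr V n) (p : Fin (n + 1)) (h : V) {x : V} (hx : G.r x ≠ x) :
    (add G p h).r (Sum.inl x) ≠ Sum.inl x := fun h' => hx (Sum.inl.inj h')

theorem add_vt (G : Gr V n) (p : Fin (n + 1)) (h x : V) (w : V ⊕ Fin 4) :
    (add G p h).vt (Sum.inl x) w ↔ ∃ v, w = Sum.inl v ∧ G.vt x v := by
  constructor
  · rintro (h1 | h1 | h1)
    · exact ⟨_, h1, G.vt_self x⟩
    · exact ⟨_, h1, G.vt_r1 x⟩
    · exact ⟨_, h1, G.vt_r2 x⟩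
  · rintro ⟨v, rfl, h1 | h1 | h1⟩
    · rw [h1]
      exact Or.inl rfl
    · rw [h1]
      exact Or.inr (Or.inl rfl)
    · rw [h1]
      exact Or.inr (Or.inr rfl)

/-- Adding a leg and cutting at a vertex. -/
theorem cut_add (G : Gr V n) (p : Fin (n + 1)) (h : V) {x : V} (hx : G.r x ≠ x) :
    (add G p h).cut (Sum.inl x) (add_in G p h hx) = add (G.cut x hx) (Fin.castAdd 3 p) h := by
  refine Gr.ext rfl (Equiv.ext fun w => ?_) (funext fun i => ?_)
  · show (add G p h).cutR (Sum.inl x) w = addR (G.cut x hx) w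
    rcases w with v | t
    · by_cases h1 : G.vt x v
      · rw [Gr.cutR_in _ ((add_vt G p h x _).2 ⟨v, rfl, h1⟩)]
        show _ = Sum.inl ((G.cut x hx).r v)
        rw [Gr.cut_r_in _ _ h1]
      · rw [Gr.cutR_o]
        · show Sum.inl (G.r v) = Sum.inl ((G.cut x hx).r v)
          rw [Gr.cut_r_o _ _ h1]
        · intro h2
          obtain ⟨u, h3, h4⟩ := (add_vt G p h x _).1 h2
          exact h1 ((Sum.inl.inj h3).symm ▸ h4)
    · rw [Gr.cutR_o]
      · revert t
        apply fin4 <;> rfl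
      · intro h2
        obtain ⟨u, h3, _⟩ := (add_vt G p h x _).1 h2
        cases h3
  · induction i using Fin.addCases with
    | left i =>
      rw [Gr.cut_leg_l]
      rcases Fin.eq_self_or_eq_succAbove p i with rfl | ⟨k, rfl⟩
      · rw [add_leg_new, add3_leg_new]
      · rw [add_leg_old, add3_leg_old, Gr.cut_leg_l]
    | right j =>
      rw [add3_leg_sp]
      revert j
      apply Gr.fin3
      · rw [Gr.cut_leg_0, Gr.cut_leg_0]
      · rw [Gr.cut_leg_1, Gr.cut_leg_1]
        rfl
      · rw [Gr.cut_leg_2, Gr.cut_leg_2]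
        rfl

/-! ### The differences -/

variable [AddCommGroup M]

section

variable {F₀ : (V : Type) → Gr V n → M} (hF : Rel F₀) [Finite V]

include hF

theorem dif_chord (G : Gr V n) (j p : Fin n) :
    F₀ _ ((add G p.castSucc (G.leg j)).mg p) = F₀ _ (chord G j p) := by
  have h1 : (add G p.castSucc (G.leg j)).leg p.succ = Sum.inl (G.leg p) := by
    have h2 := add_leg_old G p.castSucc (G.leg j) p
    rw [Fin.succAbove_castSucc_self] at h2
    exact h2
  rw [SWT58.F_mg_left hF, h1, chord_eq]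

theorem chord_symm (G : Gr V n) (he : ∀ i j, G.e (G.leg i) ≠ G.leg j) (i j : Fin n) :
    F₀ _ (chord G i j) = F₀ _ (chord G j i) := by
  by_cases hij : i = j
  · rw [hij]
  · rw [← chord_map G hij (he i j), hF.iso]

/-- The symmetry of the differences. -/
theorem b_symm (G : Gr V n) (he : ∀ i j, G.e (G.leg i) ≠ G.leg j) (j p : Fin n) :
    F₀ _ ((add G p.castSucc (G.leg j)).mg p) = F₀ _ ((add G j.castSucc (G.leg p)).mg j) := by
  rw [dif_chord hF, dif_chord hF, chord_symm hF G he]

/-- The sum of the differences. -/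
theorem b_sum (h2 : ∀ m : M, m + m = 0 → m = 0) (G : Gr V n)
    (he : ∀ i j, G.e (G.leg i) ≠ G.leg j) (p : Fin n) :
    ∑ j, F₀ _ ((add G p.castSucc (G.leg j)).mg p) = 0 := by
  have h1 := SWT58.kirchhoff hF (add G (Fin.last n) (G.leg p)) (Fin.last n) Set.univ
    (fun _ _ => trivial) (fun _ _ => trivial)
  simp only [Set.mem_univ, if_true] at h1
  rw [Fin.sum_univ_castSucc, SWT58.F_self hF _ _ h2, add_zero] at h1
  rw [← h1]
  refine Finset.sum_congr rfl fun j _ => ?_
  rw [dif_chord hF, chord_symm hF G he]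
  have h3 : (add G (Fin.last n) (G.leg p)).leg j.castSucc = Sum.inl (G.leg j) := by
    have h4 := add_leg_old G (Fin.last n) (G.leg p) j
    rw [Fin.succAbove_last] at h4
    exact h4
  rw [h3]
  rfl

end

/-- The new leg passes the ordinary leg `q`, in the other direction. -/
theorem add3_s' (K : Gr V (n + 3)) (q : Fin n) (h : V) :
    pq (s q) (1 : Perm (Fin 3)) • add3 K q.castSucc h = add3 K q.succ h := by
  rw [← add3_s, ← mul_smul, pq_mul, s_mul_s, one_mul, pq_one, one_smul]

section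

variable {F₀ : (V : Type) → Gr V n → M} {W : (V : Type) → Gr V (n + 1 + 3) → M} [Finite V]

/-- The step. -/
theorem a_step (hW : Hub (dif F₀) W) (D : Gr V (n + 3)) (hD : SWT65.One D) (h : V) (p : Fin n) :
    W _ (add D (Fin.castAdd 3 p.castSucc) h) - W _ (add D (Fin.castAdd 3 p.succ) h) =
      F₀ _ ((add D.join p.castSucc h).mg p) := by
  have h1 := hW.diff _ (add3 D p.castSucc h) p (one_add3.2 hD)
  rw [add3_s', join_add3] at h1
  exact h1

/-- The exchange of the leaves of the cherry. -/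
theorem a_self (hW : Rel W) (D : Gr V (n + 3)) (j : Fin n) :
    W _ (add D (Fin.castAdd 3 j.succ) (D.leg (Fin.castAdd 3 j))) =
      - W _ (add D (Fin.castAdd 3 j.castSucc) (D.leg (Fin.castAdd 3 j))) := by
  have h1 := add_cherry D (Fin.castAdd 3 j)
  have h2 := hW.iso _ _ (exE (D.leg (Fin.castAdd 3 j)))
    (add D (Fin.castAdd 3 j.castSucc) (D.leg (Fin.castAdd 3 j)))
  have h3 : (add D (Fin.castAdd 3 j.castSucc) (D.leg (Fin.castAdd 3 j)) :
      Gr (V ⊕ Fin 4) (n + 1 + 3)).map (exE (D.leg (Fin.castAdd 3 j))) =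
      (add D (Fin.castAdd 3 j.succ) (D.leg (Fin.castAdd 3 j)) :
      Gr (V ⊕ Fin 4) (n + 1 + 3)).flip (Sum.inr 0) := h1
  rw [h3, hW.as] at h2
  · rw [← h2, neg_neg]
  · intro h4
    exact absurd (Sum.inr.inj (h4 : (Sum.inr 1 : V ⊕ Fin 4) = Sum.inr 0)) (by decide)

end

end Pool.Agent.SWT80
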