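import Mathlib
import Pool.Agent.SWT80.Ops4
import Pool.Agent.SWT65.Stmts

/-!
# The value with the hub at a vertex, for a functional with a hub
-/

set_option autoImplicit false

namespace Pool.Agent.SWT80

open Equiv Pool.Agent.SWT49 Pool.Agent.SWT65

variable {M : Type} [AddCommGroup M] {n : ℕ}

/-- The two forms of the alternation are the same. -/
theorem alt3_iff {F : (V : Type) → Gr V (n + 3) → M} :
    Alt3 F ↔ ∀ (V : Type) [Finite V] (R : Gr V (n + 3)) (τ : Perm (Fin 3)),
      F V (pq (1 : Perm (Fin n)) τ • R) = (Perm.sign τ : ℤ) • F V R := by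
  constructor
  · intro h V _ R τ
    have e : ∀ τ : Perm (Fin 3), τ = 1 ∨ τ = swap 0 1 ∨ τ = swap 1 2 ∨ τ = swap 0 1 * swap 1 2 ∨
        τ = swap 1 2 * swap 0 1 ∨ τ = swap 0 1 * swap 1 2 * swap 0 1 := by decide
    have a := h.s0 V
    have b := h.s1 V
    have m2 : ∀ (σ τ : Perm (Fin 3)), pq (1 : Perm (Fin n)) (σ * τ) = pq 1 σ * pq 1 τ := by
      intro σ τ
      rw [pq_mul, one_mul]
    have s0 : Perm.sign (1 : Perm (Fin 3)) = 1 := by decide
    have s1 : Perm.sign (swap 0 1 : Perm (Fin 3)) = -1 := by decide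
    have s2 : Perm.sign (swap 1 2 : Perm (Fin 3)) = -1 := by decide
    have s3 : Perm.sign (swap 0 1 * swap 1 2 : Perm (Fin 3)) = 1 := by decide
    have s4 : Perm.sign (swap 1 2 * swap 0 1 : Perm (Fin 3)) = 1 := by decide
    have s5 : Perm.sign (swap 0 1 * swap 1 2 * swap 0 1 : Perm (Fin 3)) = -1 := by decide
    rcases e τ with h | h | h | h | h | h
    · rw [h, pq_one, one_smul, s0, Units.val_one, one_smul]
    · rw [h, a, s1, Units.val_neg, Units.val_one, neg_smul, one_smul]
    · rw [h, b, s2, Units.val_neg, Units.val_one, neg_smul, one_smul]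
    · rw [h, m2, mul_smul, a, b, s3, Units.val_one, one_smul, neg_neg]
    · rw [h, m2, mul_smul, b, a, s4, Units.val_one, one_smul, neg_neg]
    · rw [h, m2, m2, mul_smul, mul_smul, a, b, a, s5, Units.val_neg, Units.val_one, neg_smul,
        one_smul, neg_neg]
  · intro h
    have s1 : Perm.sign (swap 0 1 : Perm (Fin 3)) = -1 := by decide
    have s2 : Perm.sign (swap 1 2 : Perm (Fin 3)) = -1 := by decide
    exact ⟨fun V _ R => by rw [h, s1, Units.val_neg, Units.val_one, neg_smul, one_smul],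
      fun V _ R => by rw [h, s2, Units.val_neg, Units.val_one, neg_smul, one_smul]⟩

section

variable {c : (V : Type) → Gr V (n + 1) → Fin n → M} {W : (V : Type) → Gr V (n + 1 + 3) → M}
  {V V' : Type}

theorem hub_alt3 (hW : Hub c W) : Alt3 W := alt3_iff.2 hW.alt

/-- The value does not depend on the half-edge of the hub. -/
theorem hub_vt [Finite V] (hW : Hub c W) (G : Gr V (n + 1)) {x y : V} (h : G.vt x y) :
    at3 W V G y = at3 W V G x := at3_vt (hub_alt3 hW) G h

theorem hub_map [Finite V] (hW : Hub c W) (φ : V ≃ V') (G : Gr V (n + 1)) (x : V) :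
    at3 W V' (G.map φ) (φ x) = at3 W V G x := at3_map hW.rel φ G x

theorem hub_flip [Finite V] (hW : Hub c W) (G : Gr V (n + 1)) {y : V} (hy : G.r y ≠ y) (x : V) :
    at3 W V (G.flip y) x = - at3 W V G x := at3_flip hW.rel (hub_alt3 hW) G hy x

theorem hub_ihx [Finite V] (hW : Hub c W) {I J X : Gr V (n + 1)} {y : V} (h : Gr.Loc I J X y)
    {x : V} (h1 : ¬ I.vt x y) (h2 : ¬ I.vt x (I.e y)) :
    at3 W V I x = at3 W V J x - at3 W V X x := at3_ihx hW.rel h h1 h2

theorem hub_diff [Finite V] (hW : Hub c W) (G : Gr V (n + 1)) {x : V} (hx : G.r x ≠ x)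
    (h : One (G.cut x hx)) (i : Fin n) :
    at3 W V G x - at3 W V (s i • G) x = c V G i :=
  at3_diff G hx i (hW.diff V _ i h)

theorem hub_off [Finite V] (hW : Hub c W) (G : Gr V (n + 1)) {x : V}
    (h : ∀ hx : G.r x ≠ x, ¬ One (G.cut x hx)) : at3 W V G x = 0 := by
  by_cases hx : G.r x = x
  · exact at3_leg G hx
  · rw [at3_in G hx]
    exact hW.off _ _ (h hx)

end

end Pool.Agent.SWT80
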