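import Mathlib
import Pool.Agent.SWT80.HubAt
import Pool.Agent.SWT36.HIa
import Pool.Agent.SWT67.Opn4
import Pool.Agent.SWT49.Link

/-!
# The hub at the two ends of an edge of the rim
-/

set_option autoImplicit false

namespace Pool.Agent.SWT80

open Equiv Pool.Agent.SWT49 Pool.Agent.SWT65 Pool.Agent.SWT84 Pool.Agent.SWT84.Cy
  Pool.Agent.SWT89

variable {V : Type} {n : ℕ}

/-- If the edge of `h` can be opened and the vertex of `h` is on a cycle which avoids `h` then the
graph stays connected after the cutting at this vertex. -/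
theorem gconn_cut_rim [Finite V] {G : Gr V n} {h : V} (hD : CD G {h, G.e h}) {Rm : Set V}
    (hC : Cy G Rm) (hh : h ∉ Rm) (ha : G.r h ∈ Rm) (hx : G.r h ≠ h) :
    SWT93.GConn (G.cut h hx) := by
  intro S hS hne
  obtain ⟨hSe, hSr⟩ := (G.cld_cut hx).1 hS
  have hpar := SWT36.two_parity hC hh ha hSe hSr
  have heS : ∀ v, G.e v ∈ S ↔ v ∈ S := fun v =>
    ⟨fun h1 => by rw [← G.e2 v]; exact hSe _ h1, hSe v⟩
  by_cases h1 : h ∈ S <;> by_cases h2 : G.r h ∈ S
  · apply hD.gconn S ⟨hSe, fun v hv => ?_⟩ hne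
    by_cases h3 : G.vt h v
    · rcases h3 with rfl | rfl | rfl
      · exact h2
      · exact hpar.1 h2
      · rw [G.r3]
        exact h1
    · exact hSr v hv h3
  · exfalso
    have h2' : G.r (G.r h) ∉ S := fun h' => h2 (hpar.2 h')
    have h3 : S \ {h} = Set.univ := by
      apply hD
      · constructor
        · rintro v ⟨hv, hv'⟩ hvD
          refine ⟨hSe v hv, fun h4 => hvD ?_⟩
          right
          have h5 : G.e v = h := h4
          rw [← h5, G.e2]
          rfl
        · rintro v ⟨hv, hv'⟩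
          have h4 : ¬ G.vt h v := by
            rintro (h5 | h5 | h5)
            · exact hv' h5
            · exact h2 (h5 ▸ hv)
            · exact h2' (h5 ▸ hv)
          refine ⟨hSr v hv h4, fun h5 => h4 (G.vt_r.1 (Or.inl h5))⟩
      · exact ⟨G.e h, hSe h h1, G.e1 h⟩
    have h4 : h ∈ S \ {h} := by
      rw [h3]
      trivial
    exact h4.2 rfl
  · exfalso
    have h2' : G.r (G.r h) ∈ S := hpar.1 h2
    have h3 : S ∪ {h} = Set.univ := by
      apply hD
      · constructor
        · rintro v (hv | hv) hvD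
          · exact Or.inl (hSe v hv)
          · exact absurd (Or.inl hv) hvD
        · rintro v (hv | hv)
          · by_cases h5 : G.vt h v
            · rcases h5 with rfl | rfl | rfl
              · exact Or.inl h2
              · exact Or.inl h2'
              · rw [G.r3]
                exact Or.inr rfl
            · exact Or.inl (hSr v hv h5)
          · have hv' : v = h := hv
            rw [hv']
            exact Or.inl h2
      · exact ⟨_, Or.inl h2⟩
    have h4 : G.e h ∈ S ∪ {h} := by
      rw [h3]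
      trivial
    rcases h4 with h4 | h4
    · exact h1 ((heS h).1 h4)
    · exact G.e1 h h4
  · have h2' : G.r (G.r h) ∉ S := fun h' => h2 (hpar.2 h')
    apply hD.gconn S ⟨hSe, fun v hv => ?_⟩ hne
    apply hSr v hv
    rintro (h5 | h5 | h5)
    · exact h1 (h5 ▸ hv)
    · exact h2 (h5 ▸ hv)
    · exact h2' (h5 ▸ hv)

/-- A cycle of the cut graph is a cycle of the graph which avoids the vertex. -/
theorem cy_of_cut {G : Gr V n} {h : V} {hx : G.r h ≠ h} {S : Set V} (hS : Cy (G.cut h hx) S) :
    Cy G S ∧ ∀ v ∈ S, ¬ G.vt h v := by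
  have h1 : ∀ v ∈ S, ¬ G.vt h v := fun v hv h2 => hS.ne_leg hv (G.cut_r_in hx h2)
  refine ⟨⟨hS.e, fun v hv => ?_⟩, h1⟩
  have h2 := hS.two v hv
  rw [G.cut_r_o hx (h1 v hv), G.cut_r_o hx (fun h' => h1 v hv (G.vt_r.1 h'))] at h2
  exact h2

variable {M : Type} [AddCommGroup M]

/-- The cut at a special leg of a wheel has one loop. -/
theorem one_cut [Finite V] {G : Gr V (n + 1)} {h k : V} (hO : One (opn2 G h k))
    (hN : SWT93.NoCherry (opn2 G h k)) (hx : G.r h ≠ h) : One (G.cut h hx) := by
  obtain ⟨hkh, hkeh, hCD⟩ := op2_iff.1 hO.conn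
  have hcard : Nat.card V = 4 * (n + 1 + 3) := by
    have h1 := hO.card
    rw [SWT67.card_opn2] at h1
    omega
  refine ⟨?_, hcard⟩
  obtain ⟨S, hSne, hS⟩ := exists_cy (n := n + 1 + 3) (opn2 G h k) hO.card.ge
  obtain ⟨R, rfl, hR, r1, r2, r3, r4⟩ := SWT67.cy_of_opn2 hkh hkeh hS
  have hon := SWT36.wheel_on hO.conn (by omega) hO.card hN hS hSne
    (v := Sum.inl (Sum.inl h)) (fun h' => hx (Sum.inl.inj (Sum.inl.inj h')))
  have ha : G.r h ∈ R := by
    rcases hon with h1 | h1
    · rw [Sum.inl_injective.mem_set_image, Sum.inl_injective.mem_set_image] at h1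
      exact absurd h1 r1
    · rw [SWT67.opn2_r, Sum.inl_injective.mem_set_image, Sum.inl_injective.mem_set_image] at h1
      exact h1
  exact gconn_cut_rim (hCD.mono Set.subset_union_left) hR r1 ha hx

/-- **M6d.** The hub may be moved along an edge of the rim between the vertices of two special
legs. -/
theorem hub_adj [Finite V] {c : (V : Type) → Gr V (n + 1) → Fin n → M}
    {W : (V : Type) → Gr V (n + 1 + 3) → M} (hW : Hub c W) (hHi : Hi W) {G : Gr V (n + 1)}
    {h k y : V} (hO : One (opn2 G h k)) (hN : SWT93.NoCherry (opn2 G h k))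
    (hy : y = G.r h ∨ y = G.r (G.r h)) (hk : G.vt k (G.e y)) :
    at3 W V G h = at3 W V G k := by
  obtain ⟨hkh, hkeh, hx, _, hkin, _⟩ := SWT67.opn2_inner hO.conn (by omega)
  have hR := one_cut hO hN hx
  obtain ⟨S, hSne, hS⟩ := exists_cy (n := n + 3) (G.cut h hx) hR.card.ge
  obtain ⟨hSG, hSv⟩ := cy_of_cut hS
  have hhS : h ∉ S := fun h' => hSv h h' (G.vt_self h)
  have hrS : G.r h ∉ S := fun h' => hSv _ h' (G.vt_r1 h)
  have hyS : y ∉ S := by
    rcases hy with rfl | rfl
    · exact hrS
    · exact fun h' => hSv _ h' (G.vt_r2 h)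
  have hkS : k ∈ S := by
    by_contra hkS
    have hS2 := SWT67.cy_opn2 hSG hhS hkS
    have hon := SWT36.wheel_on hO.conn (by omega) hO.card hN hS2
      ((hSne.image _).image _) (v := Sum.inl (Sum.inl h))
      (fun h' => hx (Sum.inl.inj (Sum.inl.inj h')))
    rcases hon with h1 | h1
    · rw [Sum.inl_injective.mem_set_image, Sum.inl_injective.mem_set_image] at h1
      exact hhS h1
    · rw [SWT67.opn2_r, Sum.inl_injective.mem_set_image, Sum.inl_injective.mem_set_image] at h1
      exact hrS h1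
  have heyS : G.e y ∉ S := fun h' => hyS (hSG.e_iff.1 h')
  have hmem : G.r (G.e y) ∈ S := by
    rcases hk with h1 | h1 | h1
    · rw [h1] at heyS
      exact absurd hkS heyS
    · rw [h1] at heyS ⊢
      rcases hSG.two k hkS with h2 | h2
      · exact absurd h2.1 heyS
      · exact h2.2
    · rw [h1, G.r3]
      exact hkS
  have hnv : ¬ G.vt h (G.e y) := by
    intro h1
    exact hSv _ hmem (G.vt_r.2 h1)
  have hk' : G.vt (G.e y) k := G.vt_symm hk
  have key : ∀ j : Fin 3, (G.cut h hx).leg (Fin.natAdd (n + 1) j) = y →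
      at3 W V G h = at3 W V G k := by
    intro j hj
    have h1 := hHi V (G.cut h hx) S j hR hS (by
      rw [hj]
      show (G.cut h hx).r (G.e y) ∈ S
      rw [G.cut_r_o hx hnv]
      exact hmem)
    rw [at3_in G hx, h1, hj, Gr.join_cut]
    show at3 W V G (G.e y) = _
    exact (hub_vt hW G hk').symm
  rcases hy with rfl | rfl
  · exact key 1 (G.cut_leg_1 hx)
  · exact key 2 (G.cut_leg_2 hx)

end Pool.Agent.SWT80
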